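import Mathlib

/-
The mixing time of the simple random walk on the free Burnside group B(3, d) has order
d ^ 3 / log d.
-/

namespace Pool.Agent.Results.MP_3225a3_pr.MixingOrder

open Finset Filter Topology

/-- The free Burnside group B(3, d): the quotient of the free group on d generators by the
normal closure of all cubes. -/
abbrev Burnside3 (d : ℕ) : Type := PresentedGroup {r : FreeGroup (Fin d) | ∃ w : FreeGroup (Fin d), r = w ^ 3}

/-- The image s_i in B(3, d) of the i-th free generator. -/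
def burnsideGen (d : ℕ) (i : Fin d) : Burnside3 d := PresentedGroup.of i

/-- The set S_d of all s_i and all inverses of the s_i. -/
def stepSet (d : ℕ) : Set (Burnside3 d) := {x | ∃ i, x = burnsideGen d i ∨ x = (burnsideGen d i)⁻¹}

open Classical in
/-- The uniform probability measure on S_d. -/
noncomputable def stepLaw (d : ℕ) (x : Burnside3 d) : ℝ := if x ∈ stepSet d then 1 / (Nat.card (stepSet d) : ℝ) else 0

open Classical in
/-- The law of the walk at time t: it starts at the identity, and at every step the current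
position is multiplied on the right by an independent element with law stepLaw. -/
noncomputable def walkLaw (d : ℕ) : ℕ → Burnside3 d → ℝ
  | 0, x => if x = 1 then 1 else 0
  | t+1, x => ∑ᶠ y : Burnside3 d, walkLaw d t y * stepLaw d (y⁻¹ * x)

/-- Total variation distance between the law of the walk at time t and the uniform law. -/
noncomputable def tvDist (d t : ℕ) : ℝ :=
  (1/2) * ∑ᶠ x : Burnside3 d, |walkLaw d t x - 1 / (Nat.card (Burnside3 d) : ℝ)|

/-- The mixing time: the least t with total variation distance at most 1/4. -/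
noncomputable def mixingTime (d : ℕ) : ℕ := sInf {t : ℕ | tvDist d t ≤ 1/4}

/-- average over all words of length `n` over the alphabet `A` -/
noncomputable def Av {A E : Type*} [Fintype A] [AddCommMonoid E] [Module ℝ E] : ℕ → (List A → E) → E
  | 0, F => F []
  | n+1, F => ((Fintype.card A : ℝ)⁻¹) • ∑ c : A, Av n (fun u => F (c :: u))

section av
variable {A E : Type*} [Fintype A] [AddCommMonoid E] [Module ℝ E]

theorem Av_zero (F : List A → E) : Av 0 F = F [] := rfl

theorem Av_succ (n : ℕ) (F : List A → E) :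
    Av (n+1) F = ((Fintype.card A : ℝ)⁻¹) • ∑ c : A, Av n (fun u => F (c :: u)) := rfl

theorem Av_congr (n : ℕ) {F G : List A → E} (h : ∀ u : List A, u.length = n → F u = G u) : Av n F = Av n G := by
  induction n generalizing F G with
  | zero => exact h [] rfl
  | succ n ih =>
    rw [Av_succ, Av_succ]
    congr 1
    apply Finset.sum_congr rfl
    intro c _
    exact ih (fun u hu => h (c :: u) (by simp [hu]))

theorem Av_add (n : ℕ) (F G : List A → E) : Av n (fun u => F u + G u) = Av n F + Av n G := by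
  induction n generalizing F G with
  | zero => rfl
  | succ n ih =>
    rw [Av_succ, Av_succ, Av_succ, ← smul_add, ← Finset.sum_add_distrib]
    congr 1
    apply Finset.sum_congr rfl
    intro c _
    exact ih _ _

theorem Av_smul (n : ℕ) (r : ℝ) (F : List A → E) : Av n (fun u => r • F u) = r • Av n F := by
  induction n generalizing F with
  | zero => rfl
  | succ n ih =>
    rw [Av_succ, Av_succ, smul_comm r]
    congr 1
    rw [Finset.smul_sum]
    apply Finset.sum_congr rfl
    intro c _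
    exact ih _

theorem Av_sum {ι : Type*} (s : Finset ι) (n : ℕ) (F : ι → List A → E) :
    Av n (fun u => ∑ i ∈ s, F i u) = ∑ i ∈ s, Av n (F i) := by
  induction n generalizing F with
  | zero => rfl
  | succ n ih =>
    simp only [Av_succ]
    rw [← Finset.smul_sum, Finset.sum_comm]
    congr 1
    apply Finset.sum_congr rfl
    intro c _
    exact ih _

theorem Av_append (m n : ℕ) (F : List A → E) :
    Av (m + n) F = Av m (fun u => Av n (fun v => F (u ++ v))) := by
  induction m generalizing F with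
  | zero => rw [Nat.zero_add]; rfl
  | succ m ih =>
    rw [Nat.add_right_comm, Av_succ, Av_succ]
    congr 1
    apply Finset.sum_congr rfl
    intro c _
    rw [ih]
    rfl

theorem Av_const [Nonempty A] (n : ℕ) (e : E) : Av n (fun _ : List A => e) = e := by
  induction n with
  | zero => rfl
  | succ n ih =>
    rw [Av_succ, ih, Finset.sum_const, Finset.card_univ, ← Nat.cast_smul_eq_nsmul ℝ, smul_smul, inv_mul_cancel₀, one_smul]
    have : 0 < Fintype.card A := Fintype.card_pos
    positivity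

end av

section avreal
variable {A : Type*} [Fintype A]

theorem Av_mono (n : ℕ) {F G : List A → ℝ} (h : ∀ u : List A, u.length = n → F u ≤ G u) : Av n F ≤ Av n G := by
  induction n generalizing F G with
  | zero => exact h [] rfl
  | succ n ih =>
    rw [Av_succ, Av_succ, smul_eq_mul, smul_eq_mul]
    apply mul_le_mul_of_nonneg_left _ (by positivity)
    apply Finset.sum_le_sum
    intro c _
    exact ih (fun u hu => h (c :: u) (by simp [hu]))

theorem Av_nonneg (n : ℕ) {F : List A → ℝ} (h : ∀ u : List A, 0 ≤ F u) : 0 ≤ Av n F := by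
  induction n generalizing F with
  | zero => exact h []
  | succ n ih =>
    rw [Av_succ, smul_eq_mul]
    apply mul_nonneg (by positivity)
    apply Finset.sum_nonneg
    intro c _
    exact ih (fun u => h (c :: u))

theorem Av_mul_left (n : ℕ) (r : ℝ) (F : List A → ℝ) : Av n (fun u => r * F u) = r * Av n F := Av_smul n r F

theorem norm_Av_le (n : ℕ) (F : List A → ℂ) : ‖Av n F‖ ≤ Av n (fun u => ‖F u‖) := by
  induction n generalizing F with
  | zero => exact le_rfl
  | succ n ih =>
    rw [Av_succ, Av_succ, norm_smul, smul_eq_mul, norm_inv, Real.norm_natCast]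
    apply mul_le_mul_of_nonneg_left _ (by positivity)
    refine (norm_sum_le _ _).trans ?_
    apply Finset.sum_le_sum
    intro c _
    exact ih _

theorem re_Av (n : ℕ) (F : List A → ℂ) : (Av n F).re = Av n (fun u => (F u).re) := by
  induction n generalizing F with
  | zero => rfl
  | succ n ih =>
    rw [Av_succ, Av_succ, Complex.smul_re, smul_eq_mul, smul_eq_mul, Complex.re_sum]
    congr 1
    apply Finset.sum_congr rfl
    intro c _
    exact ih _

theorem Av_cmul_left (n : ℕ) (z : ℂ) (F : List A → ℂ) : Av n (fun u => z * F u) = z * Av n F := by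
  induction n generalizing F with
  | zero => rfl
  | succ n ih =>
    rw [Av_succ, Av_succ, mul_smul_comm, Finset.mul_sum]
    congr 1
    apply Finset.sum_congr rfl
    intro c _
    exact ih _

end avreal

section ops
variable {V I : Type} [AddCommGroup V]

/-- action of a letter -/
def act (D : I → AddMonoid.End V) (c : I × Bool) : AddMonoid.End V := if c.2 then 1 + D c.1 else 1 - D c.1

structure Quad (D : I → AddMonoid.End V) : Prop where
  three : ∀ v : V, v + v + v = 0
  dsq : ∀ i, D i * D i = 0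
  anti : ∀ i j, D i * D j = - (D j * D i)
  tri : ∀ i j l, D i * D j * D l = 0

/-- action of a word -/
def rho (D : I → AddMonoid.End V) (u : List (I × Bool)) : AddMonoid.End V := (u.map (act D)).prod

theorem rho_nil (D : I → AddMonoid.End V) : rho D [] = 1 := rfl

theorem rho_cons (D : I → AddMonoid.End V) (c : I × Bool) (u : List (I × Bool)) :
    rho D (c :: u) = act D c * rho D u := by
  unfold rho; rw [List.map_cons, List.prod_cons]

theorem rho_append (D : I → AddMonoid.End V) (u v : List (I × Bool)) :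
    rho D (u ++ v) = rho D u * rho D v := by
  unfold rho; rw [List.map_append, List.prod_append]

variable {D : I → AddMonoid.End V} (Q : Quad D)
include Q

theorem Quad.DD_act (i j : I) (c : I × Bool) : D i * D j * act D c = D i * D j := by
  unfold act
  split_ifs
  · rw [mul_add, mul_one, Q.tri, add_zero]
  · rw [mul_sub, mul_one, Q.tri, sub_zero]

theorem Quad.DD_rho (i j : I) (u : List (I × Bool)) : D i * D j * rho D u = D i * D j := by
  induction u with
  | nil => rw [rho_nil, mul_one]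
  | cons c u ih => rw [rho_cons, ← mul_assoc, Q.DD_act, ih]

theorem Quad.act_DD (i j : I) (c : I × Bool) : act D c * (D i * D j) = D i * D j := by
  unfold act
  split_ifs
  · rw [add_mul, one_mul, ← mul_assoc, Q.tri, add_zero]
  · rw [sub_mul, one_mul, ← mul_assoc, Q.tri, sub_zero]

theorem Quad.threeEnd (f : AddMonoid.End V) : f + f + f = 0 := by
  ext v
  exact Q.three (f v)

/-- the commutator of two letters -/
theorem Quad.comm_act (c c' : I × Bool) : act D c * act D c' - act D c' * act D c = D c.1 * D c'.1 ∨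
    act D c * act D c' - act D c' * act D c = - (D c.1 * D c'.1) := by
  have h3 := Q.threeEnd (D c.1 * D c'.1)
  have ha := Q.anti c'.1 c.1
  unfold act
  split_ifs
  · right
    have : (1 + D c.1) * (1 + D c'.1) - (1 + D c'.1) * (1 + D c.1) = D c.1 * D c'.1 - D c'.1 * D c.1 := by noncomm_ring
    rw [this, ha, sub_neg_eq_add]
    exact eq_neg_of_add_eq_zero_left h3
  · left
    have : (1 + D c.1) * (1 - D c'.1) - (1 - D c'.1) * (1 + D c.1) = -(D c.1 * D c'.1) + D c'.1 * D c.1 := by noncomm_ring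
    rw [this, ha, ← sub_eq_zero]
    have : -(D c.1 * D c'.1) + -(D c.1 * D c'.1) - D c.1 * D c'.1 = -(D c.1 * D c'.1 + D c.1 * D c'.1 + D c.1 * D c'.1) := by
      noncomm_ring
    rw [this, h3, neg_zero]
  · left
    have : (1 - D c.1) * (1 + D c'.1) - (1 + D c'.1) * (1 - D c.1) = -(D c.1 * D c'.1) + D c'.1 * D c.1 := by noncomm_ring
    rw [this, ha, ← sub_eq_zero]
    have : -(D c.1 * D c'.1) + -(D c.1 * D c'.1) - D c.1 * D c'.1 = -(D c.1 * D c'.1 + D c.1 * D c'.1 + D c.1 * D c'.1) := by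
      noncomm_ring
    rw [this, h3, neg_zero]
  · right
    have : (1 - D c.1) * (1 - D c'.1) - (1 - D c'.1) * (1 - D c.1) = D c.1 * D c'.1 - D c'.1 * D c.1 := by noncomm_ring
    rw [this, ha, sub_neg_eq_add]
    exact eq_neg_of_add_eq_zero_left h3

theorem Quad.comm_act_rho (c c' : I × Bool) (u : List (I × Bool)) :
    (act D c * act D c' - act D c' * act D c) * rho D u = act D c * act D c' - act D c' * act D c := by
  rcases Q.comm_act c c' with h | h
  · rw [h, Q.DD_rho]
  · rw [h, neg_mul, Q.DD_rho]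

end ops

section chars
variable {V I : Type} [AddCommGroup V]

theorem char_cube (h3 : ∀ v : V, v + v + v = 0) (ψ : AddChar V ℂ) (v : V) : (ψ v)^3 = 1 := by
  have := congrArg ψ (h3 v)
  rw [AddChar.map_add_eq_mul, AddChar.map_add_eq_mul, AddChar.map_zero_eq_one] at this
  rw [← this]; ring

theorem cube_norm {z : ℂ} (h : z^3 = 1) : ‖z‖ = 1 := by
  have : ‖z‖^3 = 1 := by rw [← norm_pow, h, norm_one]
  exact (pow_eq_one_iff_of_nonneg (norm_nonneg z) (by norm_num)).1 this

theorem norm_one_add {z : ℂ} (h : z^3 = 1) (h1 : z ≠ 1) : ‖1 + z‖ = 1 := by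
  have h2 : (z - 1) * (1 + z + z^2) = 0 := by linear_combination h
  have h3 : 1 + z + z^2 = 0 := by
    rcases mul_eq_zero.1 h2 with h | h
    · exact absurd (sub_eq_zero.1 h) h1
    · exact h
  have h4 : 1 + z = -z^2 := by linear_combination h3
  rw [h4, norm_neg, norm_pow, cube_norm h, one_pow]

theorem re_cube {z : ℂ} (h : z^3 = 1) (h1 : z ≠ 1) : z.re = -1/2 := by
  have h2 := norm_one_add h h1
  have h3 := cube_norm h
  have e1 : Complex.normSq z = 1 := by
    rw [Complex.normSq_eq_norm_sq, h3, one_pow]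
  have e2 : Complex.normSq (1 + z) = 1 := by
    rw [Complex.normSq_eq_norm_sq, h2, one_pow]
  rw [Complex.normSq_apply] at e1 e2
  simp only [Complex.add_re, Complex.one_re, Complex.add_im, Complex.one_im] at e2
  linarith

/-- twisting a character -/
def tw (ψ : AddChar V ℂ) (f : AddMonoid.End V) : AddChar V ℂ := ψ.compAddMonoidHom f

theorem tw_apply (ψ : AddChar V ℂ) (f : AddMonoid.End V) (v : V) : tw ψ f v = ψ (f v) := rfl

variable [Fintype I] {D : I → AddMonoid.End V} (Q : Quad D) (x₀ : V)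

open Classical in
/-- number of pairs where the second difference is nontrivial -/
noncomputable def Tn (D : I → AddMonoid.End V) (x₀ : V) (ψ : AddChar V ℂ) : ℕ :=
  ((univ : Finset (I × I)).filter (fun p => ψ ((D p.1 * D p.2) x₀) ≠ 1)).card

noncomputable def Ep (D : I → AddMonoid.End V) (x₀ : V) (p : ℕ) (ψ : AddChar V ℂ) : ℂ :=
  Av p (fun u : List (I × Bool) => ψ (rho D u x₀))

theorem Ep_succ (D : I → AddMonoid.End V) (x₀ : V) (p : ℕ) (ψ : AddChar V ℂ) :
    Ep D x₀ (p+1) ψ = ((Fintype.card (I × Bool) : ℝ)⁻¹) • ∑ c : I × Bool, Ep D x₀ p (tw ψ (act D c)) := by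
  unfold Ep
  rw [Av_succ]
  congr 1

include Q

theorem Quad.Tn_tw (ψ : AddChar V ℂ) (c : I × Bool) : Tn D x₀ (tw ψ (act D c)) = Tn D x₀ ψ := by
  classical
  unfold Tn
  congr 1
  ext p
  simp only [mem_filter, mem_univ, true_and]
  rw [tw_apply]
  have : act D c ((D p.1 * D p.2) x₀) = (act D c * (D p.1 * D p.2)) x₀ := rfl
  rw [this, Q.act_DD]

theorem Quad.Ep_swap (p : ℕ) (ψ : AddChar V ℂ) (c c' : I × Bool) :
    Ep D x₀ p (tw (tw ψ (act D c)) (act D c')) =
      ψ ((act D c * act D c' - act D c' * act D c) x₀) * Ep D x₀ p (tw (tw ψ (act D c')) (act D c)) := by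
  unfold Ep
  rw [← Av_cmul_left]
  apply Av_congr
  intro u _
  rw [tw_apply, tw_apply, tw_apply, tw_apply]
  have h1 : act D c (act D c' (rho D u x₀)) = (act D c * act D c' - act D c' * act D c) x₀ + act D c' (act D c (rho D u x₀)) := by
    have h2 : ((act D c * act D c' - act D c' * act D c) * rho D u) x₀ = (act D c * act D c' - act D c' * act D c) x₀ :=
      congrArg (fun f : AddMonoid.End V => f x₀) (Q.comm_act_rho c c' u)
    rw [← h2]
    show (act D c * act D c' * rho D u) x₀ = ((act D c * act D c' - act D c' * act D c) * rho D u + act D c' * act D c * rho D u) x₀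
    congr 1
    noncomm_ring
  rw [h1, AddChar.map_add_eq_mul]

open Classical in
theorem Quad.kap_le (ψ : AddChar V ℂ) (c c' : I × Bool) :
    ‖1 + ψ ((act D c * act D c' - act D c' * act D c) x₀)‖ ≤
      2 - (if ψ ((D c.1 * D c'.1) x₀) ≠ 1 then 1 else 0) := by
  have hc := char_cube Q.three ψ ((D c.1 * D c'.1) x₀)
  have hk := char_cube Q.three ψ ((act D c * act D c' - act D c' * act D c) x₀)
  split_ifs with h
  · have hne : ψ ((act D c * act D c' - act D c' * act D c) x₀) ≠ 1 := by
      rcases Q.comm_act c c' with h1 | h1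
      · rw [h1]; exact h
      · rw [h1]
        intro h2
        have h3 : (-(D c.1 * D c'.1)) x₀ = - ((D c.1 * D c'.1) x₀) := rfl
        rw [h3, AddChar.map_neg_eq_inv, inv_eq_one] at h2
        exact h h2
    rw [norm_one_add hk hne]
    norm_num
  · refine (norm_add_le _ _).trans ?_
    rw [norm_one, cube_norm hk]
    norm_num

theorem Quad.Ep_bound [Nonempty I] (p : ℕ) (ψ : AddChar V ℂ) :
    ‖Ep D x₀ p ψ‖ ≤ (1 - (Tn D x₀ ψ : ℝ) / (2 * (Fintype.card I : ℝ)^2))^(p/2) := by
  classical
  set x : ℝ := 1 - (Tn D x₀ ψ : ℝ) / (2 * (Fintype.card I : ℝ)^2) with hx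
  have hI : (0:ℝ) < Fintype.card I := by
    have : 0 < Fintype.card I := Fintype.card_pos
    exact_mod_cast this
  have hTle : (Tn D x₀ ψ : ℝ) ≤ (Fintype.card I : ℝ)^2 := by
    unfold Tn
    have := Finset.card_le_univ ((univ : Finset (I × I)).filter (fun p => ψ ((D p.1 * D p.2) x₀) ≠ 1))
    rw [Fintype.card_prod] at this
    rw [pow_two (Fintype.card I : ℝ)]
    exact_mod_cast this
  have hx0 : 0 ≤ x := by
    rw [hx, sub_nonneg, div_le_one (by positivity)]
    linarith [sq_nonneg (Fintype.card I : ℝ)]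
  have key : ∀ (p : ℕ) (ψ' : AddChar V ℂ), Tn D x₀ ψ' = Tn D x₀ ψ → ‖Ep D x₀ p ψ'‖ ≤ x^(p/2) := by
    intro p
    induction p using Nat.twoStepInduction with
    | zero =>
      intro ψ' _
      unfold Ep
      rw [Av_zero]
      simp only [Nat.zero_div, pow_zero]
      exact (cube_norm (char_cube Q.three ψ' _)).le
    | one =>
      intro ψ' _
      simp only [show (1:ℕ)/2 = 0 by norm_num, pow_zero]
      unfold Ep
      refine (norm_Av_le _ _).trans ?_
      have : ∀ u : List (I × Bool), ‖ψ' (rho D u x₀)‖ = 1 := fun u => cube_norm (char_cube Q.three ψ' _)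
      simp only [this]
      rw [Av_const]
    | more p ih _ =>
      intro ψ' hψ'
      have hT1 : ∀ c c' : I × Bool, Tn D x₀ (tw (tw ψ' (act D c)) (act D c')) = Tn D x₀ ψ := by
        intro c c'
        rw [Q.Tn_tw, Q.Tn_tw, hψ']
      have h1 : Ep D x₀ (p+2) ψ' = ((Fintype.card (I × Bool) : ℝ)⁻¹) • ((Fintype.card (I × Bool) : ℝ)⁻¹) •
          ∑ c : I × Bool, ∑ c' : I × Bool, Ep D x₀ p (tw (tw ψ' (act D c)) (act D c')) := by
        rw [show p + 2 = (p+1)+1 by ring, Ep_succ]
        congr 1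
        rw [Finset.smul_sum]
        apply Finset.sum_congr rfl
        intro c _
        rw [Ep_succ]
      have h2 : ∑ c : I × Bool, ∑ c' : I × Bool, Ep D x₀ p (tw (tw ψ' (act D c)) (act D c')) =
          (1/2 : ℂ) * ∑ c : I × Bool, ∑ c' : I × Bool, (1 + ψ' ((act D c * act D c' - act D c' * act D c) x₀)) *
            Ep D x₀ p (tw (tw ψ' (act D c')) (act D c)) := by
        have e1 : ∑ c : I × Bool, ∑ c' : I × Bool, (1 + ψ' ((act D c * act D c' - act D c' * act D c) x₀)) *
            Ep D x₀ p (tw (tw ψ' (act D c')) (act D c)) =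
            ∑ c : I × Bool, ∑ c' : I × Bool, (Ep D x₀ p (tw (tw ψ' (act D c')) (act D c)) +
              Ep D x₀ p (tw (tw ψ' (act D c)) (act D c'))) := by
          apply Finset.sum_congr rfl
          intro c _
          apply Finset.sum_congr rfl
          intro c' _
          rw [Q.Ep_swap x₀ p ψ' c c']
          ring
        rw [e1]
        simp only [Finset.sum_add_distrib]
        have e2 : ∑ c : I × Bool, ∑ c' : I × Bool, Ep D x₀ p (tw (tw ψ' (act D c')) (act D c)) =
            ∑ c : I × Bool, ∑ c' : I × Bool, Ep D x₀ p (tw (tw ψ' (act D c)) (act D c')) := Finset.sum_comm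
        rw [e2]
        ring
      have h3 : ‖∑ c : I × Bool, ∑ c' : I × Bool, (1 + ψ' ((act D c * act D c' - act D c' * act D c) x₀)) *
            Ep D x₀ p (tw (tw ψ' (act D c')) (act D c))‖ ≤
          ∑ c : I × Bool, ∑ c' : I × Bool, (2 - (if ψ' ((D c.1 * D c'.1) x₀) ≠ 1 then 1 else 0)) * x^(p/2) := by
        refine (norm_sum_le _ _).trans ?_
        apply Finset.sum_le_sum
        intro c _
        refine (norm_sum_le _ _).trans ?_
        apply Finset.sum_le_sum
        intro c' _
        rw [norm_mul]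
        apply mul_le_mul (Q.kap_le x₀ ψ' c c') (ih _ (hT1 c' c)) (norm_nonneg _)
        split_ifs <;> norm_num
      have h4 : ∑ c : I × Bool, ∑ c' : I × Bool, ((2:ℝ) - (if ψ' ((D c.1 * D c'.1) x₀) ≠ 1 then 1 else 0)) * x^(p/2) =
          (8 * (Fintype.card I : ℝ)^2 - 4 * (Tn D x₀ ψ : ℝ)) * x^(p/2) := by
        have e3 : ∑ c : I × Bool, ∑ c' : I × Bool, ((2:ℝ) - (if ψ' ((D c.1 * D c'.1) x₀) ≠ 1 then 1 else 0)) =
            8 * (Fintype.card I : ℝ)^2 - 4 * (Tn D x₀ ψ : ℝ) := by
          simp only [Finset.sum_sub_distrib, Finset.sum_const, Finset.card_univ, Fintype.card_prod, Fintype.card_bool]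
          have e4 : ∑ c : I × Bool, ∑ c' : I × Bool, (if ψ' ((D c.1 * D c'.1) x₀) ≠ 1 then (1:ℝ) else 0) = 4 * (Tn D x₀ ψ : ℝ) := by
            rw [← hψ']
            rw [Fintype.sum_prod_type]
            have e5 : ∀ i : I, ∑ b : Bool, ∑ c' : I × Bool, (if ψ' ((D i * D c'.1) x₀) ≠ 1 then (1:ℝ) else 0) =
                4 * ∑ j : I, (if ψ' ((D i * D j) x₀) ≠ 1 then (1:ℝ) else 0) := by
              intro i
              rw [Finset.sum_const, Finset.card_univ, Fintype.card_bool, Fintype.sum_prod_type]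
              simp only [Fintype.sum_bool]
              rw [Finset.sum_add_distrib, two_nsmul]
              ring
            rw [Finset.sum_congr rfl (fun i _ => e5 i), ← Finset.mul_sum]
            congr 1
            unfold Tn
            rw [Finset.card_filter]
            push_cast
            rw [Fintype.sum_prod_type]
          rw [e4]
          simp only [nsmul_eq_mul]
          push_cast
          ring
        rw [← e3, Finset.sum_mul]
        apply Finset.sum_congr rfl
        intro c _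
        rw [Finset.sum_mul]
      have hcard : (Fintype.card (I × Bool) : ℝ) = 2 * (Fintype.card I : ℝ) := by
        rw [Fintype.card_prod, Fintype.card_bool]; push_cast; ring
      rw [h1, h2, norm_smul, norm_smul, norm_mul, norm_inv, Real.norm_natCast, hcard]
      have h5 : ‖(1/2 : ℂ)‖ = 1/2 := by norm_num
      rw [h5]
      have h6 := h3.trans_eq h4
      rw [show (p+2)/2 = p/2 + 1 by omega, pow_succ]
      calc (2 * (Fintype.card I : ℝ))⁻¹ * ((2 * (Fintype.card I : ℝ))⁻¹ * (1/2 * ‖∑ c : I × Bool, ∑ c' : I × Bool,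
            (1 + ψ' ((act D c * act D c' - act D c' * act D c) x₀)) * Ep D x₀ p (tw (tw ψ' (act D c')) (act D c))‖))
          ≤ (2 * (Fintype.card I : ℝ))⁻¹ * ((2 * (Fintype.card I : ℝ))⁻¹ * (1/2 * ((8 * (Fintype.card I : ℝ)^2 - 4 * (Tn D x₀ ψ : ℝ)) * x^(p/2)))) := by
            gcongr
        _ = x^(p/2) * x := by
            rw [hx]
            field_simp
            ring
  exact key p ψ rfl

end chars

section est
variable {V I : Type} [AddCommGroup V] [Fintype I] {D : I → AddMonoid.End V} (Q : Quad D) (x₀ : V)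

/-- sum over all beginnings of a word -/
noncomputable def pre (D : I → AddMonoid.End V) (x₀ : V) : AddChar V ℂ → List (I × Bool) → ℂ
  | ψ, [] => ψ x₀
  | ψ, c :: u => ψ x₀ + pre D x₀ (tw ψ (act D c)) u

theorem Av_pre [Nonempty I] (N : ℕ) (ψ : AddChar V ℂ) :
    Av N (pre D x₀ ψ) = ∑ p ∈ Finset.range (N+1), Ep D x₀ p ψ := by
  induction N generalizing ψ with
  | zero =>
    rw [Av_zero, zero_add, Finset.sum_range_one]
    rfl
  | succ N ih =>
    rw [Av_succ, Finset.sum_range_succ']
    have h1 : ∀ c : I × Bool, Av N (fun u => pre D x₀ ψ (c :: u)) = ψ x₀ + ∑ p ∈ Finset.range (N+1), Ep D x₀ p (tw ψ (act D c)) := by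
      intro c
      have : (fun u => pre D x₀ ψ (c :: u)) = (fun u => ψ x₀ + pre D x₀ (tw ψ (act D c)) u) := rfl
      rw [this, Av_add, Av_const, ih]
    rw [Finset.sum_congr rfl (fun c _ => h1 c), Finset.sum_add_distrib, smul_add, add_comm]
    congr 1
    · rw [Finset.sum_comm, Finset.smul_sum]
      apply Finset.sum_congr rfl
      intro p _
      rw [Ep_succ]
    · rw [Finset.sum_const, Finset.card_univ, ← Nat.cast_smul_eq_nsmul ℝ, smul_smul, inv_mul_cancel₀, one_smul]
      · rfl
      · have : 0 < Fintype.card (I × Bool) := Fintype.card_pos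
        positivity

omit [Fintype I] in
theorem act_true_apply (D : I → AddMonoid.End V) (i : I) (y : V) : act D (i, true) y = y + D i y := by
  unfold act; rw [if_pos rfl]; rfl

omit [Fintype I] in
theorem act_false_apply (D : I → AddMonoid.End V) (i : I) (y : V) : act D (i, false) y = y - D i y := by
  unfold act; rw [if_neg (by simp)]; rfl

theorem half_geom {x : ℝ} (hx0 : 0 ≤ x) (hx1 : x < 1) (N : ℕ) : ∑ p ∈ Finset.range N, x^(p/2) ≤ 2/(1-x) := by
  have h1 : ∀ M : ℕ, ∑ p ∈ Finset.range (2*M), x^(p/2) = 2 * ∑ j ∈ Finset.range M, x^j := by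
    intro M
    induction M with
    | zero => simp
    | succ M ih =>
      rw [show 2*(M+1) = 2*M+1+1 by ring, Finset.sum_range_succ, Finset.sum_range_succ, ih, Finset.sum_range_succ]
      rw [show (2*M+1)/2 = M by omega, show (2*M)/2 = M by omega]
      ring
  have h2 : ∑ p ∈ Finset.range N, x^(p/2) ≤ ∑ p ∈ Finset.range (2*N), x^(p/2) := by
    apply Finset.sum_le_sum_of_subset_of_nonneg
    · intro i hi
      rw [Finset.mem_range] at *
      omega
    · intro i _ _
      positivity
  refine h2.trans ?_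
  rw [h1]
  have hs : Summable (fun k : ℕ => x^k) := summable_geometric_of_lt_one hx0 hx1
  have := hs.sum_le_tsum (Finset.range N) (fun i _ => by positivity)
  rw [tsum_geometric_of_lt_one hx0 hx1] at this
  rw [div_eq_mul_inv]
  linarith

include Q

theorem Quad.R_bound [Nonempty I] (N : ℕ) (ψ : AddChar V ℂ) {x : ℝ} (hx0 : 0 ≤ x) (hx1 : x < 1)
    (hx : 1 - (Tn D x₀ ψ : ℝ) / (2 * (Fintype.card I : ℝ)^2) ≤ x) :
    ‖Av N (pre D x₀ ψ)‖ ≤ 2/(1-x) := by
  rw [Av_pre]
  refine (norm_sum_le _ _).trans ?_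
  refine le_trans ?_ (half_geom hx0 hx1 (N+1))
  apply Finset.sum_le_sum
  intro p _
  refine (Q.Ep_bound x₀ p ψ).trans ?_
  apply pow_le_pow_left₀ _ hx
  have hI : (0:ℝ) < Fintype.card I := by
    have : 0 < Fintype.card I := Fintype.card_pos
    exact_mod_cast this
  rw [sub_nonneg, div_le_one (by positivity)]
  classical
  have hTle : (Tn D x₀ ψ : ℝ) ≤ (Fintype.card I : ℝ)^2 := by
    unfold Tn
    have := Finset.card_le_univ ((univ : Finset (I × I)).filter (fun p => ψ ((D p.1 * D p.2) x₀) ≠ 1))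
    rw [Fintype.card_prod] at this
    rw [pow_two (Fintype.card I : ℝ)]
    exact_mod_cast this
  linarith [sq_nonneg (Fintype.card I : ℝ)]

theorem Quad.Q_bound [Nonempty I] (N : ℕ) (ψ : AddChar V ℂ) {x : ℝ} (hx0 : 0 ≤ x) (hx1 : x < 1)
    (hx : 1 - (Tn D x₀ ψ : ℝ) / (2 * (Fintype.card I : ℝ)^2) ≤ x) :
    Av N (fun u => ‖pre D x₀ ψ u‖^2) ≤ (N+1) * (1 + 2 * (2/(1-x))) := by
  have hB : 0 ≤ 2/(1-x) := by
    apply div_nonneg (by norm_num); linarith
  induction N generalizing ψ with
  | zero =>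
    rw [Av_zero]
    have : ‖pre D x₀ ψ []‖ = 1 := cube_norm (char_cube Q.three ψ x₀)
    rw [this]
    push_cast
    nlinarith
  | succ N ih =>
    rw [Av_succ, smul_eq_mul]
    have h1 : ∀ c : I × Bool, Av N (fun u => ‖pre D x₀ ψ (c :: u)‖^2) ≤ (1 + 2 * (2/(1-x))) + (N+1) * (1 + 2 * (2/(1-x))) := by
      intro c
      have hx' : 1 - (Tn D x₀ (tw ψ (act D c)) : ℝ) / (2 * (Fintype.card I : ℝ)^2) ≤ x := by
        rw [Q.Tn_tw]; exact hx
      have e1 : ∀ u : List (I × Bool), ‖pre D x₀ ψ (c :: u)‖^2 = 1 + (2 * ((starRingEnd ℂ) (ψ x₀) * pre D x₀ (tw ψ (act D c)) u).re +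
          ‖pre D x₀ (tw ψ (act D c)) u‖^2) := by
        intro u
        have : pre D x₀ ψ (c :: u) = ψ x₀ + pre D x₀ (tw ψ (act D c)) u := rfl
        rw [this]
        have h2 : ‖ψ x₀‖ = 1 := cube_norm (char_cube Q.three ψ x₀)
        have h3 := Complex.normSq_add (ψ x₀) (pre D x₀ (tw ψ (act D c)) u)
        rw [Complex.normSq_eq_norm_sq, Complex.normSq_eq_norm_sq, Complex.normSq_eq_norm_sq, h2] at h3
        rw [h3]
        have h4 : (ψ x₀ * (starRingEnd ℂ) (pre D x₀ (tw ψ (act D c)) u)).re =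
            ((starRingEnd ℂ) (ψ x₀) * pre D x₀ (tw ψ (act D c)) u).re := by
          simp [Complex.mul_re]
        rw [h4]
        ring
      simp only [e1]
      rw [Av_add, Av_const, Av_add, Av_mul_left]
      have e2 : Av N (fun u => ((starRingEnd ℂ) (ψ x₀) * pre D x₀ (tw ψ (act D c)) u).re) ≤ 2/(1-x) := by
        rw [← re_Av N (fun u => (starRingEnd ℂ) (ψ x₀) * pre D x₀ (tw ψ (act D c)) u), Av_cmul_left]
        refine (Complex.re_le_norm _).trans ?_
        rw [norm_mul, RCLike.norm_conj, cube_norm (char_cube Q.three ψ x₀), one_mul]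
        exact Q.R_bound x₀ N _ hx0 hx1 hx'
      have e3 := ih (tw ψ (act D c)) hx'
      linarith
    have h2 : ∑ c : I × Bool, Av N (fun u => ‖pre D x₀ ψ (c :: u)‖^2) ≤
        (Fintype.card (I × Bool) : ℝ) * ((1 + 2 * (2/(1-x))) + (N+1) * (1 + 2 * (2/(1-x)))) := by
      refine (Finset.sum_le_sum (fun c _ => h1 c)).trans ?_
      rw [Finset.sum_const, Finset.card_univ, nsmul_eq_mul]
    have hc : (0:ℝ) < (Fintype.card (I × Bool) : ℝ) := by
      have : 0 < Fintype.card (I × Bool) := Fintype.card_pos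
      exact_mod_cast this
    calc (Fintype.card (I × Bool) : ℝ)⁻¹ * ∑ c : I × Bool, Av N (fun u => ‖pre D x₀ ψ (c :: u)‖^2)
        ≤ (Fintype.card (I × Bool) : ℝ)⁻¹ * ((Fintype.card (I × Bool) : ℝ) * ((1 + 2 * (2/(1-x))) + (N+1) * (1 + 2 * (2/(1-x))))) :=
          mul_le_mul_of_nonneg_left h2 (by positivity)
      _ = _ := by
          rw [← mul_assoc, inv_mul_cancel₀ hc.ne']
          push_cast
          ring

end est

section est2
variable {V I : Type} [AddCommGroup V] [Fintype I] {D : I → AddMonoid.End V} (Q : Quad D) (x₀ : V)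

open Classical in
/-- probability that the phase is nontrivial -/
noncomputable def qp (D : I → AddMonoid.End V) (x₀ : V) (p : ℕ) (ψ : AddChar V ℂ) : ℝ :=
  Av p (fun u : List (I × Bool) => if ψ (rho D u x₀) ≠ 1 then (1:ℝ) else 0)

theorem qp_succ (p : ℕ) (ψ : AddChar V ℂ) :
    qp D x₀ (p+1) ψ = ((Fintype.card (I × Bool) : ℝ)⁻¹) * ∑ c : I × Bool, qp D x₀ p (tw ψ (act D c)) := by
  unfold qp
  rw [Av_succ, smul_eq_mul]
  congr 1

theorem qp_nonneg (p : ℕ) (ψ : AddChar V ℂ) : 0 ≤ qp D x₀ p ψ := by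
  classical
  unfold qp
  apply Av_nonneg
  intro u
  split_ifs <;> norm_num

theorem split_avg [DecidableEq I] [Nonempty I] (i : I) (f : I × Bool → ℝ) (a v : ℝ) (h1 : ∀ c, c.1 ≠ i → a ≤ f c)
    (h2 : v ≤ f (i, true) + f (i, false)) :
    (1 - 1/(Fintype.card I : ℝ)) * a + (1/(Fintype.card I : ℝ)) * (v/2) ≤ ((Fintype.card (I × Bool) : ℝ)⁻¹) * ∑ c : I × Bool, f c := by
  have hI : (0:ℝ) < Fintype.card I := by
    have : 0 < Fintype.card I := Fintype.card_pos
    exact_mod_cast this
  have hcard : (Fintype.card (I × Bool) : ℝ) = 2 * (Fintype.card I : ℝ) := by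
    rw [Fintype.card_prod, Fintype.card_bool]; push_cast; ring
  rw [Fintype.sum_prod_type, ← Finset.add_sum_erase _ _ (mem_univ i)]
  have h3 : ((Fintype.card I : ℝ) - 1) * (2*a) ≤ ∑ x ∈ univ.erase i, ∑ y : Bool, f (x, y) := by
    have : ∀ x ∈ (univ : Finset I).erase i, 2*a ≤ ∑ y : Bool, f (x, y) := by
      intro x hx
      have hne : x ≠ i := (mem_erase.1 hx).1
      rw [Fintype.sum_bool]
      linarith [h1 (x, true) hne, h1 (x, false) hne]
    refine le_trans (le_of_eq ?_) (Finset.sum_le_sum this)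
    rw [Finset.sum_const, Finset.card_erase_of_mem (mem_univ i), Finset.card_univ, nsmul_eq_mul,
      Nat.cast_sub Fintype.card_pos]
    push_cast
    ring
  rw [Fintype.sum_bool, hcard]
  have h4 : (1 - 1/(Fintype.card I : ℝ)) * a + (1/(Fintype.card I : ℝ)) * (v/2) =
      (2 * (Fintype.card I : ℝ))⁻¹ * (v + ((Fintype.card I : ℝ) - 1) * (2*a)) := by
    field_simp
    ring
  rw [h4]
  apply mul_le_mul_of_nonneg_left _ (by positivity)
  linarith

include Q

/-- the linear case -/
theorem Quad.qp_lin [Nonempty I] (i : I) (p : ℕ) (ψ : AddChar V ℂ) (hT : ∀ j l, ψ ((D j * D l) x₀) = 1)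
    (hi : ψ (D i x₀) ≠ 1) : (1/2) * (1 - (1 - 1/(Fintype.card I : ℝ))^p) ≤ qp D x₀ p ψ := by
  classical
  induction p generalizing ψ with
  | zero => simpa using qp_nonneg x₀ 0 ψ
  | succ p ih =>
    rw [qp_succ]
    have hprop : ∀ c : I × Bool, (∀ j l, tw ψ (act D c) ((D j * D l) x₀) = 1) ∧ tw ψ (act D c) (D i x₀) ≠ 1 := by
      intro c
      constructor
      · intro j l
        rw [tw_apply]
        have : act D c ((D j * D l) x₀) = (act D c * (D j * D l)) x₀ := rfl
        rw [this, Q.act_DD]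
        exact hT j l
      · rw [tw_apply]
        have : ψ (act D c (D i x₀)) = ψ (D i x₀) := by
          unfold act
          split_ifs
          · have : (1 + D c.1) (D i x₀) = D i x₀ + (D c.1 * D i) x₀ := rfl
            rw [this, AddChar.map_add_eq_mul, hT, mul_one]
          · have : (1 - D c.1) (D i x₀) = D i x₀ - (D c.1 * D i) x₀ := rfl
            rw [this, AddChar.map_sub_eq_div, hT, div_one]
        rw [this]
        exact hi
    have hsp := split_avg i (fun c => qp D x₀ p (tw ψ (act D c))) ((1/2) * (1 - (1 - 1/(Fintype.card I : ℝ))^p)) 1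
      (fun c _ => ih _ (hprop c).1 (hprop c).2) (by
        unfold qp
        rw [← Av_add]
        have : (1:ℝ) = Av p (fun _ : List (I × Bool) => (1:ℝ)) := (Av_const p 1).symm
        rw [this]
        apply Av_mono
        intro u _
        rw [← this]
        have hne : ψ (D i (rho D u x₀)) ≠ 1 := by
          have : ∀ u : List (I × Bool), ψ (D i (rho D u x₀)) = ψ (D i x₀) := by
            intro u
            induction u with
            | nil => rfl
            | cons c u ihu =>
              rw [rho_cons]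
              have e0 : D i ((act D c * rho D u) x₀) = (D i * act D c * rho D u) x₀ := rfl
              rw [e0]
              unfold act
              split_ifs
              · have e1 : (D i * (1 + D c.1) * rho D u) = D i * rho D u + D i * D c.1 * rho D u := by noncomm_ring
                rw [e1, Q.DD_rho]
                have e2 : (D i * rho D u + D i * D c.1) x₀ = D i (rho D u x₀) + (D i * D c.1) x₀ := rfl
                rw [e2, AddChar.map_add_eq_mul, hT, mul_one, ihu]
              · have e1 : (D i * (1 - D c.1) * rho D u) = D i * rho D u - D i * D c.1 * rho D u := by noncomm_ring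
                rw [e1, Q.DD_rho]
                have e2 : (D i * rho D u - D i * D c.1) x₀ = D i (rho D u x₀) - (D i * D c.1) x₀ := rfl
                rw [e2, AddChar.map_sub_eq_div, hT, div_one, ihu]
          rw [this]
          exact hi
        by_cases h1 : tw ψ (act D (i, true)) (rho D u x₀) ≠ 1
        · rw [if_pos h1]
          split_ifs <;> norm_num
        · rw [if_neg h1]
          have h2 : tw ψ (act D (i, false)) (rho D u x₀) ≠ 1 := by
            intro h2
            push Not at h1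
            rw [tw_apply] at h1 h2
            have e1 : act D (i, true) (rho D u x₀) = rho D u x₀ + D i (rho D u x₀) := act_true_apply D i _
            have e2 : act D (i, false) (rho D u x₀) = rho D u x₀ - D i (rho D u x₀) := act_false_apply D i _
            rw [e1, AddChar.map_add_eq_mul] at h1
            rw [e2, AddChar.map_sub_eq_div] at h2
            have hz := char_cube Q.three ψ (D i (rho D u x₀))
            set z := ψ (D i (rho D u x₀)) with hzdef
            have hz0 : z ≠ 0 := by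
              intro h0
              rw [h0] at hz; norm_num at hz
            rw [div_eq_one_iff_eq hz0] at h2
            rw [h2] at h1
            apply hne
            have : z = z^3 := by
              calc z = z * 1 := by ring
                _ = z * (z * z) := by rw [h1]
                _ = z^3 := by ring
            rw [this, hz]
          rw [if_pos h2]
          norm_num)
    refine le_trans (le_of_eq ?_) hsp
    rw [pow_succ]
    ring

/-- at least one of the two signs is good -/
theorem Quad.two_signs (ψ : AddChar V ℂ) (i : I) (y : V) (hne : ψ (D i y) ≠ 1) :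
    tw ψ (act D (i, true)) y ≠ 1 ∨ tw ψ (act D (i, false)) y ≠ 1 := by
  by_contra hcon
  push Not at hcon
  obtain ⟨h1, h2⟩ := hcon
  rw [tw_apply] at h1 h2
  have e1 : act D (i, true) y = y + D i y := act_true_apply D i y
  have e2 : act D (i, false) y = y - D i y := act_false_apply D i y
  rw [e1, AddChar.map_add_eq_mul] at h1
  rw [e2, AddChar.map_sub_eq_div] at h2
  have hz := char_cube Q.three ψ (D i y)
  set z := ψ (D i y) with hzdef
  have hz0 : z ≠ 0 := by
    intro h0
    rw [h0] at hz; norm_num at hz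
  rw [div_eq_one_iff_eq hz0] at h2
  rw [h2] at h1
  apply hne
  have : z = z^3 := by
    calc z = z * 1 := by ring
      _ = z * (z * z) := by rw [h1]
      _ = z^3 := by ring
  rw [this, hz]

/-- the quadratic case -/
theorem Quad.qp_quad [Nonempty I] (i j : I) (p : ℕ) (ψ : AddChar V ℂ) (hij : ψ ((D i * D j) x₀) ≠ 1) :
    (1/4) * (1 - (1 - 1/(Fintype.card I : ℝ))^p - p * (1/(Fintype.card I : ℝ)) * (1 - 1/(Fintype.card I : ℝ))^(p-1)) ≤
      qp D x₀ p ψ := by
  classical
  induction p generalizing ψ with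
  | zero => simpa using qp_nonneg x₀ 0 ψ
  | succ p ih =>
    rw [qp_succ]
    have hprop : ∀ c : I × Bool, tw ψ (act D c) ((D i * D j) x₀) ≠ 1 := by
      intro c
      rw [tw_apply]
      have : act D c ((D i * D j) x₀) = (act D c * (D i * D j)) x₀ := rfl
      rw [this, Q.act_DD]
      exact hij
    have hlin := Q.qp_lin x₀ j p (tw ψ (D i)) (by
        intro l l'
        rw [tw_apply]
        have : D i ((D l * D l') x₀) = (D i * D l * D l') x₀ := rfl
        rw [this, Q.tri]
        exact AddChar.map_zero_eq_one ψ) hij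
    have hsp := split_avg i (fun c => qp D x₀ p (tw ψ (act D c)))
      ((1/4) * (1 - (1 - 1/(Fintype.card I : ℝ))^p - p * (1/(Fintype.card I : ℝ)) * (1 - 1/(Fintype.card I : ℝ))^(p-1)))
      ((1/2) * (1 - (1 - 1/(Fintype.card I : ℝ))^p))
      (fun c _ => ih _ (hprop c)) (by
        refine hlin.trans ?_
        unfold qp
        rw [← Av_add]
        apply Av_mono
        intro u _
        by_cases h0 : ψ (D i (rho D u x₀)) ≠ 1
        · have h0' : tw ψ (D i) (rho D u x₀) ≠ 1 := h0
          rw [if_pos h0']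
          rcases Q.two_signs ψ i (rho D u x₀) h0 with h | h
          · rw [if_pos h]
            split_ifs <;> norm_num
          · rw [if_pos h]
            split_ifs <;> norm_num
        · have h0' : ¬ (tw ψ (D i) (rho D u x₀) ≠ 1) := h0
          rw [if_neg h0']
          split_ifs <;> norm_num)
    refine le_trans (le_of_eq ?_) hsp
    rcases Nat.eq_zero_or_pos p with hp | hp
    · subst hp
      simp
    · obtain ⟨r, rfl⟩ : ∃ r, p = r + 1 := ⟨p - 1, by omega⟩
      rw [Nat.add_sub_cancel, Nat.add_sub_cancel]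
      push_cast
      ring

/-- nontrivial characters -/
def Nontriv (D : I → AddMonoid.End V) (x₀ : V) (ψ : AddChar V ℂ) : Prop :=
  (∃ i j, ψ ((D i * D j) x₀) ≠ 1) ∨ (∃ i, ψ (D i x₀) ≠ 1) ∨ ψ x₀ ≠ 1

theorem Quad.qp_bound [Nonempty I] (p : ℕ) (ψ : AddChar V ℂ) (hψ : Nontriv D x₀ ψ) :
    (1/4) * (1 - (1 - 1/(Fintype.card I : ℝ))^p - p * (1/(Fintype.card I : ℝ)) * (1 - 1/(Fintype.card I : ℝ))^(p-1)) ≤
      qp D x₀ p ψ := by
  classical
  have hI : (1:ℝ) ≤ Fintype.card I := by
    have : 0 < Fintype.card I := Fintype.card_pos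
    exact_mod_cast this
  have hy0 : 0 ≤ 1 - 1/(Fintype.card I : ℝ) := by
    rw [sub_nonneg, div_le_one (by linarith)]
    exact hI
  have hy1 : 1 - 1/(Fintype.card I : ℝ) ≤ 1 := by
    have : 0 ≤ 1/(Fintype.card I : ℝ) := by positivity
    linarith
  have hyp : 0 ≤ (1 - 1/(Fintype.card I : ℝ))^p := pow_nonneg hy0 p
  have hyp1 : (1 - 1/(Fintype.card I : ℝ))^p ≤ 1 := pow_le_one₀ hy0 hy1
  have hterm : 0 ≤ p * (1/(Fintype.card I : ℝ)) * (1 - 1/(Fintype.card I : ℝ))^(p-1) := by
    have := pow_nonneg hy0 (p-1)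
    positivity
  by_cases h1 : ∃ i j, ψ ((D i * D j) x₀) ≠ 1
  · obtain ⟨i, j, hij⟩ := h1
    exact Q.qp_quad x₀ i j p ψ hij
  · push Not at h1
    by_cases h2 : ∃ i, ψ (D i x₀) ≠ 1
    · obtain ⟨i, hi⟩ := h2
      have := Q.qp_lin x₀ i p ψ h1 hi
      linarith
    · push Not at h2
      have h3 : ψ x₀ ≠ 1 := by
        rcases hψ with ⟨i, j, h⟩ | ⟨i, h⟩ | h
        · exact absurd (h1 i j) h
        · exact absurd (h2 i) h
        · exact h
      have h4 : ∀ u : List (I × Bool), ψ (rho D u x₀) = ψ x₀ := by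
        intro u
        have h5 : ∀ (u : List (I × Bool)) (f : AddMonoid.End V), (∀ i j, ψ ((f * (D i * D j)) x₀) = 1) →
            (∀ i, ψ ((f * D i) x₀) = 1) → ψ ((f * rho D u) x₀) = ψ (f x₀) := by
          intro u
          induction u with
          | nil => intro f _ _; rfl
          | cons c u ih =>
            intro f hf1 hf2
            rw [rho_cons, ← mul_assoc, ih]
            · unfold act
              split_ifs
              · have : (f * (1 + D c.1)) x₀ = f x₀ + (f * D c.1) x₀ := by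
                  have e : f * (1 + D c.1) = f + f * D c.1 := by noncomm_ring
                  rw [e]; rfl
                rw [this, AddChar.map_add_eq_mul, hf2, mul_one]
              · have : (f * (1 - D c.1)) x₀ = f x₀ - (f * D c.1) x₀ := by
                  have e : f * (1 - D c.1) = f - f * D c.1 := by noncomm_ring
                  rw [e]; rfl
                rw [this, AddChar.map_sub_eq_div, hf2, div_one]
            · intro i j
              rw [mul_assoc, Q.act_DD]
              exact hf1 i j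
            · intro i
              unfold act
              split_ifs
              · have e : f * (1 + D c.1) * D i = f * D i + f * (D c.1 * D i) := by noncomm_ring
                rw [e]
                have : (f * D i + f * (D c.1 * D i)) x₀ = (f * D i) x₀ + (f * (D c.1 * D i)) x₀ := rfl
                rw [this, AddChar.map_add_eq_mul, hf1, hf2, mul_one]
              · have e : f * (1 - D c.1) * D i = f * D i - f * (D c.1 * D i) := by noncomm_ring
                rw [e]
                have : (f * D i - f * (D c.1 * D i)) x₀ = (f * D i) x₀ - (f * (D c.1 * D i)) x₀ := rfl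
                rw [this, AddChar.map_sub_eq_div, hf1, hf2, div_one]
        have := h5 u 1 (by intro i j; rw [one_mul]; exact h1 i j) (by intro i; rw [one_mul]; exact h2 i)
        rw [one_mul] at this
        exact this
      have h6 : qp D x₀ p ψ = 1 := by
        unfold qp
        have : (fun u : List (I × Bool) => if ψ (rho D u x₀) ≠ 1 then (1:ℝ) else 0) = fun _ => 1 := by
          funext u
          rw [h4, if_pos h3]
        rw [this, Av_const]
      rw [h6]
      linarith

theorem Quad.Nontriv_tw (ψ : AddChar V ℂ) (c : I × Bool) (hψ : Nontriv D x₀ ψ) : Nontriv D x₀ (tw ψ (act D c)) := by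
  by_cases h1 : ∃ i j, ψ ((D i * D j) x₀) ≠ 1
  · obtain ⟨i, j, hij⟩ := h1
    left
    refine ⟨i, j, ?_⟩
    rw [tw_apply]
    have : act D c ((D i * D j) x₀) = (act D c * (D i * D j)) x₀ := rfl
    rw [this, Q.act_DD]
    exact hij
  · push Not at h1
    have hlin : ∀ i, tw ψ (act D c) (D i x₀) = ψ (D i x₀) := by
      intro i
      rw [tw_apply]
      unfold act
      split_ifs
      · have : (1 + D c.1) (D i x₀) = D i x₀ + (D c.1 * D i) x₀ := rfl
        rw [this, AddChar.map_add_eq_mul, h1, mul_one]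
      · have : (1 - D c.1) (D i x₀) = D i x₀ - (D c.1 * D i) x₀ := rfl
        rw [this, AddChar.map_sub_eq_div, h1, div_one]
    by_cases h2 : ∃ i, ψ (D i x₀) ≠ 1
    · obtain ⟨i, hi⟩ := h2
      right; left
      exact ⟨i, by rw [hlin]; exact hi⟩
    · push Not at h2
      right; right
      have h3 : ψ x₀ ≠ 1 := by
        rcases hψ with ⟨i, j, h⟩ | ⟨i, h⟩ | h
        · exact absurd (h1 i j) h
        · exact absurd (h2 i) h
        · exact h
      rw [tw_apply]
      unfold act
      split_ifs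
      · have : (1 + D c.1) x₀ = x₀ + D c.1 x₀ := rfl
        rw [this, AddChar.map_add_eq_mul, h2, mul_one]
        exact h3
      · have : (1 - D c.1) x₀ = x₀ - D c.1 x₀ := rfl
        rw [this, AddChar.map_sub_eq_div, h2, div_one]
        exact h3

end est2

section wb
variable {V I : Type} [AddCommGroup V] [Fintype I] {D : I → AddMonoid.End V} (Q : Quad D) (x₀ : V)

open Classical in
/-- number of beginnings of a word with nontrivial phase -/
noncomputable def nz (D : I → AddMonoid.End V) (x₀ : V) : AddChar V ℂ → List (I × Bool) → ℝ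
  | ψ, [] => if ψ x₀ ≠ 1 then 1 else 0
  | ψ, c :: u => (if ψ x₀ ≠ 1 then 1 else 0) + nz D x₀ (tw ψ (act D c)) u

theorem Av_nz [Nonempty I] (N : ℕ) (ψ : AddChar V ℂ) :
    Av N (nz D x₀ ψ) = ∑ p ∈ Finset.range (N+1), qp D x₀ p ψ := by
  classical
  induction N generalizing ψ with
  | zero =>
    rw [Av_zero, zero_add, Finset.sum_range_one]
    rfl
  | succ N ih =>
    rw [Av_succ, Finset.sum_range_succ']
    have h1 : ∀ c : I × Bool, Av N (fun u => nz D x₀ ψ (c :: u)) = (if ψ x₀ ≠ 1 then (1:ℝ) else 0) +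
        ∑ p ∈ Finset.range (N+1), qp D x₀ p (tw ψ (act D c)) := by
      intro c
      have : (fun u => nz D x₀ ψ (c :: u)) = (fun u => (if ψ x₀ ≠ 1 then (1:ℝ) else 0) + nz D x₀ (tw ψ (act D c)) u) := by
        funext u
        rw [nz]
      rw [this, Av_add, Av_const, ih]
    rw [Finset.sum_congr rfl (fun c _ => h1 c), Finset.sum_add_distrib, smul_add, add_comm]
    congr 1
    · rw [Finset.sum_comm, Finset.smul_sum]
      apply Finset.sum_congr rfl
      intro p _
      rw [qp_succ, smul_eq_mul]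
    · rw [Finset.sum_const, Finset.card_univ, ← Nat.cast_smul_eq_nsmul ℝ, smul_smul, inv_mul_cancel₀, one_smul]
      · unfold qp
        rw [Av_zero]
        rfl
      · have : 0 < Fintype.card (I × Bool) := Fintype.card_pos
        positivity

include Q

theorem Quad.re_pre (ψ : AddChar V ℂ) (u : List (I × Bool)) :
    (pre D x₀ ψ u).re = (u.length + 1 : ℝ) - (3/2) * nz D x₀ ψ u := by
  classical
  induction u generalizing ψ with
  | nil =>
    unfold pre nz
    by_cases h : ψ x₀ = 1
    · simp [h]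
    · rw [re_cube (char_cube Q.three ψ x₀) h, if_pos h]
      norm_num
  | cons c u ih =>
    unfold pre nz
    rw [Complex.add_re, ih]
    by_cases h : ψ x₀ = 1
    · simp [h]; ring
    · rw [re_cube (char_cube Q.three ψ x₀) h, if_pos h]
      push_cast [List.length_cons]
      ring

omit Q in
theorem nz_bounds (ψ : AddChar V ℂ) (u : List (I × Bool)) : 0 ≤ nz D x₀ ψ u ∧ nz D x₀ ψ u ≤ u.length + 1 := by
  classical
  induction u generalizing ψ with
  | nil =>
    unfold nz
    split_ifs <;> norm_num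
  | cons c u ih =>
    unfold nz
    obtain ⟨h1, h2⟩ := ih (tw ψ (act D c))
    push_cast [List.length_cons]
    split_ifs <;> constructor <;> linarith

/-- one window, all nontrivial characters -/
theorem Quad.phiB [Nonempty I] (ψ : AddChar V ℂ) (hψ : Nontriv D x₀ ψ) (d : ℕ) (hd : 2 ≤ d) (hI : Fintype.card I = d - 1) :
    Av (2*d-1) (fun b => ((pre D x₀ ψ b).re / (2*d))^2) ≤ 1 - 3/160 := by
  have hd1 : (2:ℝ) ≤ d := by exact_mod_cast hd
  have hcI : (Fintype.card I : ℝ) = (d:ℝ) - 1 := by
    rw [hI, Nat.cast_sub (by omega)]; norm_num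
  have h1 : Av (2*d-1) (fun b => ((pre D x₀ ψ b).re / (2*d))^2) ≤
      Av (2*d-1) (fun b => 1 + (-(3/(4*(2*d)))) * nz D x₀ ψ b) := by
    apply Av_mono
    intro b hb
    rw [Q.re_pre, hb]
    have e1 : (((2*d-1 : ℕ) : ℝ) + 1) = 2*d := by
      rw [Nat.cast_sub (by omega)]; push_cast; ring
    rw [e1]
    obtain ⟨h2, h3⟩ := nz_bounds (D := D) x₀ ψ b
    rw [hb, e1] at h3
    set n := nz D x₀ ψ b
    have h4 : (2*(d:ℝ) - 3/2*n)/(2*d) = 1 - (3/2) * (n/(2*d)) := by
      field_simp
    rw [h4]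
    have h5 : 1 + -(3/(4*(2*(d:ℝ)))) * n = 1 - (3/4) * (n/(2*d)) := by
      field_simp
      ring
    rw [h5]
    have h6 : 0 ≤ n/(2*d) := by positivity
    have h7 : n/(2*d) ≤ 1 := by
      rw [div_le_one (by positivity)]; exact h3
    nlinarith
  refine h1.trans ?_
  rw [Av_add, Av_const, Av_mul_left, Av_nz]
  have h2 : (d:ℝ)/20 ≤ ∑ p ∈ Finset.range (2*d-1+1), qp D x₀ p ψ := by
    have e1 : ∑ p ∈ Finset.Ico d (2*d), qp D x₀ p ψ ≤ ∑ p ∈ Finset.range (2*d-1+1), qp D x₀ p ψ := by
      apply Finset.sum_le_sum_of_subset_of_nonneg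
      · intro i hi
        rw [Finset.mem_Ico] at hi
        rw [Finset.mem_range]
        omega
      · intro i _ _
        exact qp_nonneg x₀ i ψ
    refine le_trans ?_ e1
    have e2 : ∀ p ∈ Finset.Ico d (2*d), (1:ℝ)/20 ≤ qp D x₀ p ψ := by
      intro p hp
      rw [Finset.mem_Ico] at hp
      refine le_trans ?_ (Q.qp_bound x₀ p ψ hψ)
      rw [hcI]
      have hpd : (d:ℝ) ≤ p := by exact_mod_cast hp.1
      set w : ℝ := 1/((d:ℝ)-1) with hw
      have hdp : (0:ℝ) < (d:ℝ) - 1 := by linarith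
      have hw0 : 0 < w := by positivity
      have hw1 : w ≤ 1 := by
        rw [hw, div_le_one hdp]; linarith
      obtain ⟨r, rfl⟩ : ∃ r, p = r + 1 := ⟨p - 1, by omega⟩
      rw [Nat.add_sub_cancel]
      have h3 : (1 - w)^(r+1) + ((r+1 : ℕ) : ℝ) * w * (1-w)^r = (1-w)^r * (1 + r * w) := by
        push_cast; ring
      have h4 : (1-w)^r ≤ Real.exp (-(r*w)) := by
        have : 1 - w ≤ Real.exp (-w) := by
          have := Real.add_one_le_exp (-w); linarith
        calc (1-w)^r ≤ (Real.exp (-w))^r := pow_le_pow_left₀ (by linarith) this r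
          _ = Real.exp (-(r*w)) := by rw [← Real.exp_nat_mul]; congr 1; ring
      have hz : 1 ≤ r * w := by
        push_cast at hpd
        rw [hw, mul_one_div, le_div_iff₀ hdp]
        linarith
      set z : ℝ := r * w with hzd
      have h5 : 1 + z ≤ 2 * Real.exp (z-1) := by
        have := Real.add_one_le_exp (z-1); linarith
      have h6 : Real.exp (-z) * (1+z) ≤ 4/5 := by
        calc Real.exp (-z) * (1+z) ≤ Real.exp (-z) * (2 * Real.exp (z-1)) :=
              mul_le_mul_of_nonneg_left h5 (Real.exp_nonneg _)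
          _ = 2 * (Real.exp (-z) * Real.exp (z-1)) := by ring
          _ = 2 * Real.exp (-1) := by rw [← Real.exp_add]; congr 2; ring
          _ ≤ 4/5 := by
            rw [Real.exp_neg]
            have := Real.exp_one_gt_d9
            have h7 : (Real.exp 1)⁻¹ ≤ (2.5:ℝ)⁻¹ := by
              apply inv_anti₀ (by norm_num); linarith
            have h8 : (2.5:ℝ)⁻¹ = 2/5 := by norm_num
            linarith
      have h9 : (1-w)^r * (1 + z) ≤ Real.exp (-z) * (1+z) := by
        apply mul_le_mul_of_nonneg_right h4; linarith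
      linarith
    calc (d:ℝ)/20 = ∑ p ∈ Finset.Ico d (2*d), (1:ℝ)/20 := by
          rw [Finset.sum_const, Nat.card_Ico, nsmul_eq_mul, show 2*d-d = d by omega]; ring
      _ ≤ _ := Finset.sum_le_sum e2
  have h3 : (3/(4*(2*(d:ℝ)))) * ((d:ℝ)/20) = 3/160 := by
    field_simp; norm_num
  have h4 : 0 ≤ 3/(4*(2*(d:ℝ))) := by positivity
  have h5 := mul_le_mul_of_nonneg_left h2 h4
  linarith

/-- one window, characters with many nontrivial second differences -/
theorem Quad.phiA [Nonempty I] (ψ : AddChar V ℂ) (d : ℕ) (hd : 2 ≤ d) (hI : Fintype.card I = d - 1) (T₀ : ℝ)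
    (hT0 : 0 < T₀) (hT0' : T₀ ≤ (d:ℝ)^2) (hT : T₀ ≤ Tn D x₀ ψ) :
    Av (2*d-1) (fun b => ((pre D x₀ ψ b).re / (2*d))^2) ≤ (1 + 8 * (d:ℝ)^2/T₀)/(2*d) := by
  have hd1 : (2:ℝ) ≤ d := by exact_mod_cast hd
  have hcI : (Fintype.card I : ℝ) = (d:ℝ) - 1 := by
    rw [hI, Nat.cast_sub (by omega)]; norm_num
  set x : ℝ := 1 - T₀/(2*(d:ℝ)^2) with hx
  have hx0 : 0 ≤ x := by
    rw [hx, sub_nonneg, div_le_one (by positivity)]; nlinarith
  have hx1 : x < 1 := by
    have : 0 < T₀/(2*(d:ℝ)^2) := by positivity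
    linarith
  have hx2 : 1 - (Tn D x₀ ψ : ℝ) / (2 * (Fintype.card I : ℝ)^2) ≤ x := by
    rw [hx, hcI]
    have h1 : T₀/(2*(d:ℝ)^2) ≤ (Tn D x₀ ψ : ℝ) / (2 * ((d:ℝ)-1)^2) := by
      apply div_le_div₀ (by positivity) hT (by nlinarith) (by nlinarith)
    linarith
  have h1 := Q.Q_bound x₀ (2*d-1) ψ hx0 hx1 hx2
  have e1 : (((2*d-1 : ℕ) : ℝ) + 1) = 2*d := by
    rw [Nat.cast_sub (by omega)]; push_cast; ring
  rw [e1] at h1
  have h2 : Av (2*d-1) (fun b => ((pre D x₀ ψ b).re / (2*d))^2) ≤
      Av (2*d-1) (fun b => (1/(2*(d:ℝ))^2) * ‖pre D x₀ ψ b‖^2) := by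
    apply Av_mono
    intro b _
    rw [div_pow, one_div, ← div_eq_inv_mul]
    apply div_le_div_of_nonneg_right _ (by positivity)
    have := Complex.abs_re_le_norm (pre D x₀ ψ b)
    calc (pre D x₀ ψ b).re^2 = |(pre D x₀ ψ b).re|^2 := by rw [sq_abs]
      _ ≤ ‖pre D x₀ ψ b‖^2 := pow_le_pow_left₀ (abs_nonneg _) this 2
  refine h2.trans ?_
  rw [Av_mul_left]
  calc (1/(2*(d:ℝ))^2) * Av (2*d-1) (fun b => ‖pre D x₀ ψ b‖^2)
      ≤ (1/(2*(d:ℝ))^2) * (2*d * (1 + 2 * (2/(1-x)))) := mul_le_mul_of_nonneg_left h1 (by positivity)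
    _ = (1 + 8 * (d:ℝ)^2/T₀)/(2*d) := by
      have : 1 - x = T₀/(2*(d:ℝ)^2) := by rw [hx]; ring
      rw [this]
      field_simp
      ring

end wb

section letters
variable {V I : Type} [AddCommGroup V]

/-- action of a letter; the letter `none` acts trivially -/
def actO (D : I → AddMonoid.End V) : Option I × Bool → AddMonoid.End V
  | (none, _) => 1
  | (some i, e) => act D (i, e)

def sg (x₀ : V) (e : Bool) : V := if e then x₀ else -x₀

def vO (x₀ : V) : Option I × Bool → V
  | (none, e) => sg x₀ e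
  | (some _, _) => 0

def kap (D : I → AddMonoid.End V) (x₀ : V) : List (Option I × Bool) → V
  | [] => 0
  | c :: u => vO x₀ c + actO D c (kap D x₀ u)

def strip : List (Option I × Bool) → List (I × Bool)
  | [] => []
  | (none, _) :: u => strip u
  | (some i, e) :: u => (i, e) :: strip u

def nsp : List (Option I × Bool) → ℕ
  | [] => 0
  | (none, _) :: u => nsp u + 1
  | (some _, _) :: u => nsp u

def emb (b : List (I × Bool)) : List (Option I × Bool) := b.map (fun c => (some c.1, c.2))

def ins : ℕ → Bool → List (I × Bool) → List (Option I × Bool)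
  | 0, e, b => (none, e) :: emb b
  | _+1, e, [] => [(none, e)]
  | p+1, e, c :: b => (some c.1, c.2) :: ins p e b

theorem strip_emb (b : List (I × Bool)) : strip (emb b) = b := by
  induction b with
  | nil => rfl
  | cons c b ih =>
    have : emb (c :: b) = (some c.1, c.2) :: emb b := rfl
    rw [this, strip, ih]

theorem nsp_emb (b : List (I × Bool)) : nsp (emb b) = 0 := by
  induction b with
  | nil => rfl
  | cons c b ih =>
    have : emb (c :: b) = (some c.1, c.2) :: emb b := rfl
    rw [this, nsp, ih]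

theorem kap_emb (D : I → AddMonoid.End V) (x₀ : V) (b : List (I × Bool)) : kap D x₀ (emb b) = 0 := by
  induction b with
  | nil => rfl
  | cons c b ih =>
    have : emb (c :: b) = (some c.1, c.2) :: emb b := rfl
    rw [this, kap, ih, map_zero, add_zero]
    rfl

theorem strip_ins (p : ℕ) (e : Bool) (b : List (I × Bool)) : strip (ins p e b) = b := by
  induction p generalizing b with
  | zero => rw [ins, strip, strip_emb]
  | succ p ih =>
    cases b with
    | nil => rfl
    | cons c b => rw [ins, strip, ih]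

theorem nsp_ins (p : ℕ) (e : Bool) (b : List (I × Bool)) : nsp (ins p e b) = 1 := by
  induction p generalizing b with
  | zero => rw [ins, nsp, nsp_emb]
  | succ p ih =>
    cases b with
    | nil => rfl
    | cons c b => rw [ins, nsp, ih]

theorem kap_ins (D : I → AddMonoid.End V) (x₀ : V) (p : ℕ) (e : Bool) (b : List (I × Bool)) :
    kap D x₀ (ins p e b) = rho D (b.take p) (sg x₀ e) := by
  induction p generalizing b with
  | zero =>
    rw [ins, kap, kap_emb, map_zero, add_zero, List.take_zero]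
    rfl
  | succ p ih =>
    cases b with
    | nil =>
      rw [ins, kap, List.take_nil]
      show vO x₀ (none, e) + actO D (none, e) 0 = _
      rw [map_zero, add_zero]
      rfl
    | cons c b =>
      rw [ins, kap, ih, List.take_succ_cons, rho_cons]
      show 0 + act D (c.1, c.2) (rho D (b.take p) (sg x₀ e)) = _
      rw [zero_add]
      rfl

theorem strip_append (u w : List (Option I × Bool)) : strip (u ++ w) = strip u ++ strip w := by
  induction u with
  | nil => rfl
  | cons c u ih =>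
    rcases c with ⟨_ | i, e⟩
    · rw [List.cons_append, strip, strip, ih]
    · rw [List.cons_append, strip, strip, ih]; rfl

theorem kap_append (D : I → AddMonoid.End V) (x₀ : V) (u w : List (Option I × Bool)) :
    kap D x₀ (u ++ w) = kap D x₀ u + rho D (strip u) (kap D x₀ w) := by
  induction u with
  | nil =>
    rw [List.nil_append, kap, strip, rho_nil, zero_add]; rfl
  | cons c u ih =>
    rw [List.cons_append, kap, kap, ih, map_add, add_assoc]
    congr 2
    rcases c with ⟨_ | i, e⟩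
    · rw [strip]; rfl
    · rw [strip, rho_cons]; rfl

theorem length_strip (u : List (Option I × Bool)) : (strip u).length + nsp u = u.length := by
  induction u with
  | nil => rfl
  | cons c u ih =>
    rcases c with ⟨_ | i, e⟩
    · rw [strip, nsp, List.length_cons, ← ih]; ring
    · rw [strip, nsp, List.length_cons, List.length_cons, ← ih]; ring

end letters

section sums
variable {A E : Type*} [Fintype A] [AddCommMonoid E] [Module ℝ E]

/-- sum over all words -/
def Sm {A E : Type*} [Fintype A] [AddCommMonoid E] : ℕ → (List A → E) → E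
  | 0, F => F []
  | n+1, F => ∑ c : A, Sm n (fun u => F (c :: u))

theorem Sm_succ {A E : Type*} [Fintype A] [AddCommMonoid E] (n : ℕ) (F : List A → E) :
    Sm (n+1) F = ∑ c : A, Sm n (fun u => F (c :: u)) := rfl

theorem Av_eq_Sm (n : ℕ) (F : List A → E) : Av n F = (((Fintype.card A : ℝ)⁻¹)^n) • Sm n F := by
  induction n generalizing F with
  | zero => rw [pow_zero, one_smul]; rfl
  | succ n ih =>
    rw [Av_succ, Sm_succ, pow_succ', mul_smul]
    congr 1
    rw [Finset.smul_sum]
    apply Finset.sum_congr rfl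
    intro c _
    rw [ih]

theorem Sm_congr {A E : Type*} [Fintype A] [AddCommMonoid E] (n : ℕ) {F G : List A → E}
    (h : ∀ u : List A, u.length = n → F u = G u) : Sm n F = Sm n G := by
  induction n generalizing F G with
  | zero => exact h [] rfl
  | succ n ih =>
    rw [Sm_succ, Sm_succ]
    apply Finset.sum_congr rfl
    intro c _
    exact ih (fun u hu => h (c :: u) (by simp [hu]))

theorem Sm_zero' {A E : Type*} [Fintype A] [AddCommMonoid E] (n : ℕ) : Sm n (fun _ : List A => (0 : E)) = 0 := by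
  induction n with
  | zero => rfl
  | succ n ih => rw [Sm_succ, Finset.sum_congr rfl (fun c _ => ih), Finset.sum_const_zero]

theorem Sm_smul (n : ℕ) (r : ℝ) (F : List A → E) : Sm n (fun u => r • F u) = r • Sm n F := by
  induction n generalizing F with
  | zero => rfl
  | succ n ih =>
    rw [Sm_succ, Sm_succ, Finset.smul_sum]
    apply Finset.sum_congr rfl
    intro c _
    exact ih _

theorem Sm_sum {A E : Type*} [Fintype A] [AddCommMonoid E] {ι : Type*} (s : Finset ι) (n : ℕ) (F : ι → List A → E) :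
    Sm n (fun u => ∑ i ∈ s, F i u) = ∑ i ∈ s, Sm n (F i) := by
  induction n generalizing F with
  | zero => rfl
  | succ n ih =>
    simp only [Sm_succ]
    rw [Finset.sum_comm]
    apply Finset.sum_congr rfl
    intro c _
    exact ih _

end sums

section sums2
variable {I E : Type*} [Fintype I] [AddCommMonoid E]

theorem sum_letters (F : Option I × Bool → E) :
    ∑ c : Option I × Bool, F c = (F (none, true) + F (none, false)) + ∑ c : I × Bool, F (some c.1, c.2) := by
  rw [Fintype.sum_prod_type, Fintype.sum_option, Fintype.sum_bool]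
  congr 1
  rw [Fintype.sum_prod_type]

end sums2

section sums3
variable {I : Type} {E : Type*} [Fintype I] [AddCommMonoid E]

theorem Sm_none (n : ℕ) (F : List (Option I × Bool) → E) :
    Sm n (fun u => if nsp u = 0 then F u else 0) = Sm n (fun b => F (emb b)) := by
  induction n generalizing F with
  | zero => simp only [Sm]; rfl
  | succ n ih =>
    rw [Sm_succ, Sm_succ, sum_letters]
    have h0 : ∀ e : Bool, Sm n (fun u => if nsp ((none, e) :: u) = 0 then F ((none, e) :: u) else 0) = 0 := by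
      intro e
      refine (Sm_congr n (G := fun _ => (0 : E)) ?_).trans (Sm_zero' n)
      intro u _
      rw [nsp, if_neg (by omega)]
    rw [h0, h0, add_zero, zero_add]
    apply Finset.sum_congr rfl
    intro c _
    have := ih (fun u => F ((some c.1, c.2) :: u))
    rw [show (fun b => F (emb (c :: b))) = (fun b => F ((some c.1, c.2) :: emb b)) from rfl, ← this]
    apply Sm_congr
    intro u _
    rw [nsp]

theorem Sm_one (n : ℕ) (F : List (Option I × Bool) → E) :
    Sm (n+1) (fun u => if nsp u = 1 then F u else 0) =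
      ∑ p ∈ Finset.range (n+1), (Sm n (fun b => F (ins p true b)) + Sm n (fun b => F (ins p false b))) := by
  induction n generalizing F with
  | zero =>
    rw [Sm_succ, sum_letters, zero_add, Finset.sum_range_one]
    simp only [Sm]
    rw [Finset.sum_eq_zero (f := fun c : I × Bool => if nsp [((some c.1, c.2) : Option I × Bool)] = 1 then F [(some c.1, c.2)] else 0)]
    · rw [add_zero]; rfl
    · intro c _
      rw [nsp, nsp, if_neg (by omega)]
  | succ n ih =>
    rw [Sm_succ, sum_letters, Finset.sum_range_succ']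
    have h0 : ∀ e : Bool, Sm (n+1) (fun u => if nsp ((none, e) :: u) = 1 then F ((none, e) :: u) else 0) =
        Sm (n+1) (fun b => F (ins 0 e b)) := by
      intro e
      have := Sm_none (n+1) (fun u => F ((none, e) :: u))
      rw [show (fun b => F (ins 0 e b)) = (fun b : List (I × Bool) => F ((none, e) :: emb b)) from rfl, ← this]
      apply Sm_congr
      intro u _
      rw [nsp]
      by_cases h : nsp u = 0
      · rw [if_pos h, if_pos (by omega)]
      · rw [if_neg h, if_neg (by omega)]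
    rw [h0, h0, add_comm]
    congr 1
    have h1 : ∀ c : I × Bool, Sm (n+1) (fun u => if nsp ((some c.1, c.2) :: u) = 1 then F ((some c.1, c.2) :: u) else 0) =
        ∑ p ∈ Finset.range (n+1), (Sm n (fun b => F (ins (p+1) true (c :: b))) + Sm n (fun b => F (ins (p+1) false (c :: b)))) := by
      intro c
      have := ih (fun u => F ((some c.1, c.2) :: u))
      rw [show (fun u => if nsp ((some c.1, c.2) :: u) = 1 then F ((some c.1, c.2) :: u) else 0) =
        (fun u => if nsp u = 1 then F ((some c.1, c.2) :: u) else 0) from by funext u; rw [nsp]]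
      rw [this]
      rfl
    rw [Finset.sum_congr rfl (fun c _ => h1 c), Finset.sum_comm]
    apply Finset.sum_congr rfl
    intro p _
    rw [Sm_succ, Sm_succ, Finset.sum_add_distrib]

end sums3

section resample
variable {I : Type} {N : ℕ}

/-- resampling the place of the single special letter -/
def res (u : List (Option I × Bool)) (c : Fin (N+1) × Bool) : List (Option I × Bool) :=
  if nsp u = 1 then ins c.1.val c.2 (strip u) else u

theorem strip_res (u : List (Option I × Bool)) (c : Fin (N+1) × Bool) : strip (res u c) = strip u := by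
  unfold res
  split_ifs
  · rw [strip_ins]
  · rfl

variable [Fintype I] {E : Type*} [AddCommMonoid E] [Module ℝ E]

theorem card_choice (N : ℕ) : (Fintype.card (Fin (N+1) × Bool) : ℝ) = 2 * (N+1) := by
  rw [Fintype.card_prod, Fintype.card_fin, Fintype.card_bool]; push_cast; ring

theorem sum_choice {E : Type*} [AddCommMonoid E] (N : ℕ) (F : ℕ → Bool → E) :
    ∑ c : Fin (N+1) × Bool, F c.1.val c.2 = ∑ p ∈ Finset.range (N+1), (F p true + F p false) := by
  rw [Fintype.sum_prod_type]
  simp only [Fintype.sum_bool]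
  rw [← Fin.sum_univ_eq_sum_range (fun p => F p true + F p false) (N+1)]

theorem res_avg (G : List (Option I × Bool) → E) :
    Av (N+1) G = Av (N+1) (fun u => ((Fintype.card (Fin (N+1) × Bool) : ℝ)⁻¹) • ∑ c : Fin (N+1) × Bool, G (res u c)) := by
  have hc : (Fintype.card (Fin (N+1) × Bool) : ℝ) ≠ 0 := by
    have : 0 < Fintype.card (Fin (N+1) × Bool) := Fintype.card_pos
    positivity
  have h1 : ∀ u, G u = (if nsp u = 1 then G u else 0) + (if nsp u = 1 then 0 else G u) := by
    intro u
    split_ifs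
    · rw [add_zero]
    · rw [zero_add]
  have h2 : ∀ u, ((Fintype.card (Fin (N+1) × Bool) : ℝ)⁻¹) • ∑ c : Fin (N+1) × Bool, G (res u c) =
      (if nsp u = 1 then (fun u' => ((Fintype.card (Fin (N+1) × Bool) : ℝ)⁻¹) • ∑ c : Fin (N+1) × Bool,
        G (ins c.1.val c.2 (strip u'))) u else 0) + (if nsp u = 1 then 0 else G u) := by
    intro u
    unfold res
    by_cases h : nsp u = 1
    · simp only [if_pos h, add_zero]
    · simp only [if_neg h, zero_add]
      rw [Finset.sum_const, Finset.card_univ, ← Nat.cast_smul_eq_nsmul ℝ, smul_smul, inv_mul_cancel₀ hc, one_smul]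
  rw [Av_congr (N+1) (fun u _ => h1 u), Av_congr (N+1) (fun u _ => h2 u), Av_add, Av_add]
  congr 1
  rw [Av_eq_Sm, Av_eq_Sm]
  congr 1
  rw [Sm_one, Sm_one]
  have h3 : ∀ p : ℕ, ∀ e : Bool, Sm N (fun b : List (I × Bool) => (fun u' => ((Fintype.card (Fin (N+1) × Bool) : ℝ)⁻¹) • ∑ c : Fin (N+1) × Bool,
        G (ins c.1.val c.2 (strip u'))) (ins p e b)) =
      ((Fintype.card (Fin (N+1) × Bool) : ℝ)⁻¹) • ∑ c : Fin (N+1) × Bool, Sm N (fun b => G (ins c.1.val c.2 b)) := by
    intro p e
    rw [← Sm_sum, ← Sm_smul]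
    apply Sm_congr
    intro b _
    simp only [strip_ins]
  simp only [h3]
  rw [Finset.sum_const, Finset.card_range, sum_choice N (fun p e => Sm N (fun b => G (ins p e b)))]
  rw [← two_nsmul, smul_smul, ← Nat.cast_smul_eq_nsmul ℝ, smul_smul, card_choice]
  have : ((((N+1) * 2 : ℕ) : ℝ) * (2 * ((N:ℝ)+1))⁻¹) = 1 := by
    push_cast
    field_simp
  rw [this, one_smul]

/-- the probability of exactly one special letter in a window -/
noncomputable def qq (n N : ℕ) : ℝ := (2 * (N+1)) * (2 * (n:ℝ))^N / (2 * ((n:ℝ)+1))^(N+1)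

theorem one_avg [Nonempty I] (G : List (I × Bool) → E) :
    Av (N+1) (fun u : List (Option I × Bool) => if nsp u = 1 then G (strip u) else 0) =
      (qq (Fintype.card I) N) • Av N G := by
  rw [Av_eq_Sm, Av_eq_Sm, Sm_one N (fun u => G (strip u))]
  simp only [strip_ins]
  rw [Finset.sum_const, Finset.card_range, ← two_nsmul, smul_smul, ← Nat.cast_smul_eq_nsmul ℝ, smul_smul, smul_smul]
  congr 1
  have hI : (0:ℝ) < Fintype.card I := by
    have : 0 < Fintype.card I := Fintype.card_pos
    exact_mod_cast this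
  unfold qq
  rw [Fintype.card_prod, Fintype.card_prod, Fintype.card_option, Fintype.card_bool]
  push_cast
  rw [mul_comm (Fintype.card I : ℝ) 2, mul_comm ((Fintype.card I : ℝ) + 1) 2]
  field_simp
  rw [← mul_pow, ← mul_pow, one_div_mul_cancel (by positivity), mul_one_div_cancel (by positivity), one_pow, one_pow]

end resample

section windows
variable {A E : Type*} [Fintype A] [AddCommMonoid E] [Module ℝ E]

/-- average over `m` windows of length `l` -/
noncomputable def MW {A E : Type*} [Fintype A] [AddCommMonoid E] [Module ℝ E] (l : ℕ) : ℕ → (List (List A) → E) → E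
  | 0, F => F []
  | m+1, F => Av l (fun u => MW l m (fun U => F (u :: U)))

theorem MW_succ (l m : ℕ) (F : List (List A) → E) :
    MW l (m+1) F = Av l (fun u => MW l m (fun U => F (u :: U))) := rfl

theorem MW_congr (l m : ℕ) {F G : List (List A) → E} (h : ∀ U : List (List A), U.length = m → (∀ u ∈ U, u.length = l) → F U = G U) :
    MW l m F = MW l m G := by
  induction m generalizing F G with
  | zero => exact h [] rfl (by simp)
  | succ m ih =>
    rw [MW_succ, MW_succ]
    apply Av_congr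
    intro u hu
    apply ih
    intro U hU hU'
    apply h
    · rw [List.length_cons, hU]
    · intro w hw
      rcases List.mem_cons.1 hw with rfl | hw
      · exact hu
      · exact hU' w hw

theorem MW_smul (l m : ℕ) (r : ℝ) (F : List (List A) → E) : MW l m (fun U => r • F U) = r • MW l m F := by
  induction m generalizing F with
  | zero => rfl
  | succ m ih =>
    rw [MW_succ, MW_succ, ← Av_smul]
    apply Av_congr
    intro u _
    exact ih _

theorem MW_add (l m : ℕ) (F G : List (List A) → E) : MW l m (fun U => F U + G U) = MW l m F + MW l m G := by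
  induction m generalizing F G with
  | zero => rfl
  | succ m ih =>
    rw [MW_succ, MW_succ, MW_succ, ← Av_add]
    apply Av_congr
    intro u _
    exact ih _ _

theorem MW_sum {ι : Type*} (s : Finset ι) (l m : ℕ) (F : ι → List (List A) → E) :
    MW l m (fun U => ∑ i ∈ s, F i U) = ∑ i ∈ s, MW l m (F i) := by
  induction m generalizing F with
  | zero => rfl
  | succ m ih =>
    simp only [MW_succ]
    rw [← Av_sum]
    apply Av_congr
    intro u _
    exact ih _

theorem MW_const [Nonempty A] (l m : ℕ) (e : E) : MW l m (fun _ : List (List A) => e) = e := by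
  induction m with
  | zero => rfl
  | succ m ih => rw [MW_succ, ih, Av_const]

theorem MW_mono {A : Type*} [Fintype A] (l m : ℕ) {F G : List (List A) → ℝ}
    (h : ∀ U : List (List A), U.length = m → (∀ u ∈ U, u.length = l) → F U ≤ G U) :
    MW l m F ≤ MW l m G := by
  induction m generalizing F G with
  | zero => exact h [] rfl (by simp)
  | succ m ih =>
    rw [MW_succ, MW_succ]
    apply Av_mono
    intro u hu
    apply ih
    intro U hU hU'
    apply h
    · rw [List.length_cons, hU]
    · intro w hw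
      rcases List.mem_cons.1 hw with rfl | hw
      · exact hu
      · exact hU' w hw

end windows

section master
variable {V I : Type} [AddCommGroup V] [Fintype I] (D : I → AddMonoid.End V) (x₀ : V) {N : ℕ}
variable {E : Type*} [AddCommMonoid E] [Module ℝ E]

def kapM : List (List (Option I × Bool)) → List (Fin (N+1) × Bool) → V
  | [], _ => 0
  | _ :: _, [] => 0
  | u :: U, c :: ch => kap D x₀ (res u c) + rho D (strip u) (kapM U ch)

def stripM {I : Type} : List (List (Option I × Bool)) → List (I × Bool)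
  | [] => []
  | u :: U => strip u ++ stripM U

theorem master (m : ℕ) (F : V → List (I × Bool) → E) :
    Av ((N+1)*m) (fun u => F (kap D x₀ u) (strip u)) =
      MW (N+1) m (fun U => Av m (fun ch : List (Fin (N+1) × Bool) => F (kapM D x₀ U ch) (stripM U))) := by
  induction m generalizing F with
  | zero => rfl
  | succ m ih =>
    rw [show (N+1)*(m+1) = (N+1) + (N+1)*m by ring, Av_append, MW_succ]
    have h1 : ∀ u : List (Option I × Bool), Av ((N+1)*m) (fun w => F (kap D x₀ (u ++ w)) (strip (u ++ w))) =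
        MW (N+1) m (fun U => Av m (fun ch : List (Fin (N+1) × Bool) =>
          F (kap D x₀ u + rho D (strip u) (kapM D x₀ U ch)) (strip u ++ stripM U))) := by
      intro u
      have := ih (fun v b => F (kap D x₀ u + rho D (strip u) v) (strip u ++ b))
      rw [← this]
      apply Av_congr
      intro w _
      rw [kap_append, strip_append]
    rw [Av_congr (N+1) (fun u _ => h1 u), res_avg]
    apply Av_congr
    intro u _
    rw [← MW_sum, ← MW_smul]
    apply MW_congr
    intro U _ _
    rw [Av_succ]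
    congr 1
    apply Finset.sum_congr rfl
    intro c _
    apply Av_congr
    intro ch _
    rw [strip_res]
    rfl

/-- conditional characteristic function in one window -/
noncomputable def phi (N : ℕ) (u : List (Option I × Bool)) (ψ : AddChar V ℂ) : ℂ :=
  ((Fintype.card (Fin (N+1) × Bool) : ℝ)⁻¹) • ∑ c : Fin (N+1) × Bool, ψ (kap D x₀ (res u c))

noncomputable def nuh (N : ℕ) : List (List (Option I × Bool)) → AddChar V ℂ → ℂ
  | [], _ => 1
  | u :: U, ψ => phi D x₀ N u ψ * nuh N U (tw ψ (rho D (strip u)))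

theorem Av_kapM (U : List (List (Option I × Bool))) (ψ : AddChar V ℂ) :
    Av U.length (fun ch : List (Fin (N+1) × Bool) => ψ (kapM D x₀ U ch)) = nuh D x₀ N U ψ := by
  induction U generalizing ψ with
  | nil =>
    show ψ 0 = 1
    exact AddChar.map_zero_eq_one ψ
  | cons u U ih =>
    rw [List.length_cons, Av_succ, nuh, phi]
    rw [smul_mul_assoc, Finset.sum_mul]
    congr 1
    apply Finset.sum_congr rfl
    intro c _
    rw [← ih, ← Av_cmul_left]
    apply Av_congr
    intro ch _
    show ψ (kap D x₀ (res u c) + rho D (strip u) (kapM D x₀ U ch)) = _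
    rw [AddChar.map_add_eq_mul]
    rfl

end master

section phibound
variable {V I : Type} [AddCommGroup V] [Fintype I] {D : I → AddMonoid.End V} (Q : Quad D) (x₀ : V) {N : ℕ}

theorem sum_pre (ψ : AddChar V ℂ) (b : List (I × Bool)) :
    ∑ p ∈ Finset.range (b.length + 1), ψ (rho D (b.take p) x₀) = pre D x₀ ψ b := by
  induction b generalizing ψ with
  | nil =>
    rw [List.length_nil, zero_add, Finset.sum_range_one]
    rfl
  | cons c b ih =>
    rw [List.length_cons, Finset.sum_range_succ', add_comm]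
    have : pre D x₀ ψ (c :: b) = ψ x₀ + pre D x₀ (tw ψ (act D c)) b := rfl
    rw [this, ← ih]
    rfl

include Q

theorem Quad.char_neg (ψ : AddChar V ℂ) (v : V) : ψ v + ψ (-v) = ((2 * (ψ v).re : ℝ) : ℂ) := by
  have h := cube_norm (char_cube Q.three ψ v)
  rw [AddChar.map_neg_eq_inv, Complex.inv_def, Complex.normSq_eq_norm_sq, h]
  rw [show ((((1:ℝ)^2)⁻¹ : ℝ) : ℂ) = 1 by norm_num, mul_one, Complex.add_conj]

theorem Quad.phi_special (u : List (Option I × Bool)) (hu : nsp u = 1) (hl : u.length = N + 1) (ψ : AddChar V ℂ) :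
    phi D x₀ N u ψ = (((pre D x₀ ψ (strip u)).re / (N+1) : ℝ) : ℂ) := by
  unfold phi
  have h1 : ∀ c : Fin (N+1) × Bool, ψ (kap D x₀ (res u c)) =
      (fun (p : ℕ) (e : Bool) => ψ (rho D ((strip u).take p) (sg x₀ e))) c.1.val c.2 := by
    intro c
    unfold res
    rw [if_pos hu, kap_ins]
  rw [Finset.sum_congr rfl (fun c _ => h1 c),
    sum_choice N (fun (p : ℕ) (e : Bool) => ψ (rho D ((strip u).take p) (sg x₀ e)))]
  have h2 : ∀ p ∈ Finset.range (N+1), (fun (p : ℕ) (e : Bool) => ψ (rho D ((strip u).take p) (sg x₀ e))) p true +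
      (fun (p : ℕ) (e : Bool) => ψ (rho D ((strip u).take p) (sg x₀ e))) p false =
      ((2 * (ψ (rho D ((strip u).take p) x₀)).re : ℝ) : ℂ) := by
    intro p _
    have e1 : sg x₀ true = x₀ := rfl
    have e2 : sg x₀ false = -x₀ := rfl
    simp only [e1, e2, map_neg]
    exact Q.char_neg ψ _
  rw [Finset.sum_congr rfl h2, ← Complex.ofReal_sum, ← Finset.mul_sum]
  have h3 : (strip u).length = N := by
    have := length_strip u
    omega
  have h4 := sum_pre (D := D) x₀ ψ (strip u)
  rw [h3] at h4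
  rw [← h4, Complex.re_sum, card_choice]
  rw [Complex.real_smul, ← Complex.ofReal_mul]
  congr 1
  field_simp

theorem Quad.phi_norm_le (u : List (Option I × Bool)) (ψ : AddChar V ℂ) : ‖phi D x₀ N u ψ‖ ≤ 1 := by
  unfold phi
  rw [norm_smul, norm_inv, Real.norm_natCast]
  have h1 : ‖∑ c : Fin (N+1) × Bool, ψ (kap D x₀ (res u c))‖ ≤ (Fintype.card (Fin (N+1) × Bool) : ℝ) := by
    refine (norm_sum_le _ _).trans ?_
    have : ∀ c ∈ (univ : Finset (Fin (N+1) × Bool)), ‖ψ (kap D x₀ (res u c))‖ ≤ 1 :=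
      fun c _ => (cube_norm (char_cube Q.three ψ _)).le
    refine (Finset.sum_le_sum this).trans ?_
    rw [Finset.sum_const, Finset.card_univ, nsmul_eq_mul, mul_one]
  have hc : (0:ℝ) < (Fintype.card (Fin (N+1) × Bool) : ℝ) := by
    have : 0 < Fintype.card (Fin (N+1) × Bool) := Fintype.card_pos
    exact_mod_cast this
  rw [inv_mul_le_iff₀ hc, mul_one]
  exact h1

end phibound

/-- number of windows with exactly one special letter -/
def Msp {I : Type} : List (List (Option I × Bool)) → ℕ
  | [] => 0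
  | u :: U => (if nsp u = 1 then 1 else 0) + Msp U

section prodbound
variable {V I : Type} [AddCommGroup V] [Fintype I] {D : I → AddMonoid.End V} (Q : Quad D) (x₀ : V) {N : ℕ}
include Q

theorem Quad.prod_bound [Nonempty I] (C : AddChar V ℂ → Prop) (hC : ∀ ψ, C ψ → ∀ c, C (tw ψ (act D c))) (r : ℝ) (hr : 0 < r)
    (hr1 : ∀ ψ, C ψ → Av N (fun b => ((pre D x₀ ψ b).re / (N+1))^2) ≤ r) (m : ℕ) (ψ : AddChar V ℂ) (hψ : C ψ) :
    MW (N+1) m (fun U => (r⁻¹)^(Msp U) * ‖nuh D x₀ N U ψ‖^2) ≤ 1 := by
  have hC' : ∀ b : List (I × Bool), ∀ ψ, C ψ → C (tw ψ (rho D b)) := by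
    intro b
    induction b with
    | nil =>
      intro ψ h
      exact h
    | cons c b ih =>
      intro ψ h
      rw [rho_cons]
      exact ih _ (hC ψ h c)
  induction m generalizing ψ with
  | zero =>
    show (r⁻¹)^0 * ‖(1:ℂ)‖^2 ≤ 1
    norm_num
  | succ m ih =>
    rw [MW_succ]
    have h1 : ∀ u : List (Option I × Bool), u.length = N+1 →
        MW (N+1) m (fun U => (r⁻¹)^(Msp (u :: U)) * ‖nuh D x₀ N (u :: U) ψ‖^2) ≤
        (if nsp u = 1 then (r⁻¹ * ((pre D x₀ ψ (strip u)).re / (N+1))^2 - 1) else 0) + 1 := by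
      intro u hu
      have h2 : ∀ U, (r⁻¹)^(Msp (u :: U)) * ‖nuh D x₀ N (u :: U) ψ‖^2 =
          ((r⁻¹)^(if nsp u = 1 then 1 else 0) * ‖phi D x₀ N u ψ‖^2) *
            ((r⁻¹)^(Msp U) * ‖nuh D x₀ N U (tw ψ (rho D (strip u)))‖^2) := by
        intro U
        rw [Msp, nuh, pow_add, norm_mul, mul_pow]
        ring
      rw [MW_congr (N+1) m (fun U _ _ => h2 U)]
      have h3 := MW_smul (N+1) m ((r⁻¹)^(if nsp u = 1 then 1 else 0) * ‖phi D x₀ N u ψ‖^2)
        (fun U => (r⁻¹)^(Msp U) * ‖nuh D x₀ N U (tw ψ (rho D (strip u)))‖^2)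
      simp only [smul_eq_mul] at h3
      rw [h3]
      have h4 := ih (tw ψ (rho D (strip u))) (hC' _ _ hψ)
      have h5 : 0 ≤ (r⁻¹)^(if nsp u = 1 then 1 else 0) * ‖phi D x₀ N u ψ‖^2 := by positivity
      refine (mul_le_mul_of_nonneg_left h4 h5).trans ?_
      rw [mul_one]
      by_cases h : nsp u = 1
      · rw [if_pos h, if_pos h, pow_one, Q.phi_special x₀ u h hu, Complex.norm_real, Real.norm_eq_abs, sq_abs]
        linarith
      · rw [if_neg h, if_neg h, pow_zero, one_mul, zero_add]
        have := Q.phi_norm_le x₀ (N := N) u ψ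
        exact pow_le_one₀ (norm_nonneg _) this
    refine (Av_mono (N+1) h1).trans ?_
    rw [Av_add, Av_const, one_avg (fun b => (r⁻¹ * ((pre D x₀ ψ b).re / (N+1))^2 - 1))]
    have h6 : Av N (fun b : List (I × Bool) => (r⁻¹ * ((pre D x₀ ψ b).re / (N+1))^2 - 1)) ≤ 0 := by
      have e : (fun b : List (I × Bool) => (r⁻¹ * ((pre D x₀ ψ b).re / (N+1))^2 - 1)) =
          fun b => r⁻¹ * ((pre D x₀ ψ b).re / (N+1))^2 + (-1) := by
        funext b; ring
      rw [e, Av_add, Av_const, Av_mul_left]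
      have := mul_le_mul_of_nonneg_left (hr1 ψ hψ) (inv_nonneg.2 hr.le)
      rw [inv_mul_cancel₀ hr.ne'] at this
      linarith
    have h7 : 0 ≤ qq (Fintype.card I) N := by
      unfold qq; positivity
    rw [smul_eq_mul]
    nlinarith

/-- few good windows is unlikely -/
theorem few_windows [Nonempty I] (m : ℕ) :
    MW (N+1) m (fun U : List (List (Option I × Bool)) => ((1:ℝ)/2)^(Msp U)) = (1 - qq (Fintype.card I) N/2)^m := by
  induction m with
  | zero => rfl
  | succ m ih =>
    rw [MW_succ]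
    have h1 : ∀ u : List (Option I × Bool), MW (N+1) m (fun U => ((1:ℝ)/2)^(Msp (u :: U))) =
        (1 - qq (Fintype.card I) N/2)^m * ((if nsp u = 1 then (fun _ : List (I × Bool) => (-1:ℝ)/2) (strip u) else 0) + 1) := by
      intro u
      have h2 : ∀ U, ((1:ℝ)/2)^(Msp (u :: U)) = ((1:ℝ)/2)^(if nsp u = 1 then 1 else 0) * ((1:ℝ)/2)^(Msp U) := by
        intro U
        rw [Msp, pow_add]
      rw [MW_congr (N+1) m (fun U _ _ => h2 U)]
      have h3 := MW_smul (N+1) m (((1:ℝ)/2)^(if nsp u = 1 then 1 else 0)) (fun U : List (List (Option I × Bool)) => ((1:ℝ)/2)^(Msp U))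
      simp only [smul_eq_mul] at h3
      rw [h3, ih]
      split_ifs
      · ring
      · ring
    rw [Av_congr (N+1) (fun u _ => h1 u), Av_mul_left, Av_add, Av_const, one_avg (fun _ : List (I × Bool) => (-1:ℝ)/2), Av_const,
      smul_eq_mul, pow_succ]
    ring

end prodbound

section plancherel
variable {V : Type} [AddCommGroup V] [Fintype V]

theorem plancherel (n : V → ℝ) : ∑ ψ : AddChar V ℂ, ‖∑ v, (n v : ℂ) * ψ v‖^2 = Fintype.card V * ∑ v, n v ^2 := by
  classical
  have h1 : ∀ ψ : AddChar V ℂ, ((‖∑ v, (n v : ℂ) * ψ v‖^2 : ℝ) : ℂ) = ∑ v, ∑ w, (n v : ℂ) * (n w : ℂ) * ψ (v - w) := by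
    intro ψ
    push_cast
    rw [← Complex.mul_conj', map_sum, Finset.sum_mul_sum]
    apply Finset.sum_congr rfl
    intro v _
    apply Finset.sum_congr rfl
    intro w _
    rw [map_mul, Complex.conj_ofReal, sub_eq_add_neg, AddChar.map_add_eq_mul, AddChar.map_neg_eq_conj]
    ring
  have h2 : ((∑ ψ : AddChar V ℂ, ‖∑ v, (n v : ℂ) * ψ v‖^2 : ℝ) : ℂ) = ((Fintype.card V * ∑ v, n v ^2 : ℝ) : ℂ) := by
    rw [Complex.ofReal_sum, Finset.sum_congr rfl (fun ψ _ => h1 ψ), Finset.sum_comm]
    push_cast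
    rw [Finset.mul_sum]
    apply Finset.sum_congr rfl
    intro v _
    rw [Finset.sum_comm]
    have h3 : ∀ w : V, ∑ ψ : AddChar V ℂ, (n v : ℂ) * (n w : ℂ) * ψ (v - w) =
        if w = v then (n v : ℂ) * (n w : ℂ) * (Fintype.card V : ℂ) else 0 := by
      intro w
      rw [← Finset.mul_sum, AddChar.sum_apply_eq_ite]
      by_cases h : w = v
      · rw [if_pos h, if_pos (by rw [h, sub_self])]
      · rw [if_neg h, if_neg (fun h' => h (sub_eq_zero.1 h').symm), mul_zero]
    rw [Finset.sum_congr rfl (fun w _ => h3 w), Finset.sum_ite_eq' univ v, if_pos (mem_univ v)]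
    ring
  exact_mod_cast h2

theorem l1_bound (n : V → ℝ) (hn : ∑ v, n v = 1) {a : ℝ} (ha : 0 < a) :
    ∑ v, |n v - 1/(Fintype.card V : ℝ)| ≤ (a + (∑ ψ ∈ (univ : Finset (AddChar V ℂ)).filter (fun ψ => ψ ≠ 0),
      ‖∑ v, (n v : ℂ) * ψ v‖^2)/a)/2 := by
  classical
  have hc : (0:ℝ) < Fintype.card V := by
    have : 0 < Fintype.card V := Fintype.card_pos
    exact_mod_cast this
  have h1 := plancherel n
  rw [← Finset.sum_filter_add_sum_filter_not univ (fun ψ : AddChar V ℂ => ψ ≠ 0)] at h1
  have h2 : ∑ ψ ∈ (univ : Finset (AddChar V ℂ)).filter (fun ψ => ¬ ψ ≠ 0), ‖∑ v, (n v : ℂ) * ψ v‖^2 = 1 := by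
    have : (univ : Finset (AddChar V ℂ)).filter (fun ψ => ¬ ψ ≠ 0) = {0} := by
      ext ψ; simp
    rw [this, Finset.sum_singleton]
    have h3 : ∑ v, (n v : ℂ) * (0 : AddChar V ℂ) v = 1 := by
      simp only [AddChar.zero_apply, mul_one]
      rw [← Complex.ofReal_sum, hn, Complex.ofReal_one]
    rw [h3]; norm_num
  rw [h2] at h1
  set Y := ∑ ψ ∈ (univ : Finset (AddChar V ℂ)).filter (fun ψ => ψ ≠ 0), ‖∑ v, (n v : ℂ) * ψ v‖^2 with hY
  set s := ∑ v, |n v - 1/(Fintype.card V : ℝ)| with hs
  have h4 : s^2 ≤ Y := by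
    have h5 : s^2 ≤ (Fintype.card V : ℝ) * ∑ v, |n v - 1/(Fintype.card V : ℝ)|^2 := by
      have := sq_sum_le_card_mul_sum_sq (s := (univ : Finset V)) (f := fun v => |n v - 1/(Fintype.card V : ℝ)|)
      rw [Finset.card_univ] at this
      exact this
    have h6 : (Fintype.card V : ℝ) * ∑ v, |n v - 1/(Fintype.card V : ℝ)|^2 = (Fintype.card V : ℝ) * ∑ v, n v^2 - 1 := by
      have : ∀ v, |n v - 1/(Fintype.card V : ℝ)|^2 = n v^2 - 2/(Fintype.card V : ℝ) * n v + 1/(Fintype.card V : ℝ)^2 := by
        intro v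
        rw [sq_abs]
        field_simp
        ring
      rw [Finset.sum_congr rfl (fun v _ => this v), Finset.sum_add_distrib, Finset.sum_sub_distrib, ← Finset.mul_sum, hn,
        Finset.sum_const, Finset.card_univ, nsmul_eq_mul]
      field_simp
      ring
    rw [h6] at h5
    linarith
  have h7 : s * (2*a) ≤ a^2 + Y := by nlinarith [sq_nonneg (s-a)]
  rw [le_div_iff₀ (by norm_num)]
  have h8 : a + Y/a = (a^2 + Y)/a := by field_simp
  rw [h8, le_div_iff₀ ha]
  linarith

end plancherel

section level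
variable {V I G : Type} [AddCommGroup V] [Fintype I] [Fintype V] [Fintype G] {D : I → AddMonoid.End V} (x₀ : V) (γ : List (I × Bool) → G)

open Classical in
noncomputable def pj (D : I → AddMonoid.End V) (x₀ : V) (γ : List (I × Bool) → G) (t : ℕ) (v : V) (g : G) : ℝ :=
  Av t (fun u : List (Option I × Bool) => if kap D x₀ u = v ∧ γ (strip u) = g then (1:ℝ) else 0)

open Classical in
noncomputable def pm (γ : List (I × Bool) → G) (t : ℕ) (g : G) : ℝ :=
  Av t (fun u : List (Option I × Bool) => if γ (strip u) = g then (1:ℝ) else 0)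

open Classical in
noncomputable def nu (D : I → AddMonoid.End V) (x₀ : V) (N : ℕ) (U : List (List (Option I × Bool))) (v : V) : ℝ :=
  Av U.length (fun ch : List (Fin (N+1) × Bool) => if kapM D x₀ U ch = v then (1:ℝ) else 0)

theorem abs_MW_le {A : Type*} [Fintype A] (l m : ℕ) (F : List (List A) → ℝ) : |MW l m F| ≤ MW l m (fun U => |F U|) := by
  rw [abs_le]
  constructor
  · have := MW_smul l m (-1:ℝ) (fun U => |F U|)
    simp only [smul_eq_mul] at this
    have h2 : MW l m (fun U => -1 * |F U|) ≤ MW l m F := MW_mono l m (fun U _ _ => by linarith [neg_abs_le (F U)])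
    linarith
  · exact MW_mono l m (fun U _ _ => le_abs_self _)

omit [Fintype V] in
theorem nu_sum [Fintype V] (N : ℕ) (U : List (List (Option I × Bool))) : ∑ v, nu D x₀ N U v = 1 := by
  classical
  unfold nu
  rw [← Av_sum]
  have : ∀ ch : List (Fin (N+1) × Bool), ∑ v, (if kapM D x₀ U ch = v then (1:ℝ) else 0) = 1 := by
    intro ch
    rw [Finset.sum_ite_eq univ, if_pos (mem_univ _)]
  rw [Av_congr _ (fun ch _ => this ch), Av_const]

theorem nu_nonneg (N : ℕ) (U : List (List (Option I × Bool))) (v : V) : 0 ≤ nu D x₀ N U v := by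
  classical
  unfold nu
  apply Av_nonneg
  intro ch
  split_ifs <;> norm_num

theorem nu_hat (N : ℕ) (U : List (List (Option I × Bool))) (ψ : AddChar V ℂ) :
    ∑ v, (nu D x₀ N U v : ℂ) * ψ v = nuh D x₀ N U ψ := by
  classical
  rw [← Av_kapM]
  have h1 : ∀ v, (nu D x₀ N U v : ℂ) = Av U.length (fun ch : List (Fin (N+1) × Bool) => if kapM D x₀ U ch = v then (1:ℂ) else 0) := by
    intro v
    have key : ∀ (n : ℕ) (F : List (Fin (N+1) × Bool) → ℝ), ((Av n F : ℝ) : ℂ) = Av n (fun ch => (F ch : ℂ)) := by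
      intro n
      induction n with
      | zero => intro F; rfl
      | succ n ih =>
        intro F
        rw [Av_succ, Av_succ, smul_eq_mul, Complex.ofReal_mul, Complex.ofReal_sum, Complex.real_smul]
        congr 1
        apply Finset.sum_congr rfl
        intro c _
        rw [ih]
    unfold nu
    rw [key]
    apply Av_congr
    intro ch _
    split_ifs <;> simp
  have h2 : ∀ v, (nu D x₀ N U v : ℂ) * ψ v = Av U.length (fun ch : List (Fin (N+1) × Bool) => ψ v * if kapM D x₀ U ch = v then (1:ℂ) else 0) := by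
    intro v
    rw [h1, Av_cmul_left, mul_comm]
  rw [Finset.sum_congr rfl (fun v _ => h2 v), ← Av_sum]
  apply Av_congr
  intro ch _
  have : ∀ v, (ψ v * if kapM D x₀ U ch = v then (1:ℂ) else 0) = if kapM D x₀ U ch = v then ψ v else 0 := by
    intro v
    split_ifs <;> simp
  rw [Finset.sum_congr rfl (fun v _ => this v), Finset.sum_ite_eq univ, if_pos (mem_univ _)]

theorem pj_eq (N m : ℕ) (v : V) (g : G) : pj D x₀ γ ((N+1)*m) v g =
    MW (N+1) m (fun U => open Classical in if γ (stripM U) = g then nu D x₀ N U v else 0) := by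
  classical
  unfold pj
  have := master (N := N) D x₀ m (fun v' b => if v' = v ∧ γ b = g then (1:ℝ) else 0)
  rw [this]
  apply MW_congr
  intro U hU _
  unfold nu
  rw [hU]
  by_cases h : γ (stripM U) = g
  · rw [if_pos h]
    apply Av_congr
    intro ch _
    by_cases h' : kapM D x₀ U ch = v
    · rw [if_pos h', if_pos ⟨h', h⟩]
    · rw [if_neg h', if_neg (fun h'' => h' h''.1)]
  · rw [if_neg h]
    rw [Av_congr m (G := fun _ => (0:ℝ)) (fun ch _ => if_neg (fun h'' => h h''.2)), Av_const]

theorem pm_eq (D : I → AddMonoid.End V) (x₀ : V) (N m : ℕ) (g : G) : pm γ ((N+1)*m) g =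
    MW (N+1) m (fun U => open Classical in if γ (stripM U) = g then (1:ℝ) else 0) := by
  classical
  unfold pm
  have := master (N := N) D x₀ m (fun _ b => if γ b = g then (1:ℝ) else 0)
  rw [this]
  apply MW_congr
  intro U hU _
  rw [Av_const]

theorem level_bound [Nonempty I] (N m m₀ : ℕ) (r : AddChar V ℂ → ℝ) (hr0 : ∀ ψ, ψ ≠ 0 → 0 < r ψ) (hr1 : ∀ ψ, ψ ≠ 0 → r ψ ≤ 1)
    (hMW : ∀ ψ, ψ ≠ 0 → MW (N+1) m (fun U => ((r ψ)⁻¹)^(Msp U) * ‖nuh D x₀ N U ψ‖^2) ≤ 1)
    {a : ℝ} (ha : 0 < a) :
    ∑ g : G, ∑ v : V, |pj D x₀ γ ((N+1)*m) v g - pm γ ((N+1)*m) g / (Fintype.card V : ℝ)| ≤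
      2 * (2^m₀ * MW (N+1) m (fun U : List (List (Option I × Bool)) => ((1:ℝ)/2)^(Msp U))) +
      (a + (∑ ψ ∈ (univ : Finset (AddChar V ℂ)).filter (fun ψ => ψ ≠ 0), (r ψ)^m₀)/a)/2 := by
  classical
  have h1 : ∀ g : G, ∀ v : V, |pj D x₀ γ ((N+1)*m) v g - pm γ ((N+1)*m) g / (Fintype.card V : ℝ)| ≤
      MW (N+1) m (fun U => if γ (stripM U) = g then |nu D x₀ N U v - 1/(Fintype.card V : ℝ)| else 0) := by
    intro g v
    have e1 : pj D x₀ γ ((N+1)*m) v g - pm γ ((N+1)*m) g / (Fintype.card V : ℝ) =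
        MW (N+1) m (fun U => (if γ (stripM U) = g then nu D x₀ N U v else 0) +
          (-(1/(Fintype.card V : ℝ))) • (if γ (stripM U) = g then (1:ℝ) else 0)) := by
      rw [MW_add, MW_smul, pj_eq, pm_eq γ D x₀, smul_eq_mul]
      ring
    rw [e1]
    refine (abs_MW_le _ _ _).trans ?_
    apply MW_mono
    intro U _ _
    by_cases h : γ (stripM U) = g
    · rw [if_pos h, if_pos h, if_pos h, smul_eq_mul, mul_one, ← sub_eq_add_neg]
    · rw [if_neg h, if_neg h, if_neg h, smul_zero, add_zero, abs_zero]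
  have h2 : ∑ g : G, ∑ v : V, |pj D x₀ γ ((N+1)*m) v g - pm γ ((N+1)*m) g / (Fintype.card V : ℝ)| ≤
      MW (N+1) m (fun U => ∑ v : V, |nu D x₀ N U v - 1/(Fintype.card V : ℝ)|) := by
    refine (Finset.sum_le_sum (fun g _ => Finset.sum_le_sum (fun v _ => h1 g v))).trans ?_
    rw [Finset.sum_congr rfl (fun g _ => (MW_sum univ (N+1) m (fun v U => if γ (stripM U) = g then |nu D x₀ N U v - 1/(Fintype.card V : ℝ)| else 0)).symm)]
    rw [← MW_sum]
    apply le_of_eq
    apply MW_congr
    intro U _ _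
    rw [Finset.sum_comm]
    apply Finset.sum_congr rfl
    intro v _
    rw [Finset.sum_ite_eq univ, if_pos (mem_univ _)]
  refine h2.trans ?_
  have h3 : ∀ U : List (List (Option I × Bool)), ∑ v : V, |nu D x₀ N U v - 1/(Fintype.card V : ℝ)| ≤
      (((2:ℝ) * 2^m₀) • (((1:ℝ)/2)^(Msp U)) + a/2) + (1/(2*a)) • ∑ ψ ∈ (univ : Finset (AddChar V ℂ)).filter (fun ψ => ψ ≠ 0),
        ((r ψ)^m₀) • (((r ψ)⁻¹)^(Msp U) * ‖nuh D x₀ N U ψ‖^2) := by
    intro U
    have hS : 0 ≤ ∑ ψ ∈ (univ : Finset (AddChar V ℂ)).filter (fun ψ => ψ ≠ 0),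
        ((r ψ)^m₀) • (((r ψ)⁻¹)^(Msp U) * ‖nuh D x₀ N U ψ‖^2) := by
      apply Finset.sum_nonneg
      intro ψ hψ
      have := hr0 ψ (Finset.mem_filter.1 hψ).2
      rw [smul_eq_mul]
      positivity
    by_cases hM : Msp U < m₀
    · have h4 : ∑ v : V, |nu D x₀ N U v - 1/(Fintype.card V : ℝ)| ≤ 2 := by
        have h5 : ∀ v ∈ (univ : Finset V), |nu D x₀ N U v - 1/(Fintype.card V : ℝ)| ≤ nu D x₀ N U v + 1/(Fintype.card V : ℝ) := by
          intro v _
          rw [abs_le]
          have h6 := nu_nonneg (D := D) x₀ N U v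
          have h7 : 0 ≤ 1/(Fintype.card V : ℝ) := by positivity
          constructor <;> linarith
        refine (Finset.sum_le_sum h5).trans ?_
        rw [Finset.sum_add_distrib, nu_sum, Finset.sum_const, Finset.card_univ, nsmul_eq_mul]
        have hc : (Fintype.card V : ℝ) ≠ 0 := by
          have : 0 < Fintype.card V := Fintype.card_pos
          positivity
        rw [mul_one_div_cancel hc]
        norm_num
      have h5 : (1:ℝ) ≤ 2^m₀ * ((1:ℝ)/2)^(Msp U) := by
        rw [one_div, inv_pow, ← div_eq_mul_inv, one_le_div (by positivity)]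
        exact pow_le_pow_right₀ (by norm_num) hM.le
      have h6 : 0 ≤ (1/(2*a)) • ∑ ψ ∈ (univ : Finset (AddChar V ℂ)).filter (fun ψ => ψ ≠ 0),
        ((r ψ)^m₀) • (((r ψ)⁻¹)^(Msp U) * ‖nuh D x₀ N U ψ‖^2) := by
        rw [smul_eq_mul]; positivity
      rw [smul_eq_mul (2 * 2^m₀)]
      have h7 : 2 * 1 ≤ 2 * (2^m₀ * ((1:ℝ)/2)^(Msp U)) := mul_le_mul_of_nonneg_left h5 (by norm_num)
      linarith
    · have h4 := l1_bound (nu D x₀ N U) (nu_sum x₀ N U) ha
      refine h4.trans ?_
      have h5 : ∑ ψ ∈ (univ : Finset (AddChar V ℂ)).filter (fun ψ => ψ ≠ 0), ‖∑ v, (nu D x₀ N U v : ℂ) * ψ v‖^2 ≤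
          ∑ ψ ∈ (univ : Finset (AddChar V ℂ)).filter (fun ψ => ψ ≠ 0),
            ((r ψ)^m₀) • (((r ψ)⁻¹)^(Msp U) * ‖nuh D x₀ N U ψ‖^2) := by
        apply Finset.sum_le_sum
        intro ψ hψ
        have hψ' := (Finset.mem_filter.1 hψ).2
        rw [nu_hat, smul_eq_mul, ← mul_assoc]
        have h6 : 1 ≤ (r ψ)^m₀ * ((r ψ)⁻¹)^(Msp U) := by
          have hr := hr0 ψ hψ'
          push Not at hM
          obtain ⟨k, hk⟩ := Nat.exists_eq_add_of_le hM
          rw [hk, pow_add, ← mul_assoc, ← mul_pow, mul_inv_cancel₀ hr.ne', one_pow, one_mul]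
          exact one_le_pow₀ ((one_le_inv₀ hr).2 (hr1 ψ hψ'))
        have h7 : 0 ≤ ‖nuh D x₀ N U ψ‖^2 := by positivity
        nlinarith
      have h6 : 0 ≤ ((2:ℝ) * 2^m₀) • (((1:ℝ)/2)^(Msp U)) := by
        rw [smul_eq_mul]; positivity
      rw [smul_eq_mul (1/(2*a))]
      have h7 : ∀ S : ℝ, (a + S/a)/2 = a/2 + 1/(2*a) * S := by
        intro S
        field_simp
      rw [h7]
      have h8 := mul_le_mul_of_nonneg_left h5 (by positivity : 0 ≤ 1/(2*a))
      linarith
  refine (MW_mono (N+1) m (fun U _ _ => h3 U)).trans ?_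
  rw [MW_add, MW_add, MW_smul, MW_const, MW_smul, MW_sum]
  have h4 : ∑ ψ ∈ (univ : Finset (AddChar V ℂ)).filter (fun ψ => ψ ≠ 0),
      MW (N+1) m (fun U => ((r ψ)^m₀) • (((r ψ)⁻¹)^(Msp U) * ‖nuh D x₀ N U ψ‖^2)) ≤
      ∑ ψ ∈ (univ : Finset (AddChar V ℂ)).filter (fun ψ => ψ ≠ 0), (r ψ)^m₀ := by
    apply Finset.sum_le_sum
    intro ψ hψ
    have hψ' := (Finset.mem_filter.1 hψ).2
    rw [MW_smul, smul_eq_mul]
    have := hr0 ψ hψ'
    calc (r ψ)^m₀ * _ ≤ (r ψ)^m₀ * 1 := mul_le_mul_of_nonneg_left (hMW ψ hψ') (by positivity)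
      _ = _ := mul_one _
  rw [smul_eq_mul, smul_eq_mul]
  have h8 := mul_le_mul_of_nonneg_left h4 (by positivity : 0 ≤ 1/(2*a))
  have h7 : ∀ S : ℝ, (a + S/a)/2 = a/2 + 1/(2*a) * S := by
    intro S
    field_simp
  rw [h7]
  linarith

end level

section code

open Classical in
/-- code of a cube root of unity -/
noncomputable def cd (z : ℂ) : Fin 3 := if z = 1 then 0 else if 0 < z.im then 1 else 2

theorem cd_zero (z : ℂ) : cd z = 0 ↔ z = 1 := by
  unfold cd
  split_ifs with h1 h2
  · simp [h1]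
  · simp [h1]
  · simp [h1]

theorem cd_inj {z w : ℂ} (hz : z^3 = 1) (hw : w^3 = 1) (h : cd z = cd w) : z = w := by
  by_cases h1 : z = 1
  · have : cd w = 0 := by rw [← h, cd_zero, h1]
    rw [cd_zero] at this
    rw [h1, this]
  · by_cases h2 : w = 1
    · have : cd z = 0 := by rw [h, cd_zero, h2]
      exact absurd ((cd_zero z).1 this) h1
    · have e1 := re_cube hz h1
      have e2 := re_cube hw h2
      have n1 := cube_norm hz
      have n2 := cube_norm hw
      have q1 : Complex.normSq z = 1 := by rw [Complex.normSq_eq_norm_sq, n1, one_pow]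
      have q2 : Complex.normSq w = 1 := by rw [Complex.normSq_eq_norm_sq, n2, one_pow]
      rw [Complex.normSq_apply, e1] at q1
      rw [Complex.normSq_apply, e2] at q2
      apply Complex.ext
      · rw [e1, e2]
      · unfold cd at h
        rw [if_neg h1, if_neg h2] at h
        have h3 : (z.im - w.im) * (z.im + w.im) = 0 := by linarith
        rcases mul_eq_zero.1 h3 with h4 | h4
        · linarith
        · by_cases h5 : 0 < z.im
          · rw [if_pos h5] at h
            by_cases h6 : 0 < w.im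
            · linarith
            · rw [if_neg h6] at h
              exact absurd h (by decide)
          · rw [if_neg h5] at h
            by_cases h6 : 0 < w.im
            · rw [if_pos h6] at h
              exact absurd h (by decide)
            · have : z.im = 0 := by linarith
              rw [this] at q1
              norm_num at q1

theorem weight_sum {J : Type} [Fintype J] [DecidableEq J] (y : ℝ) :
    ∑ M : J → Fin 3, y^((univ.filter (fun j => M j ≠ 0)).card) = (1 + 2*y)^(Fintype.card J) := by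
  have h1 : ∀ M : J → Fin 3, y^((univ.filter (fun j => M j ≠ 0)).card) = ∏ j, (if M j ≠ 0 then y else 1) := by
    intro M
    rw [Finset.prod_ite, Finset.prod_const_one, mul_one, Finset.prod_const]
  rw [Finset.sum_congr rfl (fun M _ => h1 M)]
  have h2 := Finset.prod_univ_sum (fun _ : J => (univ : Finset (Fin 3))) (fun _ a => if a ≠ 0 then y else (1:ℝ))
  rw [Fintype.piFinset_univ] at h2
  rw [← h2, Finset.prod_const, Finset.card_univ]
  congr 1
  rw [Fin.sum_univ_three]
  simp
  ring

theorem count_small {J : Type} [Fintype J] [DecidableEq J] (T : ℕ) (y : ℝ) (hy : 0 < y) (hy1 : y ≤ 1) :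
    (((univ : Finset (J → Fin 3)).filter (fun M => (univ.filter (fun j => M j ≠ 0)).card < T)).card : ℝ) * y^T ≤
      (1 + 2*y)^(Fintype.card J) := by
  rw [← weight_sum y, ← nsmul_eq_mul, ← Finset.sum_const]
  calc ∑ M ∈ (univ : Finset (J → Fin 3)).filter (fun M => (univ.filter (fun j => M j ≠ 0)).card < T), y^T
      ≤ ∑ M ∈ (univ : Finset (J → Fin 3)).filter (fun M => (univ.filter (fun j => M j ≠ 0)).card < T),
          y^((univ.filter (fun j => M j ≠ 0)).card) := by
        apply Finset.sum_le_sum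
        intro M hM
        exact pow_le_pow_of_le_one hy.le hy1 (Finset.mem_filter.1 hM).2.le
    _ ≤ _ := by
        apply Finset.sum_le_sum_of_subset_of_nonneg (Finset.filter_subset _ _)
        intro M _ _
        positivity

end code

section charsum
variable {V I : Type} [AddCommGroup V] [Fintype I] [Fintype V] {D : I → AddMonoid.End V} (Q : Quad D) (x₀ : V)

/-- the elements which generate -/
def genSet (D : I → AddMonoid.End V) (x₀ : V) : Set V :=
  {v | v = x₀ ∨ (∃ i, v = D i x₀) ∨ (∃ i j, v = (D i * D j) x₀)}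

omit [Fintype I] [Fintype V] in
theorem char_ext (hgen : AddSubgroup.closure (genSet D x₀) = ⊤) (ψ ψ' : AddChar V ℂ) (h : ∀ v ∈ genSet D x₀, ψ v = ψ' v) : ψ = ψ' := by
  apply AddChar.ext
  intro v
  have hv : v ∈ AddSubgroup.closure (genSet D x₀) := by rw [hgen]; exact AddSubgroup.mem_top v
  induction hv using AddSubgroup.closure_induction with
  | mem x hx => exact h x hx
  | zero => rw [AddChar.map_zero_eq_one, AddChar.map_zero_eq_one]
  | add x y _ _ hx hy => rw [AddChar.map_add_eq_mul, AddChar.map_add_eq_mul, hx, hy]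
  | neg x _ hx => rw [AddChar.map_neg_eq_inv, AddChar.map_neg_eq_inv, hx]

/-- the table of values of a character -/
noncomputable def tab (D : I → AddMonoid.End V) (x₀ : V) (ψ : AddChar V ℂ) : Fin 3 × (I → Fin 3) × (I × I → Fin 3) :=
  (cd (ψ x₀), fun i => cd (ψ (D i x₀)), fun p => cd (ψ ((D p.1 * D p.2) x₀)))

include Q

omit [Fintype I] [Fintype V] in
theorem Quad.tab_inj (hgen : AddSubgroup.closure (genSet D x₀) = ⊤) : Function.Injective (tab D x₀) := by
  intro ψ ψ' h
  unfold tab at h
  rw [Prod.mk.injEq, Prod.mk.injEq] at h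
  obtain ⟨h1, h2, h3⟩ := h
  apply char_ext x₀ hgen
  intro v hv
  have c1 := fun v => char_cube Q.three ψ v
  have c2 := fun v => char_cube Q.three ψ' v
  rcases hv with rfl | ⟨i, rfl⟩ | ⟨i, j, rfl⟩
  · exact cd_inj (c1 _) (c2 _) h1
  · exact cd_inj (c1 _) (c2 _) (congrFun h2 i)
  · exact cd_inj (c1 _) (c2 _) (congrFun h3 (i, j))

omit [Fintype I] [Fintype V] in
theorem Quad.nontriv_of_ne (hgen : AddSubgroup.closure (genSet D x₀) = ⊤) (ψ : AddChar V ℂ) (h : ψ ≠ 0) : Nontriv D x₀ ψ := by
  by_contra hcon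
  unfold Nontriv at hcon
  push Not at hcon
  obtain ⟨h1, h2, h3⟩ := hcon
  apply h
  apply char_ext x₀ hgen
  intro v hv
  rw [AddChar.zero_apply]
  rcases hv with rfl | ⟨i, rfl⟩ | ⟨i, j, rfl⟩
  · exact h3
  · exact h2 i
  · exact h1 i j

open Classical in
theorem Quad.char_sum (hgen : AddSubgroup.closure (genSet D x₀) = ⊤) (d : ℕ) (hd : 2 ≤ d) (hI : Fintype.card I = d - 1)
    (T m₀ : ℕ) (rA rB : ℝ) (hA : 0 ≤ rA) (hB : 0 ≤ rB) :
    ∑ ψ ∈ (univ : Finset (AddChar V ℂ)).filter (fun ψ => ψ ≠ 0), (if T ≤ Tn D x₀ ψ then rA else rB)^m₀ ≤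
      3^(2*d^2) * rA^m₀ + 3^(d+1) * (2*(d:ℝ)^2)^T * rB^m₀ := by
  classical
  have hd1 : (2:ℝ) ≤ d := by exact_mod_cast hd
  have h0 : ∀ ψ : AddChar V ℂ, (if T ≤ Tn D x₀ ψ then rA else rB)^m₀ ≤ rA^m₀ + (if Tn D x₀ ψ < T then rB^m₀ else 0) := by
    intro ψ
    by_cases h : T ≤ Tn D x₀ ψ
    · rw [if_pos h, if_neg (by omega)]; linarith
    · rw [if_neg h, if_pos (by omega)]
      have := pow_nonneg hA m₀
      linarith
  have h1 : ∑ ψ ∈ (univ : Finset (AddChar V ℂ)).filter (fun ψ => ψ ≠ 0), (if T ≤ Tn D x₀ ψ then rA else rB)^m₀ ≤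
      ∑ ψ : AddChar V ℂ, (rA^m₀ + (if Tn D x₀ ψ < T then rB^m₀ else 0)) := by
    refine (Finset.sum_le_sum_of_subset_of_nonneg (Finset.filter_subset _ _) ?_).trans (Finset.sum_le_sum (fun ψ _ => h0 ψ))
    intro ψ _ _
    split_ifs <;> positivity
  refine h1.trans ?_
  rw [Finset.sum_add_distrib, Finset.sum_const, Finset.card_univ, nsmul_eq_mul]
  apply add_le_add
  · apply mul_le_mul_of_nonneg_right _ (by positivity)
    have h2 := Fintype.card_le_of_injective _ (Q.tab_inj x₀ hgen)
    rw [Fintype.card_prod, Fintype.card_prod, Fintype.card_fin, Fintype.card_fun, Fintype.card_fun, Fintype.card_fin,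
      Fintype.card_prod, hI, ← pow_add, ← pow_succ'] at h2
    have h3 : 3^((d-1) + (d-1)*(d-1) + 1) ≤ 3^(2*d^2) := by
      apply Nat.pow_le_pow_right (by norm_num)
      obtain ⟨n, rfl⟩ : ∃ n, d = n + 1 := ⟨d - 1, by omega⟩
      rw [Nat.add_sub_cancel]
      nlinarith
    exact_mod_cast h2.trans h3
  · rw [← Finset.sum_filter, Finset.sum_const, nsmul_eq_mul]
    apply mul_le_mul_of_nonneg_right _ (by positivity)
    -- count
    have h2 : ((univ : Finset (AddChar V ℂ)).filter (fun ψ => Tn D x₀ ψ < T)).card ≤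
        ((univ : Finset (Fin 3)) ×ˢ ((univ : Finset (I → Fin 3)) ×ˢ
          (univ : Finset (I × I → Fin 3)).filter (fun M => (univ.filter (fun j => M j ≠ 0)).card < T))).card := by
      apply Finset.card_le_card_of_injOn (tab D x₀)
      · intro ψ hψ
        have hψ' := (Finset.mem_filter.1 hψ).2
        simp only [Finset.coe_product, Set.mem_prod, Finset.mem_coe, Finset.mem_univ, true_and, Finset.mem_filter]
        refine lt_of_le_of_lt ?_ hψ'
        apply le_of_eq
        unfold Tn tab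
        congr 1
        ext p
        simp only [mem_filter, mem_univ, true_and, ne_eq, cd_zero]
      · intro ψ _ ψ' _ h
        exact Q.tab_inj x₀ hgen h
    rw [Finset.card_product, Finset.card_product, Finset.card_univ, Finset.card_univ, Fintype.card_fin, Fintype.card_fun,
      Fintype.card_fin, hI] at h2
    set cnt := ((univ : Finset (I × I → Fin 3)).filter (fun M => (univ.filter (fun j => M j ≠ 0)).card < T)).card with hcnt
    have hy : (0:ℝ) < 1/(2*(d:ℝ)^2) := by positivity
    have hy1 : 1/(2*(d:ℝ)^2) ≤ 1 := by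
      rw [div_le_one (by positivity)]; nlinarith
    have h3 := count_small (J := I × I) T (1/(2*(d:ℝ)^2)) hy hy1
    rw [← hcnt, Fintype.card_prod, hI] at h3
    have h4 : (1 + 2 * (1/(2*(d:ℝ)^2)))^((d-1)*(d-1)) ≤ 3 := by
      have e1 : 1 + 2 * (1/(2*(d:ℝ)^2)) ≤ Real.exp (1/(d:ℝ)^2) := by
        have := Real.add_one_le_exp (1/(d:ℝ)^2)
        have e2 : 2 * (1/(2*(d:ℝ)^2)) = 1/(d:ℝ)^2 := by field_simp
        linarith
      calc (1 + 2 * (1/(2*(d:ℝ)^2)))^((d-1)*(d-1)) ≤ (Real.exp (1/(d:ℝ)^2))^((d-1)*(d-1)) :=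
            pow_le_pow_left₀ (by positivity) e1 _
        _ = Real.exp (((d-1 : ℕ) : ℝ) * ((d-1 : ℕ) : ℝ) * (1/(d:ℝ)^2)) := by
            rw [← Real.exp_nat_mul]; push_cast; ring_nf
        _ ≤ Real.exp 1 := by
            apply Real.exp_le_exp.2
            rw [Nat.cast_sub (by omega), mul_one_div, div_le_one (by positivity)]
            push_cast
            nlinarith
        _ ≤ 3 := by
            have := Real.exp_one_lt_d9
            linarith
    have h5 : (cnt : ℝ) ≤ 3 * (2*(d:ℝ)^2)^T := by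
      have e1 : (cnt : ℝ) * (1/(2*(d:ℝ)^2))^T ≤ 3 := h3.trans h4
      rw [one_div, inv_pow, ← div_eq_mul_inv, div_le_iff₀ (by positivity)] at e1
      exact e1
    have h6 : (((univ : Finset (AddChar V ℂ)).filter (fun ψ => Tn D x₀ ψ < T)).card : ℝ) ≤ 3 * (3^(d-1) * (cnt : ℝ)) := by
      exact_mod_cast h2
    refine h6.trans ?_
    calc 3 * (3^(d-1) * (cnt : ℝ)) ≤ 3 * (3^(d-1) * (3 * (2*(d:ℝ)^2)^T)) := by gcongr
      _ = 3^(d+1) * (2*(d:ℝ)^2)^T := by
        obtain ⟨n, rfl⟩ : ∃ n, d = n + 1 := ⟨d - 1, by omega⟩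
        rw [Nat.add_sub_cancel]
        ring

end charsum

section ringlemma
variable {R : Type} [Ring R]

theorem anti_of_sq {a b : R} (ha : a * a = 0) (hb : b * b = 0) (hab : (a + b + a*b) * (a + b + a*b) = 0) :
    a * b = -(b * a) := by
  have e0 : a*b + b*a + b*a*b + a*b*a + a*b*(a*b) = 0 := by
    have : (a + b + a*b) * (a + b + a*b) = a*b + b*a + b*a*b + a*b*a + a*b*(a*b) + (a*a + b*b + a*a*b + a*(b*b)) := by noncomm_ring
    rw [this, ha, hb] at hab
    simpa using hab
  have e1 : a*b*a + a*b*(a*b) = 0 := by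
    have h := congrArg (fun z => a * z) e0
    simp only [mul_zero] at h
    have : a * (a*b + b*a + b*a*b + a*b*a + a*b*(a*b)) = a*a*b + a*b*a + a*b*(a*b) + a*a*(b*a) + a*a*(b*(a*b)) := by noncomm_ring
    rw [this, ha] at h
    simpa using h
  have e2 : a*b*(a*b) = 0 := by
    have h := congrArg (fun z => z * b) e1
    simp only [zero_mul] at h
    have : (a*b*a + a*b*(a*b)) * b = a*b*(a*b) + a*b*a*(b*b) := by noncomm_ring
    rw [this, hb, mul_zero, add_zero] at h
    exact h
  have e3 : a*b*a = 0 := by rw [e2, add_zero] at e1; exact e1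
  have e4 : b*a*b = 0 := by
    rw [e2, e3, add_zero, add_zero] at e0
    have h := congrArg (fun z => z * b) e0
    simp only [zero_mul] at h
    have : (a*b + b*a + b*a*b) * b = b*a*b + (a*(b*b) + b*a*(b*b)) := by noncomm_ring
    rw [this, hb] at h
    simpa using h
  rw [e2, e3, e4] at e0
  simp only [add_zero] at e0
  exact eq_neg_of_add_eq_zero_left e0

theorem tri_of_anti {a b c : R} (h3 : ∀ x : R, x + x + x = 0) (hac : a * c = -(c * a)) (hbc : b * c = -(c * b))
    (hh : (a + b + a*b) * c = -(c * (a + b + a*b))) : a * b * c = 0 := by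
  have e1 : a*b*c = -(c*a*b) := by
    have e : (a + b + a*b) * c = a*c + b*c + a*b*c := by noncomm_ring
    have e' : -(c * (a + b + a*b)) = -(c*a) + -(c*b) + -(c*a*b) := by noncomm_ring
    rw [e, e', hac, hbc] at hh
    exact add_left_cancel hh
  have e2 : c*a*b = a*b*c := by
    have h1 : c*a = -(a*c) := by rw [hac, neg_neg]
    have h2 : c*b = -(b*c) := by rw [hbc, neg_neg]
    calc c*a*b = -(a*c)*b := by rw [h1]
      _ = -(a*(c*b)) := by noncomm_ring
      _ = a*b*c := by rw [h2]; noncomm_ring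
  rw [e2] at e1
  have e3 : a*b*c + a*b*c = 0 := by
    nth_rewrite 1 [e1]
    exact neg_add_cancel _
  have e4 := h3 (a*b*c)
  rw [e3, zero_add] at e4
  exact e4

variable {G : Type} [Group G]

theorem rel_anti (f : G →* R) (hsq : ∀ g, (f g - 1) * (f g - 1) = 0) (g h : G) :
    (f g - 1) * (f h - 1) = -((f h - 1) * (f g - 1)) := by
  apply anti_of_sq (hsq g) (hsq h)
  have e : (f g - 1) + (f h - 1) + (f g - 1) * (f h - 1) = f (g*h) - 1 := by
    rw [map_mul]; noncomm_ring
  rw [e]
  exact hsq _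

theorem rel_tri (h3 : ∀ x : R, x + x + x = 0) (f : G →* R) (hsq : ∀ g, (f g - 1) * (f g - 1) = 0) (g h l : G) :
    (f g - 1) * (f h - 1) * (f l - 1) = 0 := by
  apply tri_of_anti h3 (rel_anti f hsq g l) (rel_anti f hsq h l)
  have e : (f g - 1) + (f h - 1) + (f g - 1) * (f h - 1) = f (g*h) - 1 := by
    rw [map_mul]; noncomm_ring
  rw [e]
  exact rel_anti f hsq _ _

end ringlemma

/-- groups in which every cube is trivial -/
class Exp3 (Ω : Type) [Group Ω] : Prop where
  cube : ∀ x : Ω, x^3 = 1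

section exp3
variable {Ω : Type} [Group Ω] [Exp3 Ω]

theorem inv_eq_sq (x : Ω) : x⁻¹ = x * x := by
  have h := Exp3.cube x
  rw [pow_succ, pow_two] at h
  exact inv_eq_of_mul_eq_one_left h

theorem conj_comm (x y : Ω) : x * (y * x * y⁻¹) = (y * x * y⁻¹) * x := by
  have h1 : x * y * x = y⁻¹ * x⁻¹ * y⁻¹ := by
    have h := Exp3.cube (x * y)
    rw [pow_succ, pow_two] at h
    have h' : (x * y * x) * (y * x * y) = 1 := by rw [← h]; group
    rw [eq_inv_of_mul_eq_one_left h']
    group
  have h2 : x * y⁻¹ * x = y * x⁻¹ * y := by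
    have h := Exp3.cube (x * y⁻¹)
    rw [pow_succ, pow_two] at h
    have h' : (x * y⁻¹ * x) * (y⁻¹ * x * y⁻¹) = 1 := by rw [← h]; group
    rw [eq_inv_of_mul_eq_one_left h']
    group
  have h3 : y⁻¹ = y * y := inv_eq_sq y
  calc x * (y * x * y⁻¹) = (x * y * x) * y⁻¹ := by group
    _ = y⁻¹ * x⁻¹ * (y⁻¹ * y⁻¹) := by rw [h1]; group
    _ = y⁻¹ * x⁻¹ * y := by
      have : y⁻¹ * y⁻¹ = y := by
        have := Exp3.cube y
        rw [pow_succ, pow_two] at this
        rw [h3]
        calc y * y * (y * y) = (y * y * y) * y := by simp only [mul_assoc]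
          _ = y := by rw [this, one_mul]
      rw [this]
    _ = (y * y) * x⁻¹ * y := by rw [h3]
    _ = y * (x * y⁻¹ * x) := by rw [h2]; group
    _ = (y * x * y⁻¹) * x := by group

/-- group generated by the conjugates of one element -/
def Cgrp (H : Subgroup Ω) (σ : Ω) : Subgroup Ω := Subgroup.closure {x | ∃ g ∈ H, x = g * σ * g⁻¹}

theorem Cgrp_comm (H : Subgroup Ω) (σ : Ω) (a b : Ω) (ha : a ∈ Cgrp H σ) (hb : b ∈ Cgrp H σ) : a * b = b * a := by
  have hgen : ∀ x ∈ {x | ∃ g ∈ H, x = g * σ * g⁻¹}, ∀ y ∈ {x | ∃ g ∈ H, x = g * σ * g⁻¹}, x * y = y * x := by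
    rintro x ⟨g, _, rfl⟩ y ⟨h, _, rfl⟩
    have h1 := conj_comm σ (g⁻¹ * h)
    calc g * σ * g⁻¹ * (h * σ * h⁻¹) = g * (σ * ((g⁻¹ * h) * σ * (g⁻¹ * h)⁻¹)) * g⁻¹ := by group
      _ = g * (((g⁻¹ * h) * σ * (g⁻¹ * h)⁻¹) * σ) * g⁻¹ := by rw [h1]
      _ = h * σ * h⁻¹ * (g * σ * g⁻¹) := by group
  have hz : Cgrp H σ ≤ Subgroup.centralizer (Cgrp H σ : Set Ω) := by
    unfold Cgrp
    rw [Subgroup.closure_le]
    intro x hx
    rw [SetLike.mem_coe, Subgroup.mem_centralizer_iff]
    intro y hy
    induction hy using Subgroup.closure_induction with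
    | mem y hy => exact hgen y hy x hx
    | one => rw [one_mul, mul_one]
    | mul y z _ _ hy hz => rw [mul_assoc, hz, ← mul_assoc, hy, mul_assoc]
    | inv y _ hy =>
      rw [inv_mul_eq_iff_eq_mul, ← mul_assoc, eq_mul_inv_iff_mul_eq]
      exact hy.symm
  have := hz hb
  rw [Subgroup.mem_centralizer_iff] at this
  exact this a ha

instance (H : Subgroup Ω) (σ : Ω) : CommGroup (Cgrp H σ) :=
  { (inferInstance : Group (Cgrp H σ)) with
    mul_comm := fun a b => Subtype.ext (Cgrp_comm H σ a b a.2 b.2) }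

theorem Cgrp_conj (H : Subgroup Ω) (σ : Ω) (g : Ω) (hg : g ∈ H) (x : Ω) (hx : x ∈ Cgrp H σ) : g * x * g⁻¹ ∈ Cgrp H σ := by
  unfold Cgrp at hx ⊢
  induction hx using Subgroup.closure_induction with
  | mem y hy =>
    obtain ⟨h, hh, rfl⟩ := hy
    apply Subgroup.subset_closure
    exact ⟨g * h, H.mul_mem hg hh, by group⟩
  | one => rw [mul_one, mul_inv_cancel]; exact Subgroup.one_mem _
  | mul y z _ _ hy hz =>
    have : g * (y * z) * g⁻¹ = (g * y * g⁻¹) * (g * z * g⁻¹) := by group
    rw [this]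
    exact Subgroup.mul_mem _ hy hz
  | inv y _ hy =>
    have : g * y⁻¹ * g⁻¹ = (g * y * g⁻¹)⁻¹ := by group
    rw [this]
    exact Subgroup.inv_mem _ hy

/-- conjugation -/
def cj (H : Subgroup Ω) (σ : Ω) (g : H) : Cgrp H σ →* Cgrp H σ where
  toFun x := ⟨g.1 * x.1 * g.1⁻¹, Cgrp_conj H σ g.1 g.2 x.1 x.2⟩
  map_one' := Subtype.ext (by simp)
  map_mul' a b := Subtype.ext (by simp)

/-- the action by conjugation, written additively -/
def cjA (H : Subgroup Ω) (σ : Ω) : H →* AddMonoid.End (Additive (Cgrp H σ)) where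
  toFun g := MonoidHom.toAdditive (cj H σ g)
  map_one' := by
    refine AddMonoidHom.ext fun x => ?_
    apply Additive.toMul.injective
    apply Subtype.ext
    show (1:Ω) * x.toMul.1 * (1:Ω)⁻¹ = x.toMul.1
    simp
  map_mul' a b := by
    refine AddMonoidHom.ext fun x => ?_
    apply Additive.toMul.injective
    apply Subtype.ext
    show (a.1 * b.1) * x.toMul.1 * (a.1 * b.1)⁻¹ = a.1 * (b.1 * x.toMul.1 * b.1⁻¹) * a.1⁻¹
    group

theorem cjA_apply (H : Subgroup Ω) (σ : Ω) (g : H) (v : Additive (Cgrp H σ)) :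
    ((cjA H σ g v).toMul : Ω) = g.1 * (v.toMul : Ω) * g.1⁻¹ := rfl

theorem add_val (H : Subgroup Ω) (σ : Ω) (v w : Additive (Cgrp H σ)) :
    ((v + w).toMul : Ω) = (v.toMul : Ω) * (w.toMul : Ω) := rfl

theorem neg_val (H : Subgroup Ω) (σ : Ω) (v : Additive (Cgrp H σ)) :
    ((-v).toMul : Ω) = (v.toMul : Ω)⁻¹ := rfl

theorem zero_val (H : Subgroup Ω) (σ : Ω) : ((0 : Additive (Cgrp H σ)).toMul : Ω) = 1 := rfl

theorem val_inj (H : Subgroup Ω) (σ : Ω) {v w : Additive (Cgrp H σ)} (h : (v.toMul : Ω) = (w.toMul : Ω)) : v = w :=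
  Additive.toMul.injective (Subtype.ext h)

theorem three_zero (H : Subgroup Ω) (σ : Ω) (v : Additive (Cgrp H σ)) : v + v + v = 0 := by
  apply val_inj
  rw [add_val, add_val, zero_val]
  have := Exp3.cube (v.toMul : Ω)
  rw [pow_succ, pow_two] at this
  exact this

theorem threeEnd' (H : Subgroup Ω) (σ : Ω) (f : AddMonoid.End (Additive (Cgrp H σ))) : f + f + f = 0 := by
  ext v
  exact congrArg _ (three_zero H σ (f v))

theorem cjA_sq (H : Subgroup Ω) (σ : Ω) (g : H) : (cjA H σ g - 1) * (cjA H σ g - 1) = 0 := by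
  have h1 : cjA H σ g * cjA H σ g + cjA H σ g + 1 = 0 := by
    rw [← map_mul]
    ext v
    apply congrArg
    show cjA H σ (g*g) v + cjA H σ g v + v = 0
    have h2 : cjA H σ (g*g) v + cjA H σ g v + v = v + (cjA H σ g v + cjA H σ (g*g) v) := by abel
    rw [h2]
    apply val_inj
    rw [add_val, add_val, cjA_apply, cjA_apply, zero_val]
    set x : Ω := (v.toMul : Ω)
    have h := Exp3.cube (x * g.1)
    have hg := Exp3.cube g.1
    have h4 : ((g*g : H) : Ω) = g.1 * g.1 := rfl
    rw [h4]
    rw [pow_succ, pow_two] at h hg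
    have h5 : x * (g.1 * x * g.1⁻¹ * ((g.1 * g.1) * x * (g.1 * g.1)⁻¹)) = (x * g.1 * (x * g.1) * (x * g.1)) * (g.1 * g.1 * g.1)⁻¹ := by
      group
    rw [h5, h, hg]
    simp
  have h2 : (cjA H σ g - 1) * (cjA H σ g - 1) = (cjA H σ g * cjA H σ g + cjA H σ g + 1) - (cjA H σ g + cjA H σ g + cjA H σ g) := by
    rw [sub_mul, mul_sub, mul_one, one_mul]
    abel
  rw [h2, h1, threeEnd', sub_zero]

/-- the differences -/
def Dm (H : Subgroup Ω) (σ : Ω) {I : Type} (hh : I → H) : I → AddMonoid.End (Additive (Cgrp H σ)) := fun i => cjA H σ (hh i) - 1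

theorem Dm_quad (H : Subgroup Ω) (σ : Ω) {I : Type} (hh : I → H) : Quad (Dm H σ hh) where
  three := three_zero H σ
  dsq i := cjA_sq H σ (hh i)
  anti i j := rel_anti (cjA H σ) (cjA_sq H σ) _ _
  tri i j l := rel_tri (threeEnd' H σ) (cjA H σ) (cjA_sq H σ) _ _ _

/-- base element -/
def xz (H : Subgroup Ω) (σ : Ω) : Additive (Cgrp H σ) :=
  Additive.ofMul ⟨σ, Subgroup.subset_closure ⟨1, H.one_mem, by simp⟩⟩

theorem xz_val (H : Subgroup Ω) (σ : Ω) : ((xz H σ).toMul : Ω) = σ := rfl

theorem gen_top (H : Subgroup Ω) (σ : Ω) {I : Type} (hh : I → H) (hH : H ≤ Subgroup.closure (Set.range (fun i => (hh i : Ω)))) :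
    AddSubgroup.closure (genSet (Dm H σ hh) (xz H σ)) = ⊤ := by
  set W := AddSubgroup.closure (genSet (Dm H σ hh) (xz H σ)) with hW
  have hstab : ∀ i, ∀ w ∈ W, Dm H σ hh i w ∈ W := by
    intro i w hw
    induction hw using AddSubgroup.closure_induction with
    | mem v hv =>
      rcases hv with rfl | ⟨j, rfl⟩ | ⟨j, l, rfl⟩
      · exact AddSubgroup.subset_closure (Or.inr (Or.inl ⟨i, rfl⟩))
      · exact AddSubgroup.subset_closure (Or.inr (Or.inr ⟨i, j, rfl⟩))
      · have : Dm H σ hh i ((Dm H σ hh j * Dm H σ hh l) (xz H σ)) = (Dm H σ hh i * Dm H σ hh j * Dm H σ hh l) (xz H σ) := rfl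
        rw [this, (Dm_quad H σ hh).tri]
        exact W.zero_mem
    | zero => rw [map_zero]; exact W.zero_mem
    | add x y _ _ hx hy => rw [map_add]; exact W.add_mem hx hy
    | neg x _ hx => rw [map_neg]; exact W.neg_mem hx
  have hst2 : ∀ g : Ω, g ∈ Subgroup.closure (Set.range (fun i => (hh i : Ω))) → ∀ hg : g ∈ H, ∀ w ∈ W, cjA H σ ⟨g, hg⟩ w ∈ W := by
    have hle : Subgroup.closure (Set.range (fun i => (hh i : Ω))) ≤ H := by
      rw [Subgroup.closure_le]
      rintro _ ⟨i, rfl⟩
      exact (hh i).2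
    intro g hg
    induction hg using Subgroup.closure_induction with
    | mem y hy =>
      obtain ⟨i, rfl⟩ := hy
      intro hg w hw
      have e : cjA H σ ⟨(hh i : Ω), hg⟩ w = w + Dm H σ hh i w := by
        have : Dm H σ hh i w = cjA H σ (hh i) w - w := rfl
        rw [this]
        show cjA H σ (hh i) w = _
        abel
      rw [e]
      exact W.add_mem hw (hstab i w hw)
    | one =>
      intro hg w hw
      have : (⟨1, hg⟩ : H) = 1 := rfl
      rw [this, map_one]
      exact hw
    | mul x y hx hy ihx ihy =>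
      intro hg w hw
      have : (⟨x * y, hg⟩ : H) = ⟨x, hle hx⟩ * ⟨y, hle hy⟩ := rfl
      rw [this, map_mul]
      exact ihx _ _ (ihy _ w hw)
    | inv x hx ihx =>
      intro hg w hw
      have : (⟨x⁻¹, hg⟩ : H) = ⟨x, hle hx⟩ * ⟨x, hle hx⟩ := Subtype.ext (inv_eq_sq x)
      rw [this, map_mul]
      exact ihx _ _ (ihx _ w hw)
  rw [eq_top_iff]
  intro v _
  have hv : (v.toMul : Ω) ∈ Cgrp H σ := v.toMul.2
  have key : ∀ x : Ω, ∀ hx : x ∈ Cgrp H σ, Additive.ofMul (⟨x, hx⟩ : Cgrp H σ) ∈ W := by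
    intro x hx
    have hx' := hx
    unfold Cgrp at hx'
    induction hx' using Subgroup.closure_induction with
    | mem y hy =>
      obtain ⟨g, hg, rfl⟩ := hy
      have : Additive.ofMul (⟨g * σ * g⁻¹, hx⟩ : Cgrp H σ) = cjA H σ ⟨g, hg⟩ (xz H σ) := rfl
      rw [this]
      exact hst2 g (hH hg) hg _ (AddSubgroup.subset_closure (Or.inl rfl))
    | one => exact W.zero_mem
    | mul x y hx1 hy1 ihx ihy =>
      have : Additive.ofMul (⟨x * y, hx⟩ : Cgrp H σ) = Additive.ofMul (⟨x, hx1⟩ : Cgrp H σ) + Additive.ofMul (⟨y, hy1⟩ : Cgrp H σ) := rfl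
      rw [this]
      exact W.add_mem (ihx _) (ihy _)
    | inv x hx1 ihx =>
      have : Additive.ofMul (⟨x⁻¹, hx⟩ : Cgrp H σ) = -Additive.ofMul (⟨x, hx1⟩ : Cgrp H σ) := rfl
      rw [this]
      exact W.neg_mem (ihx _)
  exact key _ hv

theorem V_finite (H : Subgroup Ω) (σ : Ω) {I : Type} [Finite I] (hh : I → H) (hH : H ≤ Subgroup.closure (Set.range (fun i => (hh i : Ω)))) :
    Finite (Additive (Cgrp H σ)) := by
  have hfin : (genSet (Dm H σ hh) (xz H σ)).Finite := by
    have : genSet (Dm H σ hh) (xz H σ) ⊆ ({xz H σ} ∪ Set.range (fun i => Dm H σ hh i (xz H σ))) ∪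
        Set.range (fun p : I × I => (Dm H σ hh p.1 * Dm H σ hh p.2) (xz H σ)) := by
      intro v hv
      rcases hv with rfl | ⟨j, rfl⟩ | ⟨j, l, rfl⟩
      · left; left; rfl
      · left; right; exact ⟨j, rfl⟩
      · right; exact ⟨(j, l), rfl⟩
    apply Set.Finite.subset _ this
    exact ((Set.finite_singleton _).union (Set.finite_range _)).union (Set.finite_range _)
  have : AddGroup.FG (Additive (Cgrp H σ)) := by
    rw [AddGroup.fg_iff]
    exact ⟨_, gen_top H σ hh hH, hfin⟩
  apply AddCommGroup.finite_of_fg_isAddTorsion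
  intro v
  rw [isOfFinAddOrder_iff_nsmul_eq_zero]
  refine ⟨3, by norm_num, ?_⟩
  have := three_zero H σ v
  rw [← this]
  abel

end exp3

section avequiv
variable {A B E : Type*} [Fintype A] [Fintype B] [AddCommMonoid E] [Module ℝ E]

theorem Av_equiv (f : A ≃ B) (n : ℕ) (F : List B → E) : Av n F = Av n (fun u : List A => F (u.map f)) := by
  induction n generalizing F with
  | zero => rfl
  | succ n ih =>
    rw [Av_succ, Av_succ, Fintype.card_congr f]
    congr 1
    rw [← Equiv.sum_comp f]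
    apply Finset.sum_congr rfl
    intro c _
    rw [ih]
    rfl

end avequiv

section words
variable {Ω : Type} [Group Ω] {d : ℕ}

/-- letters -/
def sl (s : Fin d → Ω) (c : Fin d × Bool) : Ω := if c.2 then s c.1 else (s c.1)⁻¹

/-- value of a word -/
def wv (s : Fin d → Ω) (u : List (Fin d × Bool)) : Ω := (u.map (sl s)).prod

theorem wv_nil (s : Fin d → Ω) : wv s [] = 1 := rfl

theorem wv_cons (s : Fin d → Ω) (c : Fin d × Bool) (u : List (Fin d × Bool)) : wv s (c :: u) = sl s c * wv s u := by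
  unfold wv; rw [List.map_cons, List.prod_cons]

open Classical in
/-- walkLaw of the image of the walk -/
noncomputable def pr (s : Fin d → Ω) (e : Ω →* Ω) (t : ℕ) (x : Ω) : ℝ :=
  Av t (fun u : List (Fin d × Bool) => if e (wv s u) = x then (1:ℝ) else 0)

/-- distance of the image of the walk to uniform on the range -/
noncomputable def dst (s : Fin d → Ω) (e : Ω →* Ω) [Fintype e.range] (t : ℕ) : ℝ :=
  ∑ x : e.range, |pr s e t x - 1/(Fintype.card e.range : ℝ)|

end words

section level
variable {Ω : Type} [Group Ω] [Exp3 Ω] {d : ℕ}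

/-- a level: the map `e` kills one more letter than `e'` -/
structure Lev (s : Fin d → Ω) (e e' : Ω →* Ω) (k : Fin d) : Prop where
  gen : Subgroup.closure (Set.range s) = ⊤
  idem : ∀ x, e (e x) = e x
  idem' : ∀ x, e' (e x) = e x
  k0 : e (s k) = 1
  k1 : e' (s k) = s k
  other : ∀ i, i ≠ k → e' (s i) = e (s i)

variable {s : Fin d → Ω} {e e' : Ω →* Ω} {k : Fin d} (L : Lev s e e' k)

/-- the index type -/
abbrev Ix (k : Fin d) : Type := {i : Fin d // i ≠ k}

/-- images of the letters -/
def hx (s : Fin d → Ω) (e : Ω →* Ω) (k : Fin d) (i : Ix k) : e.range := ⟨e (s i.1), ⟨s i.1, rfl⟩⟩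

/-- relabelling of the letters -/
def th (k : Fin d) : Option (Ix k) × Bool ≃ Fin d × Bool := (Equiv.optionSubtypeNe k).prodCongr (Equiv.refl Bool)

theorem th_none (k : Fin d) (b : Bool) : th k (none, b) = (k, b) := rfl

theorem th_some (k : Fin d) (i : Ix k) (b : Bool) : th k (some i, b) = (i.1, b) := rfl

/-- projection of words -/
def gam (s : Fin d → Ω) (e : Ω →* Ω) (k : Fin d) (b : List (Ix k × Bool)) : e.range :=
  ⟨e (wv s (b.map (fun c => (c.1.1, c.2)))), ⟨_, rfl⟩⟩

theorem act_val (H : Subgroup Ω) (σ : Ω) {I : Type} (hh : I → H) (i : I) (b : Bool) (v : Additive (Cgrp H σ)) :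
    ((act (Dm H σ hh) (i, b) v).toMul : Ω) = (if b then (hh i : Ω) else (hh i : Ω)⁻¹) * (v.toMul : Ω) *
      (if b then (hh i : Ω) else (hh i : Ω)⁻¹)⁻¹ := by
  cases b with
  | true =>
    rw [act_true_apply]
    have : v + Dm H σ hh i v = cjA H σ (hh i) v := by
      have h1 : Dm H σ hh i v = cjA H σ (hh i) v - v := rfl
      rw [h1]; abel
    rw [this, cjA_apply]
    rfl
  | false =>
    rw [act_false_apply]
    have : v - Dm H σ hh i v = cjA H σ ((hh i)⁻¹) v := by
      have h1 : (1 - Dm H σ hh i) * (cjA H σ (hh i)) = 1 := by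
        have h2 := cjA_sq H σ (hh i)
        have h3 : Dm H σ hh i = cjA H σ (hh i) - 1 := rfl
        have h4 : (1 - Dm H σ hh i) * (cjA H σ (hh i)) = 1 - (cjA H σ (hh i) - 1) * (cjA H σ (hh i) - 1) := by
          rw [h3]
          rw [sub_mul, one_mul, sub_mul, one_mul, mul_sub, sub_mul, mul_one, one_mul]
          abel
        rw [h4, h2, sub_zero]
      have h2 : (cjA H σ (hh i)) * (cjA H σ ((hh i)⁻¹)) = 1 := by
        rw [← map_mul, mul_inv_cancel, map_one]
      have h3 : (1 - Dm H σ hh i) = cjA H σ ((hh i)⁻¹) := by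
        calc (1 - Dm H σ hh i) = (1 - Dm H σ hh i) * ((cjA H σ (hh i)) * (cjA H σ ((hh i)⁻¹))) := by rw [h2, mul_one]
          _ = _ := by rw [← mul_assoc, h1, one_mul]
      rw [← h3]
      rfl
    rw [this, cjA_apply]
    rfl

include L

theorem Lev.wv_split (u : List (Option (Ix k) × Bool)) :
    e' (wv s (u.map (th k))) = ((kap (Dm e.range (s k) (hx s e k)) (xz e.range (s k)) u).toMul : Ω) * e (wv s (u.map (th k))) := by
  induction u with
  | nil =>
    rw [List.map_nil, wv_nil, map_one, map_one, mul_one]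
    rfl
  | cons c u ih =>
    rw [List.map_cons, wv_cons, map_mul, map_mul, ih, kap, add_val]
    set κ := kap (Dm e.range (s k) (hx s e k)) (xz e.range (s k)) u
    rcases c with ⟨_ | i, b⟩
    · rw [th_none]
      have h1 : e' (sl s (k, b)) = ((vO (xz e.range (s k)) ((none, b) : Option (Ix k) × Bool)).toMul : Ω) := by
        cases b with
        | true => exact L.k1
        | false =>
          show e' ((s k)⁻¹) = _
          rw [map_inv, L.k1]
          rfl
      have h2 : e (sl s (k, b)) = 1 := by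
        cases b with
        | true => exact L.k0
        | false =>
          show e ((s k)⁻¹) = _
          rw [map_inv, L.k0, inv_one]
      rw [h1, h2, one_mul, ← mul_assoc]
      rfl
    · rw [th_some]
      have h1 : e' (sl s (i.1, b)) = e (sl s (i.1, b)) := by
        unfold sl
        split_ifs
        · exact L.other _ i.2
        · rw [map_inv, map_inv, L.other _ i.2]
      have h2 : ((actO (Dm e.range (s k) (hx s e k)) (some i, b) κ).toMul : Ω) =
          e (sl s (i.1, b)) * (κ.toMul : Ω) * (e (sl s (i.1, b)))⁻¹ := by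
        have := act_val e.range (s k) (hx s e k) i b κ
        show ((act (Dm e.range (s k) (hx s e k)) (i, b) κ).toMul : Ω) = _
        rw [this]
        have h3 : (if b = true then ((hx s e k i : e.range) : Ω) else ((hx s e k i : e.range) : Ω)⁻¹) = e (sl s (i.1, b)) := by
          unfold sl hx
          cases b with
          | true => simp
          | false => simp
        rw [h3]
      have h3 : ((vO (xz e.range (s k)) ((some i, b) : Option (Ix k) × Bool)).toMul : Ω) = 1 := rfl
      rw [h1, h2, h3]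
      group


theorem Lev.gam_strip (u : List (Option (Ix k) × Bool)) : ((gam s e k (strip u) : e.range) : Ω) = e (wv s (u.map (th k))) := by
  show e (wv s ((strip u).map (fun c => (c.1.1, c.2)))) = e (wv s (u.map (th k)))
  induction u with
  | nil => rfl
  | cons c u ih =>
    rcases c with ⟨_ | i, b⟩
    · rw [strip, ih, List.map_cons, wv_cons, th_none, map_mul]
      have h2 : e (sl s (k, b)) = 1 := by
        cases b with
        | true => exact L.k0
        | false =>
          show e ((s k)⁻¹) = _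
          rw [map_inv, L.k0, inv_one]
      rw [h2, one_mul]
    · rw [strip, List.map_cons, wv_cons, List.map_cons, wv_cons, map_mul, map_mul, th_some, ih]

theorem Lev.C_ker (x : Ω) (hx' : x ∈ Cgrp e.range (s k)) : e x = 1 := by
  have : Cgrp e.range (s k) ≤ e.ker := by
    unfold Cgrp
    rw [Subgroup.closure_le]
    rintro x ⟨g, _, rfl⟩
    rw [SetLike.mem_coe, MonoidHom.mem_ker, map_mul, map_mul, L.k0, mul_one, map_inv, mul_inv_cancel]
  exact MonoidHom.mem_ker.1 (this hx')

theorem Lev.range_le : e.range ≤ e'.range := by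
  rintro x ⟨y, rfl⟩
  exact ⟨e y, L.idem' y⟩

theorem Lev.C_le : Cgrp e.range (s k) ≤ e'.range := by
  unfold Cgrp
  rw [Subgroup.closure_le]
  rintro x ⟨g, hg, rfl⟩
  have h1 := L.range_le hg
  have h2 : s k ∈ e'.range := ⟨s k, L.k1⟩
  exact e'.range.mul_mem (e'.range.mul_mem h1 h2) (e'.range.inv_mem h1)

/-- the product decomposition -/
def Lev.Phi (p : Additive (Cgrp e.range (s k)) × e.range) : e'.range :=
  ⟨(p.1.toMul : Ω) * (p.2 : Ω), e'.range.mul_mem (L.C_le p.1.toMul.2) (L.range_le p.2.2)⟩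

theorem Lev.e_fix (h : e.range) : e (h : Ω) = h := by
  obtain ⟨_, ⟨y, rfl⟩⟩ := h
  exact L.idem y

theorem Lev.Phi_bij : Function.Bijective L.Phi := by
  constructor
  · rintro ⟨v, h⟩ ⟨v', h'⟩ heq
    have h1 : (v.toMul : Ω) * (h : Ω) = (v'.toMul : Ω) * (h' : Ω) := congrArg Subtype.val heq
    have h2 := congrArg e h1
    rw [map_mul, map_mul, L.C_ker _ v.toMul.2, L.C_ker _ v'.toMul.2, one_mul, one_mul, L.e_fix, L.e_fix] at h2
    rw [h2] at h1
    have h3 := mul_right_cancel h1
    rw [Prod.mk.injEq]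
    exact ⟨val_inj _ _ h3, Subtype.ext h2⟩
  · rintro ⟨_, ⟨y, rfl⟩⟩
    have key : ∀ y : Ω, e' y * (e y)⁻¹ ∈ Cgrp e.range (s k) := by
      intro y
      have hy : y ∈ Subgroup.closure (Set.range s) := by rw [L.gen]; exact Subgroup.mem_top y
      have hmul : ∀ x y : Ω, e' x * (e x)⁻¹ ∈ Cgrp e.range (s k) → e' y * (e y)⁻¹ ∈ Cgrp e.range (s k) →
          e' (x * y) * (e (x * y))⁻¹ ∈ Cgrp e.range (s k) := by
        intro x y hx hy
        have : e' (x * y) * (e (x * y))⁻¹ = (e' x * (e x)⁻¹) * (e x * (e' y * (e y)⁻¹) * (e x)⁻¹) := by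
          rw [map_mul, map_mul]; group
        rw [this]
        exact Subgroup.mul_mem _ hx (Cgrp_conj e.range (s k) (e x) ⟨x, rfl⟩ _ hy)
      induction hy using Subgroup.closure_induction with
      | mem y hy =>
        obtain ⟨i, rfl⟩ := hy
        by_cases hi : i = k
        · rw [hi, L.k0, L.k1, inv_one, mul_one]
          exact (xz e.range (s k)).toMul.2
        · rw [L.other i hi, mul_inv_cancel]
          exact Subgroup.one_mem _
      | one => rw [map_one, map_one, inv_one, mul_one]; exact Subgroup.one_mem _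
      | mul x y _ _ hx hy => exact hmul x y hx hy
      | inv x _ hx =>
        rw [inv_eq_sq x]
        exact hmul x x hx hx
    refine ⟨(Additive.ofMul ⟨_, key y⟩, ⟨e y, ⟨y, rfl⟩⟩), ?_⟩
    apply Subtype.ext
    show e' y * (e y)⁻¹ * e y = e' y
    group

theorem Lev.hgen : e.range ≤ Subgroup.closure (Set.range (fun i => (hx s e k i : Ω))) := by
  rintro _ ⟨y, rfl⟩
  have hy : y ∈ Subgroup.closure (Set.range s) := by rw [L.gen]; exact Subgroup.mem_top y
  induction hy using Subgroup.closure_induction with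
  | mem y hy =>
    obtain ⟨i, rfl⟩ := hy
    by_cases hi : i = k
    · rw [hi, L.k0]
      exact Subgroup.one_mem _
    · apply Subgroup.subset_closure
      exact ⟨⟨i, hi⟩, rfl⟩
  | one => rw [map_one]; exact Subgroup.one_mem _
  | mul x y _ _ hx hy => rw [map_mul]; exact Subgroup.mul_mem _ hx hy
  | inv x _ hx => rw [map_inv]; exact Subgroup.inv_mem _ hx

theorem Lev.finite (hfin : Finite e.range) : Finite e'.range := by
  have : Finite (Additive (Cgrp e.range (s k))) := V_finite e.range (s k) (hx s e k) L.hgen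
  exact Finite.of_surjective _ L.Phi_bij.2

theorem Lev.pr_Phi (t : ℕ) (v : Additive (Cgrp e.range (s k))) (h : e.range) :
    pr s e' t (L.Phi (v, h)) = pj (Dm e.range (s k) (hx s e k)) (xz e.range (s k)) (gam s e k) t v h := by
  classical
  unfold pr pj
  rw [Av_equiv (th k)]
  apply Av_congr
  intro u _
  have h1 : (e' (wv s (u.map (th k))) = (L.Phi (v, h) : Ω)) ↔
      (kap (Dm e.range (s k) (hx s e k)) (xz e.range (s k)) u = v ∧ gam s e k (strip u) = h) := by
    have h2 : e' (wv s (u.map (th k))) = (L.Phi (kap (Dm e.range (s k) (hx s e k)) (xz e.range (s k)) u, gam s e k (strip u)) : Ω) := by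
      rw [L.wv_split]
      show _ = _ * ((gam s e k (strip u) : e.range) : Ω)
      rw [L.gam_strip]
    rw [h2]
    constructor
    · intro h3
      have := L.Phi_bij.1 (Subtype.ext h3)
      rw [Prod.mk.injEq] at this
      exact this
    · rintro ⟨rfl, rfl⟩
      rfl
  by_cases hc : e' (wv s (u.map (th k))) = (L.Phi (v, h) : Ω)
  · rw [if_pos hc, if_pos (h1.1 hc)]
  · rw [if_neg hc, if_neg (fun h' => hc (h1.2 h'))]

theorem Lev.pr_pm (t : ℕ) (h : e.range) : pr s e t h = pm (gam s e k) t h := by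
  classical
  unfold pr pm
  rw [Av_equiv (th k)]
  apply Av_congr
  intro u _
  have h1 : (e (wv s (u.map (th k))) = (h : Ω)) ↔ (gam s e k (strip u) = h) := by
    rw [← L.gam_strip]
    exact ⟨fun h => Subtype.ext h, fun h => by rw [h]⟩
  by_cases hc : e (wv s (u.map (th k))) = (h : Ω)
  · rw [if_pos hc, if_pos (h1.1 hc)]
  · rw [if_neg hc, if_neg (fun h' => hc (h1.2 h'))]

theorem Lev.dst_le [Fintype e.range] [Fintype e'.range] [Fintype (Additive (Cgrp e.range (s k)))] (t : ℕ) :
    dst s e' t ≤ (∑ g : e.range, ∑ v : Additive (Cgrp e.range (s k)),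
      |pj (Dm e.range (s k) (hx s e k)) (xz e.range (s k)) (gam s e k) t v g -
        pm (gam s e k) t g / (Fintype.card (Additive (Cgrp e.range (s k))) : ℝ)|) + dst s e t := by
  unfold dst
  have hcard : Fintype.card e'.range = Fintype.card (Additive (Cgrp e.range (s k))) * Fintype.card e.range := by
    rw [← Fintype.card_prod]
    exact (Fintype.card_congr (Equiv.ofBijective _ L.Phi_bij)).symm
  set cV : ℝ := (Fintype.card (Additive (Cgrp e.range (s k))) : ℝ) with hcV
  have hcV0 : 0 < cV := by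
    have : 0 < Fintype.card (Additive (Cgrp e.range (s k))) := Fintype.card_pos
    rw [hcV]
    exact_mod_cast this
  have hcG : (0:ℝ) < (Fintype.card e.range : ℝ) := by
    have : 0 < Fintype.card e.range := Fintype.card_pos
    exact_mod_cast this
  have h1 : ∑ x : e'.range, |pr s e' t x - 1/(Fintype.card e'.range : ℝ)| =
      ∑ g : e.range, ∑ v : Additive (Cgrp e.range (s k)),
        |pj (Dm e.range (s k) (hx s e k)) (xz e.range (s k)) (gam s e k) t v g - 1/(cV * (Fintype.card e.range : ℝ))| := by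
    rw [← L.Phi_bij.sum_comp, Fintype.sum_prod_type, Finset.sum_comm]
    apply Finset.sum_congr rfl
    intro g _
    apply Finset.sum_congr rfl
    intro v _
    rw [L.pr_Phi, hcard]
    push_cast
    rfl
  rw [h1, ← Finset.sum_add_distrib]
  apply Finset.sum_le_sum
  intro g _
  have h2 : ∀ v ∈ (univ : Finset (Additive (Cgrp e.range (s k)))),
      |pj (Dm e.range (s k) (hx s e k)) (xz e.range (s k)) (gam s e k) t v g - 1/(cV * (Fintype.card e.range : ℝ))| ≤
      |pj (Dm e.range (s k) (hx s e k)) (xz e.range (s k)) (gam s e k) t v g - pm (gam s e k) t g / cV| +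
        (1/cV) * |pr s e t g - 1/(Fintype.card e.range : ℝ)| := by
    intro v _
    rw [← abs_of_pos (by positivity : 0 < 1/cV), ← abs_mul, L.pr_pm]
    have e1 : pj (Dm e.range (s k) (hx s e k)) (xz e.range (s k)) (gam s e k) t v g - 1/(cV * (Fintype.card e.range : ℝ)) =
        (pj (Dm e.range (s k) (hx s e k)) (xz e.range (s k)) (gam s e k) t v g - pm (gam s e k) t g / cV) +
          (1/cV) * (pm (gam s e k) t g - 1/(Fintype.card e.range : ℝ)) := by
      field_simp
      ring
    rw [e1]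
    exact abs_add_le _ _
  refine (Finset.sum_le_sum h2).trans ?_
  rw [Finset.sum_add_distrib, Finset.sum_const, Finset.card_univ, nsmul_eq_mul, ← mul_assoc, ← hcV, mul_one_div_cancel hcV0.ne', one_mul]

end level

theorem qq_eq (d : ℕ) (hd : 2 ≤ d) : qq (d-1) (2*d-1) = 2 * (1 - 1/(d:ℝ))^(2*d-1) := by
  unfold qq
  have hd1 : (2:ℝ) ≤ d := by exact_mod_cast hd
  have e1 : (((2*d-1 : ℕ) : ℝ) + 1) = 2*d := by
    rw [Nat.cast_sub (by omega)]; push_cast; ring
  have e2 : (((d-1 : ℕ) : ℝ)) = d - 1 := by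
    rw [Nat.cast_sub (by omega)]; push_cast; ring
  rw [e1, e2]
  have hd0 : (d:ℝ) ≠ 0 := by positivity
  have e0 : (d:ℝ) - 1 + 1 = d := by ring
  rw [e0]
  have e3 : (1 - 1/(d:ℝ)) = (2*((d:ℝ)-1))/(2*(d:ℝ)) := by
    field_simp
  rw [e3, div_pow, pow_succ]
  field_simp

theorem qq_lower (d : ℕ) (hd : 2 ≤ d) : 1/8 ≤ qq (d-1) (2*d-1) := by
  rw [qq_eq d hd]
  have hd1 : (2:ℝ) ≤ d := by exact_mod_cast hd
  obtain ⟨n, rfl⟩ : ∃ n, d = n + 1 := ⟨d - 1, by omega⟩
  have hn : (1:ℝ) ≤ n := by push_cast at hd1; linarith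
  have h1 : (1 - 1/((n+1 : ℕ):ℝ)) = (1 + 1/(n:ℝ))⁻¹ := by
    push_cast
    field_simp
    ring
  have h2 : Real.exp (-1) ≤ (1 - 1/((n+1 : ℕ):ℝ))^n := by
    rw [h1, inv_pow, Real.exp_neg]
    apply inv_anti₀ (by positivity)
    calc (1 + 1/(n:ℝ))^n ≤ (Real.exp (1/(n:ℝ)))^n := by
          apply pow_le_pow_left₀ (by positivity)
          have := Real.add_one_le_exp (1/(n:ℝ)); linarith
      _ = Real.exp 1 := by
          rw [← Real.exp_nat_mul]
          congr 1
          field_simp
  have h3 : (1:ℝ)/2 ≤ (1 - 1/((n+1 : ℕ):ℝ)) := by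
    push_cast
    rw [le_sub_comm, div_le_iff₀ (by positivity)]
    linarith
  have h4 : (1 - 1/((n+1 : ℕ):ℝ))^(2*(n+1)-1) = ((1 - 1/((n+1 : ℕ):ℝ))^n)^2 * (1 - 1/((n+1 : ℕ):ℝ)) := by
    rw [show 2*(n+1)-1 = n*2+1 by omega, pow_succ, pow_mul]
  rw [h4]
  have h5 : (1:ℝ)/8 ≤ (Real.exp (-1))^2 := by
    rw [Real.exp_neg, inv_pow, one_div]
    apply inv_anti₀ (by positivity)
    have := Real.exp_one_lt_d9
    have h6 := Real.exp_pos 1
    nlinarith
  have h6 : (Real.exp (-1))^2 ≤ ((1 - 1/((n+1 : ℕ):ℝ))^n)^2 := pow_le_pow_left₀ (Real.exp_nonneg _) h2 2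
  nlinarith

theorem qq_upper (d : ℕ) (hd : 2 ≤ d) : qq (d-1) (2*d-1) ≤ 2 := by
  rw [qq_eq d hd]
  have hd1 : (2:ℝ) ≤ d := by exact_mod_cast hd
  have h1 : 1/(d:ℝ) ≤ 1 := by rw [div_le_one (by linarith)]; linarith
  have h2 : 0 ≤ 1/(d:ℝ) := by positivity
  have : (1 - 1/(d:ℝ))^(2*d-1) ≤ 1 := pow_le_one₀ (by linarith) (by linarith)
  linarith

theorem tail_bound (d m₀ : ℕ) (hd : 2 ≤ d) : 2^m₀ * (1 - qq (d-1) (2*d-1)/2)^(32*m₀) ≤ ((1:ℝ)/2)^m₀ := by
  have h1 := qq_lower d hd
  have h2 := qq_upper d hd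
  have h3 : (1 - qq (d-1) (2*d-1)/2)^(32*m₀) ≤ ((15/16:ℝ)^32)^m₀ := by
    rw [← pow_mul]
    exact pow_le_pow_left₀ (by linarith) (by linarith) _
  have h4 : ((15/16:ℝ)^32)^m₀ ≤ (1/4:ℝ)^m₀ := pow_le_pow_left₀ (by positivity) (by norm_num) _
  calc (2:ℝ)^m₀ * (1 - qq (d-1) (2*d-1)/2)^(32*m₀) ≤ 2^m₀ * (1/4)^m₀ := by
        apply mul_le_mul_of_nonneg_left (h3.trans h4) (by positivity)
    _ = (1/2)^m₀ := by rw [← mul_pow]; norm_num

section step
variable {Ω : Type} [Group Ω] [Exp3 Ω] {d : ℕ} {s : Fin d → Ω} {e e' : Ω →* Ω} {k : Fin d} (L : Lev s e e' k)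

theorem card_Ix (k : Fin d) : Fintype.card (Ix k) = d - 1 := by
  have h := Fintype.card_congr (Equiv.optionSubtypeNe k)
  rw [Fintype.card_option, Fintype.card_fin] at h
  have : Fintype.card (Ix k) + 1 = d := h
  omega

include L

theorem Lev.step [Fintype e.range] [Fintype e'.range] (hd : 2 ≤ d) (T m₀ : ℕ) (hT : 1 ≤ T) (hT' : T ≤ d^2)
    (hrA : (1 + 8 * (d:ℝ)^2/T)/(2*d) ≤ 1) {a : ℝ} (ha : 0 < a) :
    dst s e' (2*d*(32*m₀)) ≤ (2 * (1/2)^m₀ + (a + (3^(2*d^2) * ((1 + 8 * (d:ℝ)^2/T)/(2*d))^m₀ +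
      3^(d+1) * (2*(d:ℝ)^2)^T * (157/160)^m₀)/a)/2) + dst s e (2*d*(32*m₀)) := by
  classical
  have hfin : Finite (Additive (Cgrp e.range (s k))) := V_finite e.range (s k) (hx s e k) L.hgen
  letI : Fintype (Additive (Cgrp e.range (s k))) := Fintype.ofFinite _
  refine (L.dst_le _).trans ?_
  apply add_le_add _ le_rfl
  have hcI := card_Ix k
  haveI : Nonempty (Ix k) := by
    rw [← Fintype.card_pos_iff, hcI]; omega
  have hd1 : (2:ℝ) ≤ d := by exact_mod_cast hd
  have hTr : (1:ℝ) ≤ T := by exact_mod_cast hT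
  set D := Dm e.range (s k) (hx s e k) with hD
  set x₀ := xz e.range (s k) with hx0
  have Q : Quad D := Dm_quad e.range (s k) (hx s e k)
  have hgen : AddSubgroup.closure (genSet D x₀) = ⊤ := gen_top e.range (s k) (hx s e k) L.hgen
  set rA : ℝ := (1 + 8 * (d:ℝ)^2/T)/(2*d) with hrAd
  have hrA0 : 0 < rA := by positivity
  have e1 : (((2*d-1 : ℕ) : ℝ) + 1) = 2*d := by
    rw [Nat.cast_sub (by omega)]; push_cast; ring
  have hN : 2*d - 1 + 1 = 2*d := by omega
  have hb := level_bound (D := D) x₀ (gam s e k) (2*d-1) (32*m₀) m₀ (fun ψ => if T ≤ Tn D x₀ ψ then rA else (157/160:ℝ))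
    (by
      intro ψ _
      split_ifs
      · exact hrA0
      · norm_num)
    (by
      intro ψ _
      split_ifs
      · exact hrA
      · norm_num)
    (by
      intro ψ hψ
      by_cases hc : T ≤ Tn D x₀ ψ
      · rw [if_pos hc]
        apply Q.prod_bound x₀ (fun ψ' => T ≤ Tn D x₀ ψ') _ rA hrA0 _ _ ψ hc
        · intro ψ' h c
          rw [Q.Tn_tw]; exact h
        · intro ψ' h
          rw [e1]
          exact Q.phiA x₀ ψ' d hd hcI T (by linarith) (by exact_mod_cast hT') (by exact_mod_cast h)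
      · rw [if_neg hc]
        apply Q.prod_bound x₀ (fun ψ' => Nontriv D x₀ ψ') _ (157/160) (by norm_num) _ _ ψ (Q.nontriv_of_ne x₀ hgen ψ hψ)
        · intro ψ' h c
          exact Q.Nontriv_tw x₀ ψ' c h
        · intro ψ' h
          rw [e1]
          have := Q.phiB x₀ ψ' h d hd hcI
          linarith)
    ha
  rw [hN] at hb
  refine hb.trans ?_
  have hfw := few_windows (I := Ix k) (N := 2*d-1) (Q := Q) (32*m₀)
  rw [hN, hcI] at hfw
  rw [hfw]
  have h1 := tail_bound d m₀ hd
  have h2 := Q.char_sum x₀ hgen d hd hcI T m₀ rA (157/160) hrA0.le (by norm_num)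
  have h3 : (∑ ψ ∈ (univ : Finset (AddChar (Additive (Cgrp e.range (s k))) ℂ)).filter (fun ψ => ψ ≠ 0),
      (if T ≤ Tn D x₀ ψ then rA else (157/160:ℝ))^m₀)/a ≤
      (3^(2*d^2) * rA^m₀ + 3^(d+1) * (2*(d:ℝ)^2)^T * (157/160)^m₀)/a :=
    div_le_div_of_nonneg_right h2 ha.le
  linarith

end step

instance (d : ℕ) : Exp3 (Burnside3 d) where
  cube x := by
    obtain ⟨w, rfl⟩ := PresentedGroup.mk_surjective _ x
    rw [← map_pow]
    exact PresentedGroup.one_of_mem ⟨w, rfl⟩

/-- universal property -/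
def liftB {d : ℕ} {G : Type} [Group G] [Exp3 G] (f : Fin d → G) : Burnside3 d →* G :=
  PresentedGroup.toGroup (f := f) (by
    rintro r ⟨w, rfl⟩
    rw [map_pow]
    exact Exp3.cube _)

theorem liftB_gen {d : ℕ} {G : Type} [Group G] [Exp3 G] (f : Fin d → G) (i : Fin d) : liftB f (burnsideGen d i) = f i :=
  PresentedGroup.toGroup.of _

/-- kill the generators from `k` on -/
def ee (d k : ℕ) : Burnside3 d →* Burnside3 d := liftB (fun i => if i.val < k then burnsideGen d i else 1)

theorem ee_gen (d k : ℕ) (i : Fin d) : ee d k (burnsideGen d i) = if i.val < k then burnsideGen d i else 1 := liftB_gen _ i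

theorem ee_lev (d k : ℕ) (hk : k < d) : Lev (burnsideGen d) (ee d k) (ee d (k+1)) ⟨k, hk⟩ where
  gen := PresentedGroup.closure_range_of _
  idem x := by
    have : (ee d k).comp (ee d k) = ee d k := by
      apply PresentedGroup.ext
      intro i
      show ee d k (ee d k (burnsideGen d i)) = ee d k (burnsideGen d i)
      rw [ee_gen]
      split_ifs with h
      · rw [ee_gen, if_pos h]
      · rw [map_one]
    exact congrArg (fun f : Burnside3 d →* Burnside3 d => f x) this
  idem' x := by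
    have : (ee d (k+1)).comp (ee d k) = ee d k := by
      apply PresentedGroup.ext
      intro i
      show ee d (k+1) (ee d k (burnsideGen d i)) = ee d k (burnsideGen d i)
      rw [ee_gen]
      split_ifs with h
      · rw [ee_gen, if_pos (by omega)]
      · rw [map_one]
    exact congrArg (fun f : Burnside3 d →* Burnside3 d => f x) this
  k0 := by
    rw [ee_gen, if_neg]
    exact lt_irrefl k
  k1 := by
    rw [ee_gen, if_pos]
    exact Nat.lt_succ_self k
  other i hi := by
    rw [ee_gen, ee_gen]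
    have : i.val ≠ k := fun h => hi (Fin.ext h)
    by_cases h : i.val < k
    · rw [if_pos h, if_pos (by omega)]
    · rw [if_neg h, if_neg (by omega)]

theorem ee_zero (d : ℕ) (x : Burnside3 d) : ee d 0 x = 1 := by
  have : ee d 0 = 1 := by
    apply PresentedGroup.ext
    intro i
    show ee d 0 (burnsideGen d i) = 1
    rw [ee_gen, if_neg (by omega)]
  rw [this]; rfl

theorem ee_last (d : ℕ) (x : Burnside3 d) : ee d d x = x := by
  have : ee d d = MonoidHom.id _ := by
    apply PresentedGroup.ext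
    intro i
    show ee d d (burnsideGen d i) = burnsideGen d i
    rw [ee_gen, if_pos i.2]
  rw [this]; rfl

theorem ee_finite (d k : ℕ) (hk : k ≤ d) : Finite (ee d k).range := by
  induction k with
  | zero =>
    have : (ee d 0).range = ⊥ := by
      rw [eq_bot_iff]
      rintro _ ⟨x, rfl⟩
      rw [ee_zero]
      exact Subgroup.mem_bot.2 rfl
    rw [this]
    infer_instance
  | succ k ih =>
    exact (ee_lev d k (by omega)).finite (ih (by omega))

theorem ee_last_range (d : ℕ) : (ee d d).range = ⊤ := by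
  rw [eq_top_iff]
  intro x _
  exact ⟨x, ee_last d x⟩

theorem B3_finite (d : ℕ) : Finite (Burnside3 d) := by
  have h := ee_finite d d le_rfl
  exact Finite.of_surjective (fun x : (ee d d).range => (x : Burnside3 d)) (fun x => ⟨⟨x, ⟨x, ee_last d x⟩⟩, rfl⟩)

theorem dst_zero (d t : ℕ) (hd : 0 < d) [Fintype (ee d 0).range] : dst (burnsideGen d) (ee d 0) t = 0 := by
  classical
  unfold dst
  apply Finset.sum_eq_zero
  intro x _
  have hx : (x : Burnside3 d) = 1 := by
    obtain ⟨_, ⟨y, rfl⟩⟩ := x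
    exact ee_zero d y
  have hcard : Fintype.card (ee d 0).range = 1 := by
    rw [Fintype.card_eq_one_iff]
    refine ⟨1, fun y => ?_⟩
    apply Subtype.ext
    obtain ⟨_, ⟨z, rfl⟩⟩ := y
    exact ee_zero d z
  haveI : Nonempty (Fin d) := ⟨⟨0, hd⟩⟩
  rw [hcard, hx]
  unfold pr
  simp only [ee_zero, if_true]
  rw [Av_const]
  norm_num

theorem dst_iter (d t : ℕ) (hd : 0 < d) (δ : ℝ)
    (hstep : ∀ k : ℕ, ∀ hk : k < d, ∀ (_ : Fintype (ee d k).range) (_ : Fintype (ee d (k+1)).range),
      dst (burnsideGen d) (ee d (k+1)) t ≤ δ + dst (burnsideGen d) (ee d k) t) (k : ℕ) (hk : k ≤ d) :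
    ∀ (_ : Fintype (ee d k).range), dst (burnsideGen d) (ee d k) t ≤ k * δ := by
  induction k with
  | zero =>
    intro inst
    rw [dst_zero d t hd]
    simp
  | succ k ih =>
    intro inst
    have h0 := ee_finite d k (by omega)
    have inst0 : Fintype (ee d k).range := Fintype.ofFinite _
    have h1 := hstep k (by omega) inst0 inst
    have h2 := ih (by omega) inst0
    push_cast
    linarith

/-- the l1 distance for the full group -/
theorem dst_full (d t : ℕ) [Fintype (Burnside3 d)] [Fintype (ee d d).range] :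
    dst (burnsideGen d) (ee d d) t = ∑ x : Burnside3 d, |pr (burnsideGen d) (MonoidHom.id _) t x - 1/(Fintype.card (Burnside3 d) : ℝ)| := by
  classical
  unfold dst
  have hb : Function.Bijective (fun x : (ee d d).range => (x : Burnside3 d)) :=
    ⟨Subtype.val_injective, fun x => ⟨⟨x, ⟨x, ee_last d x⟩⟩, rfl⟩⟩
  rw [← hb.sum_comp (fun x => |pr (burnsideGen d) (MonoidHom.id _) t x - 1/(Fintype.card (Burnside3 d) : ℝ)|)]
  have hcard : Fintype.card (ee d d).range = Fintype.card (Burnside3 d) := Fintype.card_congr (Equiv.ofBijective _ hb)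
  rw [hcard]
  apply Finset.sum_congr rfl
  intro x _
  unfold pr
  simp only [ee_last, MonoidHom.id_apply]

theorem upper_main (d : ℕ) (hd : 2 ≤ d) (T m₀ : ℕ) (hT : 1 ≤ T) (hT' : T ≤ d^2)
    (hrA : (1 + 8 * (d:ℝ)^2/T)/(2*d) ≤ 1) {a : ℝ} (ha : 0 < a) [Fintype (Burnside3 d)] :
    ∑ x : Burnside3 d, |pr (burnsideGen d) (MonoidHom.id _) (2*d*(32*m₀)) x - 1/(Fintype.card (Burnside3 d) : ℝ)| ≤
      d * (2 * (1/2)^m₀ + (a + (3^(2*d^2) * ((1 + 8 * (d:ℝ)^2/T)/(2*d))^m₀ +
      3^(d+1) * (2*(d:ℝ)^2)^T * (157/160)^m₀)/a)/2) := by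
  classical
  have h0 := ee_finite d d le_rfl
  have inst0 : Fintype (ee d d).range := Fintype.ofFinite _
  rw [← dst_full d]
  apply dst_iter d _ (by omega) _ _ d le_rfl
  intro k hk i1 i2
  exact (ee_lev d k hk).step hd T m₀ hT hT' hrA ha

/-- a group of exponent 3 and class 3 with many triple commutators -/
@[ext]
structure GG (X : Type) where
  one : X → ZMod 3
  two : X → X → ZMod 3
  three : X → X → X → ZMod 3

namespace GG
variable {X : Type}

instance : One (GG X) := ⟨⟨fun _ => 0, fun _ _ => 0, fun _ _ _ => 0⟩⟩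

instance : Mul (GG X) := ⟨fun x y => ⟨fun p => x.one p + y.one p, fun p q => x.two p q + y.two p q + x.one p * y.one q,
  fun a b c => x.three a b c + y.three a b c + (x.one c * y.two a b - x.one a * y.two c b) +
    (x.two c a * y.one b - x.two a c * y.one b)⟩⟩

theorem one_one (p : X) : (1 : GG X).one p = 0 := rfl
theorem one_two (p q : X) : (1 : GG X).two p q = 0 := rfl
theorem one_three (p q r : X) : (1 : GG X).three p q r = 0 := rfl
theorem mul_one' (x y : GG X) (p : X) : (x * y).one p = x.one p + y.one p := rfl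
theorem mul_two (x y : GG X) (p q : X) : (x * y).two p q = x.two p q + y.two p q + x.one p * y.one q := rfl
theorem mul_three (x y : GG X) (a b c : X) : (x * y).three a b c = x.three a b c + y.three a b c +
    (x.one c * y.two a b - x.one a * y.two c b) + (x.two c a * y.one b - x.two a c * y.one b) := rfl

theorem three_eq : (3 : ZMod 3) = 0 := by decide

theorem cube_aux (x : GG X) : (x * x) * x = 1 := by
  have h3 := three_eq
  ext
  · simp only [mul_one', mul_two, mul_three, one_one, one_two, one_three]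
    linear_combination (x.one _) * h3
  · simp only [mul_one', mul_two, mul_three, one_one, one_two, one_three]
    rename_i p q
    linear_combination (x.two p q + x.one p * x.one q) * h3
  · simp only [mul_one', mul_two, mul_three, one_one, one_two, one_three]
    rename_i a b c
    linear_combination (x.three a b c + (x.one c * x.two a b - x.one a * x.two c b) +
      (x.two c a * x.one b - x.two a c * x.one b)) * h3

theorem assoc_aux (x y z : GG X) : (x * y) * z = x * (y * z) := by
  ext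
  · simp only [mul_one']; ring
  · simp only [mul_one', mul_two]; ring
  · simp only [mul_one', mul_two, mul_three]; ring

instance : Inv (GG X) := ⟨fun x => x * x⟩

instance : Group (GG X) :=
  Group.ofLeftAxioms assoc_aux
    (fun x => by
      ext
      · simp only [mul_one', one_one]; ring
      · simp only [mul_two, one_one, one_two]; ring
      · simp only [mul_three, one_one, one_two, one_three]; ring)
    (fun x => cube_aux x)

instance : Exp3 (GG X) where
  cube x := by
    rw [pow_succ, pow_two]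
    exact cube_aux x

variable [DecidableEq X]

/-- generator -/
def g1 (a : X) : GG X := ⟨fun p => if p = a then 1 else 0, fun _ _ => 0, fun _ _ _ => 0⟩

/-- central elements -/
def cen (w : X → X → X → ZMod 3) : GG X := ⟨fun _ => 0, fun _ _ => 0, w⟩

omit [DecidableEq X] in
theorem cen_add (w w' : X → X → X → ZMod 3) : cen (fun a b c => w a b c + w' a b c) = cen w * cen w' := by
  ext
  · simp [cen, mul_one']
  · simp [cen, mul_two]
  · simp [cen, mul_three]

/-- value of the triple commutator -/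
def wt (a b c : X) : X → X → X → ZMod 3 := fun p q r =>
  ((if r = c ∧ p = a then 1 else 0) - (if r = a ∧ p = c then 1 else 0)) * (if q = b then 1 else 0) -
  ((if p = c ∧ r = a then 1 else 0) - (if p = a ∧ r = c then 1 else 0)) * (if q = b then 1 else 0) -
  (if r = b then 1 else 0) * ((if p = c ∧ q = a then 1 else 0) - (if p = a ∧ q = c then 1 else 0)) +
  (if p = b then 1 else 0) * ((if r = c ∧ q = a then 1 else 0) - (if r = a ∧ q = c then 1 else 0))

theorem comm_mem (K : Subgroup (GG X)) (a b c : X) (ha : g1 a ∈ K) (hb : g1 b ∈ K) (hc : g1 c ∈ K) : cen (wt a b c) ∈ K := by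
  set z := (g1 a * g1 c)⁻¹ * (g1 c * g1 a) with hz
  have hzK : z ∈ K := K.mul_mem (K.inv_mem (K.mul_mem ha hc)) (K.mul_mem hc ha)
  have e1 : (g1 a * g1 c) * z = g1 c * g1 a := by rw [hz, mul_inv_cancel_left]
  set w := (g1 b * z)⁻¹ * (z * g1 b) with hw
  have hwK : w ∈ K := K.mul_mem (K.inv_mem (K.mul_mem hb hzK)) (K.mul_mem hzK hb)
  have e2 : (g1 b * z) * w = z * g1 b := by rw [hw, mul_inv_cancel_left]
  have z1 : ∀ p, z.one p = 0 := by
    intro p
    have := congrArg (fun g : GG X => g.one p) e1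
    simp only [mul_one'] at this
    linear_combination this
  have z2 : ∀ p q, z.two p q = (if p = c ∧ q = a then 1 else 0) - (if p = a ∧ q = c then 1 else 0) := by
    intro p q
    have := congrArg (fun g : GG X => g.two p q) e1
    simp only [mul_one', mul_two, z1] at this
    have f1 : (g1 c).one p * (g1 a).one q = if p = c ∧ q = a then 1 else 0 := by
      show (if p = c then (1:ZMod 3) else 0) * (if q = a then 1 else 0) = _
      by_cases h : p = c <;> by_cases h' : q = a <;> simp [h, h']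
    have f2 : (g1 a).one p * (g1 c).one q = if p = a ∧ q = c then 1 else 0 := by
      show (if p = a then (1:ZMod 3) else 0) * (if q = c then 1 else 0) = _
      by_cases h : p = a <;> by_cases h' : q = c <;> simp [h, h']
    rw [f1, f2] at this
    have f3 : ∀ x : X, (g1 x).two p q = 0 := fun x => rfl
    rw [f3, f3] at this
    linear_combination this
  have w1 : ∀ p, w.one p = 0 := by
    intro p
    have := congrArg (fun g : GG X => g.one p) e2
    simp only [mul_one'] at this
    linear_combination this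
  have w2 : ∀ p q, w.two p q = 0 := by
    intro p q
    have := congrArg (fun g : GG X => g.two p q) e2
    simp only [mul_one', mul_two, z1, w1] at this
    linear_combination this
  have w3 : w = cen (wt a b c) := by
    ext
    · rw [w1]; rfl
    · rw [w2]; rfl
    · rename_i p q r
      have := congrArg (fun g : GG X => g.three p q r) e2
      simp only [mul_one', mul_two, mul_three, z1, w1, w2] at this
      have f3 : ∀ (x p q : X), (g1 x).two p q = 0 := fun _ _ _ => rfl
      have f4 : ∀ (x p : X), (g1 x).one p = if p = x then 1 else 0 := fun _ _ => rfl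
      have f5 : ∀ (x p q r : X), (g1 x).three p q r = 0 := fun _ _ _ _ => rfl
      simp only [f3, f4, f5, z2] at this
      show w.three p q r = wt a b c p q r
      unfold wt
      linear_combination this
  rw [← w3]
  exact hwK

end GG

section cardlower

/-- the homomorphism to the model -/
def fmod (d : ℕ) : Burnside3 d →* GG (Fin d) := liftB (fun i => GG.g1 i)

theorem fmod_gen (d : ℕ) (i : Fin d) : fmod d (burnsideGen d i) = GG.g1 i := liftB_gen _ i

/-- the central part of the range -/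
def PP (d : ℕ) : AddSubgroup (Fin d → Fin d → Fin d → ZMod 3) where
  carrier := {w | GG.cen w ∈ (fmod d).range}
  zero_mem' := (fmod d).range.one_mem
  add_mem' := by
    intro w w' hw hw'
    have : GG.cen (w + w') = GG.cen w * GG.cen w' := GG.cen_add w w'
    show GG.cen (w + w') ∈ (fmod d).range
    rw [this]
    exact (fmod d).range.mul_mem hw hw'
  neg_mem' := by
    intro w hw
    have h1 : GG.cen (-w) * GG.cen w = 1 := by
      rw [← GG.cen_add]
      have : (fun a b c => (-w) a b c + w a b c) = (fun _ _ _ => (0 : ZMod 3)) := by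
        funext a b c
        show -(w a b c) + w a b c = 0
        ring
      rw [this]
      rfl
    show GG.cen (-w) ∈ (fmod d).range
    rw [eq_inv_of_mul_eq_one_left h1]
    exact (fmod d).range.inv_mem hw

theorem wt_mem (d : ℕ) (a b c : Fin d) : GG.wt a b c ∈ PP d := by
  show GG.cen (GG.wt a b c) ∈ (fmod d).range
  apply GG.comm_mem
  · exact ⟨burnsideGen d a, fmod_gen d a⟩
  · exact ⟨burnsideGen d b, fmod_gen d b⟩
  · exact ⟨burnsideGen d c, fmod_gen d c⟩

theorem card_lower (d n : ℕ) (hn : 3 * n ≤ d) : 3^(n^3) ≤ Nat.card (Burnside3 d) := by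
  haveI := B3_finite d
  set A : Fin n → Fin d := fun i => ⟨i.1, by omega⟩ with hA
  set B : Fin n → Fin d := fun i => ⟨n + i.1, by omega⟩ with hB
  set C : Fin n → Fin d := fun i => ⟨2*n + i.1, by omega⟩ with hC
  have hAB : ∀ i j, A i ≠ B j := fun i j h => by
    have := Fin.mk.inj_iff.1 h
    omega
  have hAC : ∀ i j, A i ≠ C j := fun i j h => by
    have := Fin.mk.inj_iff.1 h
    omega
  have hBC : ∀ i j, B i ≠ C j := fun i j h => by
    have := Fin.mk.inj_iff.1 h
    omega
  have hAi : ∀ i j, A i = A j ↔ i = j := fun i j => by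
    constructor
    · intro h
      have := Fin.mk.inj_iff.1 h
      exact Fin.ext this
    · rintro rfl; rfl
  have hBi : ∀ i j, B i = B j ↔ i = j := fun i j => by
    constructor
    · intro h
      have := Fin.mk.inj_iff.1 h
      exact Fin.ext (by omega)
    · rintro rfl; rfl
  have hCi : ∀ i j, C i = C j ↔ i = j := fun i j => by
    constructor
    · intro h
      have := Fin.mk.inj_iff.1 h
      exact Fin.ext (by omega)
    · rintro rfl; rfl
  let W : (Fin n × Fin n × Fin n → ZMod 3) → (Fin d → Fin d → Fin d → ZMod 3) := fun m =>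
    ∑ t : Fin n × Fin n × Fin n, (m t).val • GG.wt (A t.1) (B t.2.1) (C t.2.2)
  have hWmem : ∀ m, GG.cen (W m) ∈ (fmod d).range := by
    intro m
    have : W m ∈ PP d := by
      apply AddSubgroup.sum_mem
      intro t _
      exact AddSubgroup.nsmul_mem _ (wt_mem d _ _ _) _
    exact this
  have hval : ∀ (t t' : Fin n × Fin n × Fin n), GG.wt (A t.1) (B t.2.1) (C t.2.2) (A t'.1) (B t'.2.1) (C t'.2.2) =
      if t' = t then 2 else 0 := by
    rintro ⟨i, j, k⟩ ⟨i', j', k'⟩
    unfold GG.wt
    simp only [hAi, hBi, hCi, Prod.mk.injEq]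
    have g1 : ∀ i j, (C i = A j) = False := fun i j => eq_false (fun h => hAC j i h.symm)
    have g2 : ∀ i j, (A i = C j) = False := fun i j => eq_false (hAC i j)
    have g3 : ∀ i j, (C i = B j) = False := fun i j => eq_false (fun h => hBC j i h.symm)
    have g4 : ∀ i j, (A i = B j) = False := fun i j => eq_false (hAB i j)
    simp only [g1, g2, g3, g4, false_and, if_false, sub_zero, zero_mul, zero_sub, add_zero]
    by_cases h1 : i' = i <;> by_cases h2 : j' = j <;> by_cases h3 : k' = k <;> simp [h1, h2, h3]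
    ring
  have hW : ∀ m t, W m (A t.1) (B t.2.1) (C t.2.2) = m t * 2 := by
    intro m t
    show (∑ t : Fin n × Fin n × Fin n, (m t).val • GG.wt (A t.1) (B t.2.1) (C t.2.2)) (A t.1) (B t.2.1) (C t.2.2) = _
    rw [Finset.sum_apply, Finset.sum_apply, Finset.sum_apply]
    have : ∀ t' ∈ (univ : Finset (Fin n × Fin n × Fin n)),
        ((m t').val • GG.wt (A t'.1) (B t'.2.1) (C t'.2.2)) (A t.1) (B t.2.1) (C t.2.2) = if t = t' then m t' * 2 else 0 := by
      intro t' _
      show (m t').val • (GG.wt (A t'.1) (B t'.2.1) (C t'.2.2) (A t.1) (B t.2.1) (C t.2.2)) = _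
      rw [hval, nsmul_eq_mul, ZMod.natCast_val, ZMod.cast_id]
      split_ifs <;> simp
    rw [Finset.sum_congr rfl this, Finset.sum_ite_eq univ, if_pos (mem_univ _)]
  have hinj : Function.Injective (fun m : (Fin n × Fin n × Fin n → ZMod 3) => (⟨GG.cen (W m), hWmem m⟩ : (fmod d).range)) := by
    intro m m' h
    have h1 : GG.cen (W m) = GG.cen (W m') := congrArg Subtype.val h
    have h2 : W m = W m' := congrArg GG.three h1
    funext t
    have h3 := hW m t
    rw [h2, hW] at h3
    have h4 := GG.three_eq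
    linear_combination h4 * (m t - m' t) + h3
  haveI : Finite (fmod d).range := Finite.of_surjective _ (fmod d).rangeRestrict_surjective
  have c1 := Nat.card_le_card_of_injective _ hinj
  have c2 := Nat.card_le_card_of_surjective _ (fmod d).rangeRestrict_surjective
  have c3 : Nat.card (Fin n × Fin n × Fin n → ZMod 3) = 3^(n^3) := by
    rw [Nat.card_eq_fintype_card, Fintype.card_fun, ZMod.card, Fintype.card_prod, Fintype.card_prod, Fintype.card_fin]
    congr 1
    ring
  rw [← c3]
  exact c1.trans c2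

theorem sl_inj (d : ℕ) : Function.Injective (sl (burnsideGen d)) := by
  have key : ∀ c : Fin d × Bool, ∀ p, (fmod d (sl (burnsideGen d) c)).one p = (if c.2 then 1 else 2) * (if p = c.1 then 1 else 0) := by
    rintro ⟨i, b⟩ p
    cases b with
    | true =>
      show (fmod d (burnsideGen d i)).one p = _
      rw [fmod_gen]
      simp [GG.g1]
    | false =>
      show (fmod d ((burnsideGen d i)⁻¹)).one p = _
      rw [map_inv, fmod_gen]
      show (GG.g1 i * GG.g1 i).one p = _
      rw [GG.mul_one']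
      simp only [GG.g1]
      split_ifs <;> simp_all
      norm_num
  rintro ⟨i, b⟩ ⟨j, b'⟩ h
  have h1 := fun p => (key (i, b) p).symm.trans ((congrArg (fun x => (fmod d x).one p) h).trans (key (j, b') p))
  have hij : i = j := by
    by_contra hne
    have := h1 i
    simp only [if_true, mul_one, if_neg hne, mul_zero] at this
    cases b <;> simp at this
    exact absurd this (by decide)
  subst hij
  have := h1 i
  simp only [if_true, mul_one] at this
  cases b <;> cases b' <;> simp at this ⊢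
  · exact absurd this (by decide)
  · exact absurd this (by decide)

end cardlower

section link
variable (d : ℕ)

theorem SS_eq : stepSet d = Set.range (sl (burnsideGen d)) := by
  ext x
  constructor
  · rintro ⟨i, rfl | rfl⟩
    · exact ⟨(i, true), rfl⟩
    · exact ⟨(i, false), rfl⟩
  · rintro ⟨⟨i, b⟩, rfl⟩
    cases b with
    | true => exact ⟨i, Or.inl rfl⟩
    | false => exact ⟨i, Or.inr rfl⟩

theorem card_SS : (Nat.card (stepSet d) : ℝ) = (Fintype.card (Fin d × Bool) : ℝ) := by
  rw [SS_eq, Nat.card_range_of_injective (sl_inj d), Nat.card_eq_fintype_card]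

theorem mu_eq (z : Burnside3 d) : stepLaw d z = (Fintype.card (Fin d × Bool) : ℝ)⁻¹ * ∑ c : Fin d × Bool, (open Classical in if sl (burnsideGen d) c = z then (1:ℝ) else 0) := by
  classical
  unfold stepLaw
  rw [card_SS]
  by_cases h : z ∈ stepSet d
  · rw [if_pos h, one_div]
    rw [SS_eq] at h
    obtain ⟨c, rfl⟩ := h
    have : ∀ c' : Fin d × Bool, (if sl (burnsideGen d) c' = sl (burnsideGen d) c then (1:ℝ) else 0) = if c' = c then 1 else 0 := by
      intro c'
      by_cases hc : c' = c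
      · rw [if_pos hc, if_pos (by rw [hc])]
      · rw [if_neg hc, if_neg (fun h => hc (sl_inj d h))]
    rw [Finset.sum_congr rfl (fun c' _ => this c'), Finset.sum_ite_eq' univ c, if_pos (mem_univ _), mul_one]
  · rw [if_neg h, Finset.sum_eq_zero, mul_zero]
    intro c _
    rw [if_neg]
    intro h'
    apply h
    rw [SS_eq]
    exact ⟨c, h'⟩

theorem wv_append (u w : List (Fin d × Bool)) : wv (burnsideGen d) (u ++ w) = wv (burnsideGen d) u * wv (burnsideGen d) w := by
  unfold wv
  rw [List.map_append, List.prod_append]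

theorem law_eq (hd : 0 < d) (t : ℕ) (x : Burnside3 d) : walkLaw d t x = pr (burnsideGen d) (MonoidHom.id _) t x := by
  classical
  have := B3_finite d
  have inst : Fintype (Burnside3 d) := Fintype.ofFinite _
  haveI : Nonempty (Fin d) := ⟨⟨0, hd⟩⟩
  induction t generalizing x with
  | zero =>
    unfold walkLaw pr
    rw [Av_zero, wv_nil, MonoidHom.id_apply]
    by_cases h : x = 1
    · rw [if_pos h, if_pos h.symm]
    · rw [if_neg h, if_neg (fun h' => h h'.symm)]
  | succ t ih =>
    unfold walkLaw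
    rw [finsum_eq_sum_of_fintype]
    unfold pr
    rw [Av_append t 1]
    have h1 : ∀ y : Burnside3 d, walkLaw d t y * stepLaw d (y⁻¹ * x) =
        Av t (fun u : List (Fin d × Bool) => stepLaw d (y⁻¹ * x) * if wv (burnsideGen d) u = y then (1:ℝ) else 0) := by
      intro y
      rw [ih, Av_mul_left, mul_comm]
      rfl
    rw [Finset.sum_congr rfl (fun y _ => h1 y), ← Av_sum]
    apply Av_congr
    intro u _
    have h2 : ∀ y : Burnside3 d, (stepLaw d (y⁻¹ * x) * if wv (burnsideGen d) u = y then (1:ℝ) else 0) =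
        if wv (burnsideGen d) u = y then stepLaw d (y⁻¹ * x) else 0 := by
      intro y
      split_ifs <;> simp
    rw [Finset.sum_congr rfl (fun y _ => h2 y), Finset.sum_ite_eq univ, if_pos (mem_univ _), mu_eq]
    rw [Av_succ, smul_eq_mul]
    congr 1
    apply Finset.sum_congr rfl
    intro c _
    rw [Av_zero, MonoidHom.id_apply, wv_append]
    have h3 : wv (burnsideGen d) [c] = sl (burnsideGen d) c := by
      rw [wv_cons, wv_nil, mul_one]
    rw [h3]
    by_cases h : sl (burnsideGen d) c = (wv (burnsideGen d) u)⁻¹ * x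
    · rw [if_pos h, if_pos (by rw [h]; group)]
    · rw [if_neg h, if_neg (fun h' => h (by rw [← h']; group))]

theorem tv_eq (hd : 0 < d) (t : ℕ) [Fintype (Burnside3 d)] :
    tvDist d t = (1/2) * ∑ x : Burnside3 d, |pr (burnsideGen d) (MonoidHom.id _) t x - 1/(Fintype.card (Burnside3 d) : ℝ)| := by
  unfold tvDist
  rw [finsum_eq_sum_of_fintype, Nat.card_eq_fintype_card]
  simp only [law_eq d hd]

theorem pr_nonneg (t : ℕ) (x : Burnside3 d) : 0 ≤ pr (burnsideGen d) (MonoidHom.id _) t x := by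
  classical
  unfold pr
  apply Av_nonneg
  intro u
  split_ifs <;> norm_num

theorem pr_sum (hd : 0 < d) (t : ℕ) [Fintype (Burnside3 d)] : ∑ x : Burnside3 d, pr (burnsideGen d) (MonoidHom.id _) t x = 1 := by
  classical
  haveI : Nonempty (Fin d) := ⟨⟨0, hd⟩⟩
  unfold pr
  rw [← Av_sum]
  have : ∀ u : List (Fin d × Bool), ∑ x : Burnside3 d, (if (MonoidHom.id (Burnside3 d)) (wv (burnsideGen d) u) = x then (1:ℝ) else 0) = 1 := by
    intro u
    rw [Finset.sum_ite_eq univ, if_pos (mem_univ _)]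
  rw [Av_congr t (fun u _ => this u), Av_const]

/-- support bound -/
theorem support_bound (hd : 0 < d) (t : ℕ) (h : tvDist d t ≤ 1/4) : (3/4) * (Nat.card (Burnside3 d) : ℝ) ≤ (2*(d:ℝ))^t := by
  classical
  have := B3_finite d
  have inst : Fintype (Burnside3 d) := Fintype.ofFinite _
  rw [tv_eq d hd] at h
  rw [Nat.card_eq_fintype_card]
  set p : Burnside3 d → ℝ := fun x => pr (burnsideGen d) (MonoidHom.id _) t x with hp
  set A : Finset (Burnside3 d) := (univ : Finset (Fin t → Fin d × Bool)).image (fun w => wv (burnsideGen d) (List.ofFn w)) with hA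
  have hAcard : (A.card : ℝ) ≤ (2*(d:ℝ))^t := by
    have h1 : A.card ≤ (univ : Finset (Fin t → Fin d × Bool)).card := Finset.card_image_le
    rw [Finset.card_univ, Fintype.card_fun, Fintype.card_prod, Fintype.card_fin, Fintype.card_bool, Fintype.card_fin] at h1
    have h2 : (A.card : ℝ) ≤ (((d*2)^t : ℕ) : ℝ) := by exact_mod_cast h1
    refine h2.trans (le_of_eq ?_)
    push_cast
    ring
  have hzero : ∀ x, x ∉ A → p x = 0 := by
    intro x hx
    haveI : Nonempty (Fin d) := ⟨⟨0, hd⟩⟩
    show pr (burnsideGen d) (MonoidHom.id _) t x = 0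
    unfold pr
    rw [Av_congr t (G := fun _ => (0:ℝ)), Av_const]
    intro u hu
    rw [if_neg]
    intro h'
    apply hx
    rw [hA, Finset.mem_image]
    subst hu
    refine ⟨u.get, mem_univ _, ?_⟩
    rw [List.ofFn_get]
    exact h'
  have hB : (0:ℝ) < Fintype.card (Burnside3 d) := by
    have : 0 < Fintype.card (Burnside3 d) := Fintype.card_pos
    exact_mod_cast this
  have hsum := pr_sum d hd t
  have h1 : ∑ x : Burnside3 d, |p x - 1/(Fintype.card (Burnside3 d) : ℝ)| =
      ∑ x ∈ A, |p x - 1/(Fintype.card (Burnside3 d) : ℝ)| + ∑ x ∈ Aᶜ, |p x - 1/(Fintype.card (Burnside3 d) : ℝ)| :=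
    (Finset.sum_add_sum_compl A _).symm
  have h2 : ∑ x ∈ A, (p x - 1/(Fintype.card (Burnside3 d) : ℝ)) ≤ ∑ x ∈ A, |p x - 1/(Fintype.card (Burnside3 d) : ℝ)| :=
    Finset.sum_le_sum (fun x _ => le_abs_self _)
  have h3 : ∑ x ∈ Aᶜ, |p x - 1/(Fintype.card (Burnside3 d) : ℝ)| = (Aᶜ.card : ℝ) * (1/(Fintype.card (Burnside3 d) : ℝ)) := by
    rw [← nsmul_eq_mul, ← Finset.sum_const]
    apply Finset.sum_congr rfl
    intro x hx
    rw [hzero x (Finset.mem_compl.1 hx), zero_sub, abs_neg, abs_of_pos (by positivity)]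
  have h4 : ∑ x ∈ A, p x = 1 := by
    have e := Finset.sum_add_sum_compl A p
    have e2 : ∑ x ∈ Aᶜ, p x = 0 := Finset.sum_eq_zero (fun x hx => hzero x (Finset.mem_compl.1 hx))
    rw [e2, add_zero] at e
    rw [e]
    exact hsum
  rw [Finset.sum_sub_distrib, h4, Finset.sum_const, nsmul_eq_mul] at h2
  have h5 : (Aᶜ.card : ℝ) = (Fintype.card (Burnside3 d) : ℝ) - A.card := by
    rw [Finset.card_compl, Nat.cast_sub (Finset.card_le_univ A)]
  rw [h5] at h3
  have h6 : ∑ x : Burnside3 d, |p x - 1/(Fintype.card (Burnside3 d) : ℝ)| ≤ 1/2 := by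
    have : (1/2) * ∑ x : Burnside3 d, |p x - 1/(Fintype.card (Burnside3 d) : ℝ)| ≤ 1/4 := h
    linarith
  rw [h1, h3] at h6
  have h7 : 2 - 2 * ((A.card : ℝ) * (1/(Fintype.card (Burnside3 d) : ℝ))) ≤ 1/2 := by
    have e3 : ((Fintype.card (Burnside3 d) : ℝ) - A.card) * (1/(Fintype.card (Burnside3 d) : ℝ)) = 1 - (A.card : ℝ) * (1/(Fintype.card (Burnside3 d) : ℝ)) := by
      field_simp
    rw [e3] at h6
    linarith
  have h8 : (3/4) ≤ (A.card : ℝ) * (1/(Fintype.card (Burnside3 d) : ℝ)) := by linarith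
  rw [mul_one_div, le_div_iff₀ hB] at h8
  exact h8.trans hAcard

end link

theorem ev_conditions : ∀ᶠ d : ℕ in atTop, 6561 ≤ d ∧ 10 * (Real.log d)^2 ≤ Real.sqrt d ∧
    4 * (d:ℝ)^2 * Real.exp (-(d:ℝ)) ≤ 1/8 ∧ 2 * (d:ℝ) * (1/2)^d ≤ 1/8 := by
  have h1 : ∀ᶠ d : ℕ in atTop, 6561 ≤ d := eventually_ge_atTop _
  have h2 : ∀ᶠ d : ℕ in atTop, 10 * (Real.log d)^2 ≤ Real.sqrt d := by
    have e1 : (fun x : ℝ => Real.log x ^ 2) =o[atTop] (fun x : ℝ => x) := Real.isLittleO_pow_log_id_atTop
    have e2 := e1.def (c := 1/40) (by norm_num)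
    have e3 : Tendsto (fun d : ℕ => Real.sqrt (d:ℝ)) atTop atTop := Real.tendsto_sqrt_atTop.comp tendsto_natCast_atTop_atTop
    filter_upwards [e3.eventually e2, h1] with d hd hd1
    have hd1' : (6561:ℝ) ≤ d := by exact_mod_cast hd1
    rw [Real.norm_of_nonneg (by positivity), Real.norm_of_nonneg (by positivity), Real.log_sqrt (by positivity)] at hd
    nlinarith
  have h3 : ∀ᶠ d : ℕ in atTop, 4 * (d:ℝ)^2 * Real.exp (-(d:ℝ)) ≤ 1/8 := by
    have e1 : Tendsto (fun d : ℕ => (d:ℝ)^2 * Real.exp (-(d:ℝ))) atTop (𝓝 0) :=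
      (Real.tendsto_pow_mul_exp_neg_atTop_nhds_zero 2).comp tendsto_natCast_atTop_atTop
    have e2 : ∀ᶠ d : ℕ in atTop, (d:ℝ)^2 * Real.exp (-(d:ℝ)) < 1/32 := e1.eventually_lt_const (by norm_num)
    filter_upwards [e2] with d hd
    linarith
  have h4 : ∀ᶠ d : ℕ in atTop, 2 * (d:ℝ) * (1/2)^d ≤ 1/8 := by
    have e1 : Tendsto (fun d : ℕ => (d:ℝ) * (1/2:ℝ)^d) atTop (𝓝 0) := tendsto_self_mul_const_pow_of_lt_one (by norm_num) (by norm_num)
    have e2 : ∀ᶠ d : ℕ in atTop, (d:ℝ) * (1/2:ℝ)^d < 1/16 := e1.eventually_lt_const (by norm_num)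
    filter_upwards [e2] with d hd
    linarith
  filter_upwards [h1, h2, h3, h4] with d a b c e
  exact ⟨a, b, c, e⟩

theorem aux1 (L sq : ℝ) (h8 : 8 ≤ L) (h : 10 * L^2 ≤ sq) : L ≤ sq/80 := by nlinarith

theorem aux2 (d sq : ℝ) (h81 : 81 ≤ sq) (h : sq * sq = d) : (4*d) * (sq/10) ≤ (3/10) * d^2 := by
  have hd : 0 ≤ d := by nlinarith
  have h1 : sq * 81 ≤ sq * sq := mul_le_mul_of_nonneg_left h81 (by linarith)
  have h2 : sq ≤ d/81 := by linarith
  have h3 : d * sq ≤ d * (d/81) := mul_le_mul_of_nonneg_left h2 hd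
  nlinarith

theorem aux3 (d : ℝ) (hd : 6561 ≤ d) : 2 * d^2 ≤ d^3 := by nlinarith [sq_nonneg d]

theorem aux4 (e sq : ℝ) (he : 0 < e) (h : e * e = sq) (h81 : 81 ≤ sq) : 17/2 ≤ e := by nlinarith

theorem aux5 (d sq L : ℝ) (hL : L ≤ sq/80) (h : sq * sq = d) (h81 : 81 ≤ sq) : L ≤ d := by nlinarith

/-- the total variation distance at the good time is small -/
theorem tv_small (d : ℕ) (h1 : 6561 ≤ d) (h2 : 10 * (Real.log d)^2 ≤ Real.sqrt d)
    (h3 : 4 * (d:ℝ)^2 * Real.exp (-(d:ℝ)) ≤ 1/8) (h4 : 2 * (d:ℝ) * (1/2)^d ≤ 1/8) :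
    tvDist d (2*d*(32*⌈32 * (d:ℝ)^2 / Real.log d⌉₊)) ≤ 1/4 := by
  have := B3_finite d
  have inst : Fintype (Burnside3 d) := Fintype.ofFinite _
  have hd : (6561:ℝ) ≤ d := by exact_mod_cast h1
  set L := Real.log d with hL
  have hL8 : 8 ≤ L := by
    rw [hL, Real.le_log_iff_exp_le (by linarith)]
    have e1 : Real.exp 8 = (Real.exp 1)^8 := by rw [← Real.exp_nat_mul]; norm_num
    rw [e1]
    have e2 := Real.exp_one_lt_d9
    have e3 : (Real.exp 1)^8 ≤ (2.7182818286:ℝ)^8 := pow_le_pow_left₀ (Real.exp_nonneg _) e2.le 8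
    have e4 : (2.7182818286:ℝ)^8 ≤ 6561 := by norm_num
    linarith
  set m₀ := ⌈32 * (d:ℝ)^2 / L⌉₊ with hm₀
  have hm₀' : 32 * (d:ℝ)^2 / L ≤ m₀ := Nat.le_ceil _
  set sq := Real.sqrt d with hsq
  have hsq2 : sq * sq = d := Real.mul_self_sqrt (by positivity)
  have hsq81 : 81 ≤ sq := by
    rw [hsq]
    apply Real.le_sqrt_of_sq_le
    norm_num
    exact h1
  have hns1 : (Nat.sqrt d : ℝ) ≤ sq := by
    rw [hsq]
    exact Real.nat_sqrt_le_real_sqrt
  have hns2 : sq ≤ (Nat.sqrt d : ℝ) + 1 := by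
    rw [hsq]
    exact Real.real_sqrt_le_nat_sqrt_succ
  set T := d * Nat.sqrt d with hT
  have hnspos : 1 ≤ Nat.sqrt d := by
    have : (1:ℝ) ≤ (Nat.sqrt d : ℝ) := by linarith
    exact_mod_cast this
  have hT1 : 1 ≤ T := by
    rw [hT]
    calc 1 = 1 * 1 := by norm_num
      _ ≤ d * Nat.sqrt d := Nat.mul_le_mul (by omega) hnspos
  have hT2 : T ≤ d^2 := by
    rw [hT, pow_two]
    exact Nat.mul_le_mul_left d (Nat.sqrt_le_self d)
  have hTr : (T:ℝ) = d * (Nat.sqrt d : ℝ) := by rw [hT]; push_cast; ring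
  have hrA1 : (1 + 8 * (d:ℝ)^2/T)/(2*d) ≤ (17/2)/sq := by
    have e1 : 8 * (d:ℝ)^2/T ≤ 16 * sq := by
      rw [hTr, div_le_iff₀ (by positivity)]
      have e2 : sq/2 ≤ (Nat.sqrt d : ℝ) := by linarith
      have e3 : 16 * sq * (d * (sq/2)) ≤ 16 * sq * (d * (Nat.sqrt d : ℝ)) := by
        apply mul_le_mul_of_nonneg_left _ (by positivity)
        apply mul_le_mul_of_nonneg_left e2 (by positivity)
      have e4 : 16 * sq * (d * (sq/2)) = 8 * (d:ℝ)^2 := by
        have : 16 * sq * (d * (sq/2)) = 8 * d * (sq * sq) := by ring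
        rw [this, hsq2]; ring
      linarith
    rw [div_le_div_iff₀ (by positivity) (by positivity)]
    have e5 : (1 + 8 * (d:ℝ)^2/T) * sq ≤ (17 * sq) * sq := by
      apply mul_le_mul_of_nonneg_right _ (by positivity)
      linarith
    have e6 : (17 * sq) * sq = 17 * d := by rw [mul_assoc, hsq2]
    linarith
  have hsqexp : sq = Real.exp (L/2) := by
    rw [hsq, Real.sqrt_eq_rpow, Real.rpow_def_of_pos (by positivity), ← hL]
    congr 1
    ring
  have hrA2 : (1 + 8 * (d:ℝ)^2/T)/(2*d) ≤ Real.exp (-(L/4)) := by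
    refine hrA1.trans ?_
    rw [div_le_iff₀ (by positivity)]
    have e1 : Real.exp (-(L/4)) * sq = Real.exp (L/4) := by
      rw [hsqexp, ← Real.exp_add]; congr 1; ring
    rw [e1]
    have e2 : Real.exp (L/4) * Real.exp (L/4) = sq := by
      rw [← Real.exp_add, hsqexp]; congr 1; ring
    exact aux4 _ sq (Real.exp_pos (L/4)) e2 hsq81
  have hrA3 : (1 + 8 * (d:ℝ)^2/T)/(2*d) ≤ 1 := hrA2.trans (Real.exp_le_one_iff.2 (by linarith))
  have hmain := upper_main d (by omega) T m₀ hT1 hT2 hrA3 (a := 1/(4*d)) (by positivity)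
  rw [tv_eq d (by omega)]
  -- the two contributions
  have hlog3 : Real.log 3 ≤ 2 := by
    have := Real.log_le_sub_one_of_pos (show (0:ℝ) < 3 by norm_num)
    linarith
  have h3pow : ∀ n : ℕ, (3:ℝ)^n ≤ Real.exp (2*n) := by
    intro n
    have : (3:ℝ) ≤ Real.exp 2 := by
      have := Real.add_one_le_exp (2:ℝ)
      linarith
    calc (3:ℝ)^n ≤ (Real.exp 2)^n := pow_le_pow_left₀ (by norm_num) this n
      _ = Real.exp (2*n) := by rw [← Real.exp_nat_mul]; congr 1; ring
  have hA : (3:ℝ)^(2*d^2) * ((1 + 8 * (d:ℝ)^2/T)/(2*d))^m₀ ≤ Real.exp (-(d:ℝ)) := by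
    have e1 : ((1 + 8 * (d:ℝ)^2/T)/(2*d))^m₀ ≤ Real.exp (-(8*(d:ℝ)^2)) := by
      calc ((1 + 8 * (d:ℝ)^2/T)/(2*d))^m₀ ≤ (Real.exp (-(L/4)))^m₀ := pow_le_pow_left₀ (by positivity) hrA2 _
        _ = Real.exp (-(m₀ * (L/4))) := by rw [← Real.exp_nat_mul]; congr 1; ring
        _ ≤ Real.exp (-(8*(d:ℝ)^2)) := by
          apply Real.exp_le_exp.2
          rw [div_le_iff₀ (by linarith)] at hm₀'
          linarith
    have e2 := h3pow (2*d^2)
    calc (3:ℝ)^(2*d^2) * ((1 + 8 * (d:ℝ)^2/T)/(2*d))^m₀ ≤ Real.exp (2*((2*d^2 : ℕ):ℝ)) * Real.exp (-(8*(d:ℝ)^2)) :=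
          mul_le_mul e2 e1 (by positivity) (Real.exp_nonneg _)
      _ = Real.exp (-(4*(d:ℝ)^2)) := by
          rw [← Real.exp_add]; congr 1; push_cast; ring
      _ ≤ Real.exp (-(d:ℝ)) := by
          apply Real.exp_le_exp.2
          nlinarith
  have hB : (3:ℝ)^(d+1) * (2*(d:ℝ)^2)^T * (157/160)^m₀ ≤ Real.exp (-(d:ℝ)) := by
    have e1 := h3pow (d+1)
    have e2 : (2*(d:ℝ)^2)^T ≤ Real.exp (d * sq * (3*L)) := by
      have f1 : 2*(d:ℝ)^2 ≤ Real.exp (3*L) := by
        have : Real.exp (3*L) = (d:ℝ)^3 := by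
          rw [show 3*L = ((3:ℕ):ℝ) * L by norm_num, Real.exp_nat_mul, hL, Real.exp_log (by linarith)]
        rw [this]
        exact aux3 d hd
      calc (2*(d:ℝ)^2)^T ≤ (Real.exp (3*L))^T := pow_le_pow_left₀ (by positivity) f1 T
        _ = Real.exp (T * (3*L)) := by rw [← Real.exp_nat_mul]
        _ ≤ Real.exp (d * sq * (3*L)) := by
          apply Real.exp_le_exp.2
          apply mul_le_mul_of_nonneg_right _ (by linarith)
          rw [hTr]
          exact mul_le_mul_of_nonneg_left hns1 (by positivity)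
    have e3 : ((157:ℝ)/160)^m₀ ≤ Real.exp (-(3/160 * m₀)) := by
      have : (157:ℝ)/160 ≤ Real.exp (-(3/160)) := by
        have := Real.add_one_le_exp (-(3/160:ℝ))
        linarith
      calc ((157:ℝ)/160)^m₀ ≤ (Real.exp (-(3/160)))^m₀ := pow_le_pow_left₀ (by norm_num) this _
        _ = Real.exp (-(3/160 * m₀)) := by rw [← Real.exp_nat_mul]; congr 1; ring
    calc (3:ℝ)^(d+1) * (2*(d:ℝ)^2)^T * (157/160)^m₀ ≤
          Real.exp (2*((d+1 : ℕ):ℝ)) * Real.exp (d * sq * (3*L)) * Real.exp (-(3/160 * m₀)) := by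
            apply mul_le_mul _ e3 (by positivity) (by positivity)
            exact mul_le_mul e1 e2 (by positivity) (by positivity)
      _ = Real.exp (2*((d:ℝ)+1) + d * sq * (3*L) - 3/160 * m₀) := by
          rw [← Real.exp_add, ← Real.exp_add]; congr 1; push_cast; ring
      _ ≤ Real.exp (-(d:ℝ)) := by
          apply Real.exp_le_exp.2
          have g1 : 3/160 * (32 * (d:ℝ)^2 / L) ≤ 3/160 * m₀ := mul_le_mul_of_nonneg_left hm₀' (by norm_num)
          have hLpos : 0 < L := by linarith
          have g2 : (d:ℝ) * sq * (3*L) ≤ (3/10) * ((d:ℝ)^2/L) := by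
            rw [mul_div_assoc', le_div_iff₀ hLpos]
            have k1 : (d:ℝ) * sq * (3*L) * L = (3/10) * (d * sq * (10 * L^2)) := by ring
            rw [k1]
            have k2 : (d:ℝ) * sq * (10 * L^2) ≤ d * sq * sq := mul_le_mul_of_nonneg_left h2 (by positivity)
            have k3 : (d:ℝ) * sq * sq = (d:ℝ)^2 := by rw [mul_assoc, hsq2]; ring
            linarith
          have g3 : 2*((d:ℝ)+1) + d ≤ (3/10) * ((d:ℝ)^2/L) := by
            rw [mul_div_assoc', le_div_iff₀ hLpos]
            have k1 : L ≤ sq/10 := by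
              have := aux1 L sq hL8 h2
              linarith
            have k2 : (2*((d:ℝ)+1) + d) * L ≤ (4*(d:ℝ)) * (sq/10) := by
              apply mul_le_mul _ k1 hLpos.le (by positivity)
              linarith
            have k3 : (4*(d:ℝ)) * (sq/10) ≤ (3/10) * (d:ℝ)^2 := aux2 d sq hsq81 hsq2
            linarith
          have g4 : 3/160 * (32 * (d:ℝ)^2 / L) = (6/10) * ((d:ℝ)^2/L) := by ring
          linarith
  have hm₀d : d ≤ m₀ := by
    have : (d:ℝ) ≤ m₀ := by
      refine le_trans ?_ hm₀'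
      rw [le_div_iff₀ (by linarith)]
      have k2 : L ≤ d := aux5 d sq L (aux1 L sq hL8 h2) hsq2 hsq81
      have k3 : (d:ℝ) * L ≤ d * d := mul_le_mul_of_nonneg_left k2 (by linarith)
      have k4 : (d:ℝ) * d = (d:ℝ)^2 := by ring
      have k5 : 0 ≤ (d:ℝ)^2 := sq_nonneg _
      linarith
    exact_mod_cast this
  have hC : ((1:ℝ)/2)^m₀ ≤ (1/2)^d := pow_le_pow_of_le_one (by norm_num) (by norm_num) hm₀d
  have hY : (3^(2*d^2) * ((1 + 8 * (d:ℝ)^2/T)/(2*d))^m₀ + 3^(d+1) * (2*(d:ℝ)^2)^T * (157/160)^m₀) ≤ 2 * Real.exp (-(d:ℝ)) := by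
    linarith
  set Y := (3^(2*d^2) * ((1 + 8 * (d:ℝ)^2/T)/(2*d))^m₀ + 3^(d+1) * (2*(d:ℝ)^2)^T * (157/160)^m₀) with hYd
  have hfin : (d:ℝ) * (2 * (1/2)^m₀ + (1/(4*d) + Y/(1/(4*d)))/2) ≤ 1/2 := by
    have k1 : (d:ℝ) * (2 * (1/2)^m₀ + (1/(4*d) + Y/(1/(4*d)))/2) = 2 * d * (1/2)^m₀ + 1/8 + 2 * (d:ℝ)^2 * Y := by
      field_simp
      ring
    rw [k1]
    have k2 : 2 * (d:ℝ) * (1/2)^m₀ ≤ 2 * d * (1/2)^d := mul_le_mul_of_nonneg_left hC (by positivity)
    have k3 : 2 * (d:ℝ)^2 * Y ≤ 2 * (d:ℝ)^2 * (2 * Real.exp (-(d:ℝ))) := mul_le_mul_of_nonneg_left hY (by positivity)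
    linarith
  linarith [hmain.trans hfin]

theorem upper_bound (d : ℕ) (h1 : 6561 ≤ d) (h2 : 10 * (Real.log d)^2 ≤ Real.sqrt d)
    (h3 : 4 * (d:ℝ)^2 * Real.exp (-(d:ℝ)) ≤ 1/8) (h4 : 2 * (d:ℝ) * (1/2)^d ≤ 1/8) :
    (mixingTime d : ℝ) ≤ 2112 * ((d:ℝ)^3 / Real.log d) := by
  have hd : (6561:ℝ) ≤ d := by exact_mod_cast h1
  have hs := tv_small d h1 h2 h3 h4
  have hle : mixingTime d ≤ 2*d*(32*⌈32 * (d:ℝ)^2 / Real.log d⌉₊) := Nat.sInf_le hs
  have hle' : (mixingTime d : ℝ) ≤ ((2*d*(32*⌈32 * (d:ℝ)^2 / Real.log d⌉₊) : ℕ) : ℝ) := by exact_mod_cast hle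
  refine hle'.trans ?_
  push_cast
  set L := Real.log d with hL
  have hLpos : 0 < L := Real.log_pos (by linarith)
  have hLd : L ≤ d := (Real.log_le_sub_one_of_pos (by linarith)).trans (by linarith)
  have h5 : (⌈32 * (d:ℝ)^2 / L⌉₊ : ℝ) < 32 * (d:ℝ)^2 / L + 1 := Nat.ceil_lt_add_one (by positivity)
  have h6 : 1 ≤ (d:ℝ)^2/L := by
    rw [le_div_iff₀ hLpos]; nlinarith
  have h7 : (⌈32 * (d:ℝ)^2 / L⌉₊ : ℝ) ≤ 33 * ((d:ℝ)^2 / L) := by
    have : 32 * (d:ℝ)^2 / L = 32 * ((d:ℝ)^2 / L) := by ring
    linarith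
  calc 2 * (d:ℝ) * (32 * (⌈32 * (d:ℝ)^2 / L⌉₊ : ℝ)) ≤ 2 * (d:ℝ) * (32 * (33 * ((d:ℝ)^2 / L))) := by gcongr
    _ = 2112 * ((d:ℝ)^3 / L) := by ring

theorem lower_bound (d : ℕ) (h1 : 6561 ≤ d) (h2 : 10 * (Real.log d)^2 ≤ Real.sqrt d)
    (h3 : 4 * (d:ℝ)^2 * Real.exp (-(d:ℝ)) ≤ 1/8) (h4 : 2 * (d:ℝ) * (1/2)^d ≤ 1/8) :
    (1/864) * ((d:ℝ)^3 / Real.log d) ≤ mixingTime d := by
  have hd : (6561:ℝ) ≤ d := by exact_mod_cast h1
  have hmem : tvDist d (mixingTime d) ≤ 1/4 := Nat.sInf_mem (s := {t : ℕ | tvDist d t ≤ 1/4}) ⟨_, tv_small d h1 h2 h3 h4⟩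
  have hsb := support_bound d (by omega) (mixingTime d) hmem
  set n := d/3 with hn
  have hcl := card_lower d n (by omega)
  have hcl' : ((3:ℝ))^(n^3) ≤ (Nat.card (Burnside3 d) : ℝ) := by exact_mod_cast hcl
  have h5 : (3/4:ℝ) * 3^(n^3) ≤ (2*(d:ℝ))^(mixingTime d) := by
    refine le_trans ?_ hsb
    linarith
  have h6 := Real.log_le_log (by positivity) h5
  rw [Real.log_mul (by norm_num) (by positivity), Real.log_pow, Real.log_pow] at h6
  have h7 : (1:ℝ) ≤ Real.log 3 := by
    rw [Real.le_log_iff_exp_le (by norm_num)]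
    have := Real.exp_one_lt_d9
    linarith
  have h8 : -(1/3:ℝ) ≤ Real.log (3/4) := by
    have := Real.one_sub_inv_le_log_of_pos (show (0:ℝ) < 3/4 by norm_num)
    norm_num at this ⊢
    linarith
  have hnr : (d:ℝ)/6 ≤ n := by
    have : d ≤ 3*n + 2 := by omega
    have h' : (d:ℝ) ≤ 3*n + 2 := by exact_mod_cast this
    linarith
  have hn1 : (1:ℝ) ≤ n := by linarith
  have hn3 : ((d:ℝ)/6)^3 ≤ (n:ℝ)^3 := pow_le_pow_left₀ (by positivity) hnr 3
  have hn31 : (1:ℝ) ≤ (n:ℝ)^3 := one_le_pow₀ hn1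
  have h9 : (n:ℝ)^3 / 2 ≤ (mixingTime d : ℝ) * Real.log (2*d) := by
    push_cast at h6
    nlinarith
  have h10 : Real.log (2*d) ≤ 2 * Real.log d := by
    rw [← Real.log_rpow (by linarith)]
    apply Real.log_le_log (by positivity)
    rw [Real.rpow_two]
    nlinarith
  have hLpos : 0 < Real.log d := Real.log_pos (by linarith)
  have h11 : (mixingTime d : ℝ) * Real.log (2*d) ≤ (mixingTime d : ℝ) * (2 * Real.log d) := mul_le_mul_of_nonneg_left h10 (by positivity)
  rw [mul_div_assoc', div_le_iff₀ hLpos]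
  have h12 : ((d:ℝ)/6)^3 = (d:ℝ)^3/216 := by ring
  rw [h12] at hn3
  linarith

/-- The groups B(3, d) are finite, and the mixing time of the walk is of exact order
d ^ 3 / log d as d tends to infinity. -/
theorem result : (∀ d : ℕ, Finite (Burnside3 d)) ∧
    ∃ c C : ℝ, 0 < c ∧ 0 < C ∧ ∀ᶠ d : ℕ in atTop,
      c * ((d : ℝ) ^ 3 / Real.log d) ≤ (mixingTime d : ℝ) ∧
      (mixingTime d : ℝ) ≤ C * ((d : ℝ) ^ 3 / Real.log d) := by
  refine ⟨B3_finite, 1/864, 2112, by norm_num, by norm_num, ?_⟩
  filter_upwards [ev_conditions] with d hd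
  obtain ⟨h1, h2, h3, h4⟩ := hd
  exact ⟨lower_bound d h1 h2 h3 h4, upper_bound d h1 h2 h3 h4⟩

end Pool.Agent.Results.MP_3225a3_pr.MixingOrder
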